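import Pool.Agent.R4P.RpI

/-!
MP_039b14_co, rank four, module RpI2: the sum over the sets of at least `k` zero pairs.
-/

set_option autoImplicit false

namespace Pool.Agent.R4P

open Finset H38Pav

variable {n : ℕ}

theorem sum_small_k (A : ℕ) : ∃ N : ℕ, ∀ n : ℕ, N ≤ n → ∀ k : ℕ, 1 ≤ k →
    n ^ (A * k) * ∑ P ∈ (prs n).powerset.filter (fun P => k ≤ P.card),
      (AA P).card * (n ^ 2 + 1) ^ P.card ≤ (fams n).card := by
  obtain ⟨N, hN⟩ := joint (A + 6)
  refine ⟨max N 2, fun n hn k hk => ?_⟩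
  have hnN : N ≤ n := (le_max_left _ _).trans hn
  have hn2 : 2 ≤ n := (le_max_right _ _).trans hn
  have hn2' : (2 : ℝ) ≤ n := by exact_mod_cast hn2
  have hn0 : (0 : ℝ) < n := by linarith
  have hn1 : (1 : ℝ) ≤ n := by linarith
  obtain ⟨x, hx⟩ : ∃ x, x = ((n : ℝ) ^ 2 + 1) / (n : ℝ) ^ 6 := ⟨_, rfl⟩
  have hx0 : 0 ≤ x := by rw [hx]; positivity
  have hxn : (n : ℝ) ^ 6 * x = (n : ℝ) ^ 2 + 1 := by
    rw [hx, mul_div_cancel₀ _ (by positivity)]
  have hterm : ∀ P ∈ (prs n).powerset.filter (fun P => k ≤ P.card),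
      (n : ℝ) ^ (A * k) * (((AA P).card : ℝ) * ((n : ℝ) ^ 2 + 1) ^ P.card) ≤
        ((fams n).card : ℝ) * x ^ P.card := by
    intro P hP
    rw [Finset.mem_filter, Finset.mem_powerset] at hP
    have hpairs : Pairs P := fun e he => (Finset.mem_powersetCard.1 (hP.1 he)).2
    have h1 : ((n : ℝ) ^ ((A + 6) * P.card)) * ((AA P).card : ℝ) ≤ ((fams n).card : ℝ) := by
      exact_mod_cast hN n hnN P hpairs
    have h2 : (n : ℝ) ^ (A * k) ≤ (n : ℝ) ^ (A * P.card) :=
      pow_le_pow_right₀ hn1 (Nat.mul_le_mul_left A hP.2)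
    have h3 : (0 : ℝ) ≤ ((AA P).card : ℝ) * ((n : ℝ) ^ 2 + 1) ^ P.card := by positivity
    calc (n : ℝ) ^ (A * k) * (((AA P).card : ℝ) * ((n : ℝ) ^ 2 + 1) ^ P.card)
        ≤ (n : ℝ) ^ (A * P.card) * (((AA P).card : ℝ) * ((n : ℝ) ^ 2 + 1) ^ P.card) :=
          mul_le_mul_of_nonneg_right h2 h3
      _ = ((n : ℝ) ^ ((A + 6) * P.card) * ((AA P).card : ℝ)) * x ^ P.card := by
          rw [← hxn, mul_pow, add_mul, pow_add, pow_mul (n : ℝ) 6]
          ring
      _ ≤ ((fams n).card : ℝ) * x ^ P.card := mul_le_mul_of_nonneg_right h1 (by positivity)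
  have hsub : (prs n).powerset.filter (fun P => k ≤ P.card) ⊆ (prs n).powerset.erase ∅ := by
    intro P hP
    rw [Finset.mem_filter] at hP
    rw [Finset.mem_erase]
    refine ⟨fun h => ?_, hP.1⟩
    rw [h, Finset.card_empty] at hP
    exact absurd (hk.trans hP.2) (by decide)
  have hle : ∑ P ∈ (prs n).powerset.filter (fun P => k ≤ P.card), x ^ P.card ≤ 1 := by
    refine (Finset.sum_le_sum_of_subset_of_nonneg hsub fun P _ _ => pow_nonneg hx0 _).trans ?_
    rw [rpi_sum_pow]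
    have hK : (prs n).card ≤ n ^ 2 := by
      unfold prs
      rw [Finset.card_powersetCard, Finset.card_univ, Fintype.card_fin]
      exact Nat.choose_le_pow n 2
    have h1 := rpi_pow_le hn2 hK
    rw [← hx] at h1
    linarith
  have hsum : (n : ℝ) ^ (A * k) * ∑ P ∈ (prs n).powerset.filter (fun P => k ≤ P.card),
      ((AA P).card : ℝ) * ((n : ℝ) ^ 2 + 1) ^ P.card ≤ ((fams n).card : ℝ) := by
    rw [Finset.mul_sum]
    refine (Finset.sum_le_sum hterm).trans ?_
    rw [← Finset.mul_sum]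
    exact mul_le_of_le_one_right (by positivity) hle
  exact_mod_cast hsum

end Pool.Agent.R4P
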