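import Pool.Agent.H38Pav.Defs

/-!
MP_039b14_co, rank four: definitions.

A paving matroid of rank four on `Fin n` is given by the family of its planes with at least four
points: sets with at least four and fewer than `n` elements, any two of which have at most two
common elements.
-/

set_option autoImplicit false

namespace Pool.Agent.R4P

open Finset

variable {n : ℕ}

/-- the families of planes with at least four points of the paving matroids of rank four -/
def IsFam (F : Finset (Finset (Fin n))) : Prop :=
  (∀ H ∈ F, 4 ≤ H.card ∧ H.card < n) ∧ ∀ H ∈ F, ∀ K ∈ F, H ≠ K → (H ∩ K).card ≤ 2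

/-- some member of the family contains `X` -/
def Cov (F : Finset (Finset (Fin n))) (X : Finset (Fin n)) : Prop := ∃ H ∈ F, X ⊆ H

open Classical in
/-- all families -/
noncomputable def fams (n : ℕ) : Finset (Finset (Finset (Fin n))) := univ.filter IsFam

open Classical in
/-- the families no member of which contains an element of `P` -/
noncomputable def AA (P : Finset (Finset (Fin n))) : Finset (Finset (Finset (Fin n))) :=
  (fams n).filter (fun F => ∀ e ∈ P, ¬ Cov F e)

/-- all elements of `P` are pairs -/
def Pairs (P : Finset (Finset (Fin n))) : Prop := ∀ e ∈ P, e.card = 2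

/-- the number of pairs of `P` at `x` -/
def deg (P : Finset (Finset (Fin n))) (x : Fin n) : ℕ := (P.filter (fun e => x ∈ e)).card

/-- `y` leaves the member `R` -/
def leave (y : Fin n) (R : Finset (Fin n)) (F : Finset (Finset (Fin n))) :
    Finset (Finset (Fin n)) :=
  if 5 ≤ R.card then insert (R.erase y) (F.erase R) else F.erase R

open Classical in
/-- `y` joins the plane spanned by the triple `T` -/
noncomputable def join (y : Fin n) (T : Finset (Fin n)) (F : Finset (Finset (Fin n))) :
    Finset (Finset (Fin n)) :=
  if h : Cov F T then insert (insert y h.choose) (F.erase h.choose) else insert (insert y T) F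

open Classical in
/-- the points `u` off `x`, `y` which are not joined to them in `P` and not on a member through
`x` and `y` -/
noncomputable def SS (P : Finset (Finset (Fin n))) (x y : Fin n) (F : Finset (Finset (Fin n))) :
    Finset (Fin n) :=
  univ.filter (fun u => u ≠ x ∧ u ≠ y ∧ ({x, u} : Finset (Fin n)) ∉ P ∧
    ({y, u} : Finset (Fin n)) ∉ P ∧ ¬ Cov F {x, y, u})

open Classical in
/-- the (ordered) pairs of different points of `SS` which are not in `P` and not covered together
with `y` -/
noncomputable def GG (P : Finset (Finset (Fin n))) (x y : Fin n) (F : Finset (Finset (Fin n))) :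
    Finset (Fin n × Fin n) :=
  (SS P x y F ×ˢ SS P x y F).filter (fun p => p.1 ≠ p.2 ∧ ({p.1, p.2} : Finset (Fin n)) ∉ P ∧
    ¬ Cov F {y, p.1, p.2})

open Classical in
/-- the families in `AA P` for which exactly `t` members contain `x` and `y`, all of them with four
elements -/
noncomputable def FT (P : Finset (Finset (Fin n))) (x y : Fin n) (t : ℕ) :
    Finset (Finset (Finset (Fin n))) :=
  (AA P).filter (fun F => (∀ H ∈ F, x ∈ H → y ∈ H → H.card = 4) ∧
    (F.filter (fun H => x ∈ H ∧ y ∈ H)).card = t)

open Classical in
/-- the families in `FT` without large members and with at most `a` pairs in `GG` -/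
noncomputable def BB (P : Finset (Finset (Fin n))) (x y : Fin n) (t h a : ℕ) :
    Finset (Finset (Finset (Fin n))) :=
  (FT P x y t).filter (fun F => (∀ H ∈ F, H.card ≤ h) ∧ (GG P x y F).card ≤ a)

/-- all pairs -/
def prs (n : ℕ) : Finset (Finset (Fin n)) := univ.powersetCard 2

/-- the closure of a set with respect to loops and lines -/
def lc (M : Matroid (Fin n)) (X : Set (Fin n)) : Set (Fin n) :=
  ⋂₀ {Y | X ⊆ Y ∧ M.closure ∅ ⊆ Y ∧ ∀ a ∈ Y, ∀ b ∈ Y, M.closure {a, b} ⊆ Y}

/-- the planes -/
def IsPlane (M : Matroid (Fin n)) (P : Set (Fin n)) : Prop := M.IsFlat P ∧ M.eRk P = 3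

open Classical in
/-- the cap of a set: the elements which are not in the closure of the smaller ones -/
noncomputable def cap (M : Matroid (Fin n)) (P : Set (Fin n)) : Finset (Fin n) :=
  univ.filter (fun p => p ∈ P ∧ p ∉ lc M {q | q ∈ P ∧ q < p})

open Classical in
/-- the family of the caps of the planes -/
noncomputable def capFam (M : Matroid (Fin n)) : Finset (Finset (Fin n)) :=
  univ.filter (fun H => 4 ≤ H.card ∧ ∃ P, IsPlane M P ∧ cap M P = H)

open Classical in
/-- the pairs contained in no cap of a plane -/
noncomputable def zeroPairs (M : Matroid (Fin n)) : Finset (Finset (Fin n)) :=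
  (prs n).filter (fun e => ∀ P, IsPlane M P → ¬ e ⊆ cap M P)

end Pool.Agent.R4P
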