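import Pool.Agent.R4P.RpJ

/-!
MP_039b14_co, rank four: the caps of the planes form a family.
-/

set_option autoImplicit false

namespace Pool.Agent.R4P

open Finset H38Pav

variable {n : ℕ}

theorem mem_cap_sub (M : Matroid (Fin n)) {P : Set (Fin n)} {p : Fin n} (h : p ∈ cap M P) : p ∈ P := by
  classical
  simp only [cap, Finset.mem_filter] at h
  exact h.2.1

/-- a plane is the closure of three independent points in it -/
theorem plane_eq_closure (M : Matroid (Fin n)) {P : Set (Fin n)} (hP : IsPlane M P) {a b c : Fin n}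
    (hab : a < b) (hbc : b < c) (ha : a ∈ P) (hb : b ∈ P) (hc : c ∈ P) (hI : M.Indep {a, b, c}) :
    M.closure {a, b, c} = P := by
  have hsub : ({a, b, c} : Set (Fin n)) ⊆ P := by
    intro x hx
    rcases hx with rfl | rfl | rfl
    · exact ha
    · exact hb
    · exact hc
  have hcard : ({a, b, c} : Set (Fin n)).encard = 3 := by
    rw [Set.encard_insert_of_notMem, Set.encard_pair hbc.ne]
    · norm_num
    · rintro (h | h)
      · exact hab.ne h
      · exact (hab.trans hbc).ne h
  have hbas : M.IsBasis {a, b, c} P := by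
    refine hI.isBasis_of_eRk_ge (Set.toFinite _) hsub ?_ hP.1.subset_ground
    rw [hP.2, hI.eRk_eq_encard, hcard]
  rw [hbas.closure_eq_closure, hP.1.closure]

theorem card_lt_of_plane (M : Matroid (Fin n)) (hE : M.E = Set.univ) (hr : M.eRank = 4) {P : Set (Fin n)}
    (hP : IsPlane M P) : (cap M P).card < n := by
  by_contra h
  have h1 : (cap M P) = Finset.univ := by
    refine Finset.eq_univ_of_card _ ?_
    rw [Fintype.card_fin]
    have h2 := Finset.card_le_univ (cap M P)
    rw [Fintype.card_fin] at h2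
    omega
  have h3 : P = Set.univ := by
    refine Set.eq_univ_of_forall fun p => mem_cap_sub M ?_
    rw [h1]
    exact Finset.mem_univ p
  have h4 := hP.2
  rw [h3, ← hE, M.eRk_ground, hr] at h4
  norm_num at h4

/-- the caps of the planes form a family which does not cover the zero pairs -/
theorem capFam_mem (M : Matroid (Fin n)) (hE : M.E = Set.univ) (hr : M.eRank = 4) :
    capFam M ∈ AA (zeroPairs M) := by
  classical
  have hmem : ∀ H, H ∈ capFam M ↔ 4 ≤ H.card ∧ ∃ P, IsPlane M P ∧ cap M P = H := by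
    intro H
    unfold capFam
    simp
  have hfam : IsFam (capFam M) := by
    refine ⟨?_, ?_⟩
    · intro H hH
      obtain ⟨h4, P, hP, rfl⟩ := (hmem H).1 hH
      exact ⟨h4, card_lt_of_plane M hE hr hP⟩
    · intro H hH K hK hne
      obtain ⟨-, P, hP, rfl⟩ := (hmem H).1 hH
      obtain ⟨-, Q, hQ, rfl⟩ := (hmem K).1 hK
      by_contra hcon
      have h3 : 3 ≤ (cap M P ∩ cap M Q).card := by omega
      set s := cap M P ∩ cap M Q with hs
      have hm : ∀ i, s.orderEmbOfFin rfl i ∈ s := fun i => Finset.orderEmbOfFin_mem _ _ _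
      set a := s.orderEmbOfFin rfl ⟨0, by omega⟩ with ha
      set b := s.orderEmbOfFin rfl ⟨1, by omega⟩ with hb
      set c := s.orderEmbOfFin rfl ⟨2, by omega⟩ with hc
      have hab : a < b := (s.orderEmbOfFin rfl).strictMono (by simp [Fin.lt_def])
      have hbc : b < c := (s.orderEmbOfFin rfl).strictMono (by simp [Fin.lt_def])
      have ha' := Finset.mem_inter.1 (hm ⟨0, by omega⟩)
      have hb' := Finset.mem_inter.1 (hm ⟨1, by omega⟩)
      have hc' := Finset.mem_inter.1 (hm ⟨2, by omega⟩)
      have hI : M.Indep {a, b, c} := indep_of_cap M hE hP.1 hab hbc ha'.1 hb'.1 hc'.1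
      have e1 := plane_eq_closure M hP hab hbc (mem_cap_sub M ha'.1) (mem_cap_sub M hb'.1)
        (mem_cap_sub M hc'.1) hI
      have e2 := plane_eq_closure M hQ hab hbc (mem_cap_sub M ha'.2) (mem_cap_sub M hb'.2)
        (mem_cap_sub M hc'.2) hI
      exact hne (by rw [← e1, ← e2])
  unfold AA fams
  rw [Finset.mem_filter, Finset.mem_filter]
  refine ⟨⟨Finset.mem_univ _, hfam⟩, ?_⟩
  rintro e he ⟨H, hH, heH⟩
  obtain ⟨-, P, hP, rfl⟩ := (hmem H).1 hH
  unfold zeroPairs at he
  exact (Finset.mem_filter.1 he).2 P hP heH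

end Pool.Agent.R4P
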