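import Pool.Agent.R4P.RpJ

/-!
MP_039b14_co, rank four: the zero pairs.
-/

set_option autoImplicit false

namespace Pool.Agent.R4P

open Finset H38Pav

variable {n : ℕ}

theorem mem_zeroPairs_iff (M : Matroid (Fin n)) {e : Finset (Fin n)} :
    e ∈ zeroPairs M ↔ e ∈ prs n ∧ ∀ P, IsPlane M P → ¬ e ⊆ cap M P := by
  classical
  simp only [zeroPairs, Finset.mem_filter]

theorem pair_mem_prs {a b : Fin n} (h : a ≠ b) : ({a, b} : Finset (Fin n)) ∈ prs n := by
  unfold prs
  rw [Finset.mem_powersetCard]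
  exact ⟨Finset.subset_univ _, Finset.card_pair h⟩

theorem zero_of_dep_pair (M : Matroid (Fin n)) (hE : M.E = Set.univ) {a b : Fin n} (hab : a < b)
    (hd : ¬ M.Indep {a, b}) : ({a, b} : Finset (Fin n)) ∈ zeroPairs M := by
  rw [mem_zeroPairs_iff]
  refine ⟨pair_mem_prs hab.ne, fun P _ hsub => hd ?_⟩
  exact indep_pair_of_cap M hE hab (hsub (by simp)) (hsub (by simp))

/-- if two smaller points of the plane span `c` then `c` is not in the cap -/
theorem notMem_cap_of_span (M : Matroid (Fin n)) {P : Set (Fin n)} {a b c : Fin n}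
    (ha : a ∈ P) (hb : b ∈ P) (hac : a < c) (hbc : b < c) (hc : c ∈ M.closure {a, b}) : c ∉ cap M P := by
  rw [mem_cap_iff]
  rintro ⟨_, h⟩
  have h1 : a ∈ lc M {q | q ∈ P ∧ q < c} := subset_lc M _ ⟨ha, hac⟩
  have h2 : b ∈ lc M {q | q ∈ P ∧ q < c} := subset_lc M _ ⟨hb, hbc⟩
  exact h (closure_pair_subset_lc M _ h1 h2 hc)

theorem zero_of_dep_triple (M : Matroid (Fin n)) (hE : M.E = Set.univ) {a b c : Fin n}
    (hab : a < b) (hbc : b < c) (hd : ¬ M.Indep {a, b, c}) (hi : M.Indep {a, b}) :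
    ({a, c} : Finset (Fin n)) ∈ zeroPairs M ∧ ({b, c} : Finset (Fin n)) ∈ zeroPairs M := by
  have hac : a < c := hab.trans hbc
  have hmE : ∀ x : Fin n, x ∈ M.E := fun x => by rw [hE]; exact Set.mem_univ x
  -- c is spanned by a and b
  have hc : c ∈ M.closure {a, b} := by
    by_contra h
    have h1 := ((hi.notMem_closure_iff (hmE c)).1 h).1
    have h2 : (insert c {a, b} : Set (Fin n)) = {a, b, c} := by
      ext x; simp only [Set.mem_insert_iff, Set.mem_singleton_iff]; tauto
    exact hd (h2 ▸ h1)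
  have hplane : ∀ {P : Set (Fin n)}, IsPlane M P → ∀ {x y : Fin n}, x ∈ P → y ∈ P → M.closure {x, y} ⊆ P := by
    intro P hP x y hx hy
    have hsub : ({x, y} : Set (Fin n)) ⊆ P := by
      intro z hz
      rcases hz with rfl | rfl
      · exact hx
      · exact hy
    exact (M.closure_subset_closure hsub).trans_eq hP.1.closure
  constructor
  · rw [mem_zeroPairs_iff]
    refine ⟨pair_mem_prs hac.ne, fun P hP hsub => ?_⟩
    have ha' : a ∈ cap M P := hsub (by simp)
    have hc' : c ∈ cap M P := hsub (by simp)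
    have hI := indep_pair_of_cap M hE hac ha' hc'
    have haP := ((mem_cap_iff M).1 ha').1
    have hcP := ((mem_cap_iff M).1 hc').1
    have hbcl : b ∈ M.closure {a, c} := by
      by_contra h
      have h1 := ((hI.notMem_closure_iff (hmE b)).1 h).1
      have h2 : (insert b {a, c} : Set (Fin n)) = {a, b, c} := by
        ext x; simp only [Set.mem_insert_iff, Set.mem_singleton_iff]; tauto
      exact hd (h2 ▸ h1)
    have hbP : b ∈ P := hplane hP haP hcP hbcl
    exact notMem_cap_of_span M haP hbP hac hbc hc hc'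
  · rw [mem_zeroPairs_iff]
    refine ⟨pair_mem_prs hbc.ne, fun P hP hsub => ?_⟩
    have hb' : b ∈ cap M P := hsub (by simp)
    have hc' : c ∈ cap M P := hsub (by simp)
    have hI := indep_pair_of_cap M hE hbc hb' hc'
    have hbP := ((mem_cap_iff M).1 hb').1
    have hcP := ((mem_cap_iff M).1 hc').1
    have hacl : a ∈ M.closure {b, c} := by
      by_contra h
      have h1 := ((hI.notMem_closure_iff (hmE a)).1 h).1
      exact hd h1
    have haP : a ∈ P := hplane hP hbP hcP hacl
    exact notMem_cap_of_span M haP hbP hac hbc hc hc'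

theorem exists_sorted {s : Finset (Fin n)} (hs : s.card = 3) :
    ∃ a b c : Fin n, a < b ∧ b < c ∧ s = {a, b, c} := by
  classical
  obtain ⟨x, y, z, hxy, hxz, hyz, rfl⟩ := Finset.card_eq_three.1 hs
  rcases lt_or_gt_of_ne hxy with h1 | h1 <;> rcases lt_or_gt_of_ne hxz with h2 | h2 <;>
    rcases lt_or_gt_of_ne hyz with h3 | h3
  · exact ⟨x, y, z, h1, h3, rfl⟩
  · exact ⟨x, z, y, h2, h3, by ext w; simp only [Finset.mem_insert, Finset.mem_singleton]; tauto⟩
  · exact absurd (h1.trans h3) (not_lt.2 h2.le)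
  · exact ⟨z, x, y, h2, h1, by ext w; simp only [Finset.mem_insert, Finset.mem_singleton]; tauto⟩
  · exact ⟨y, x, z, h1, h2, by ext w; simp only [Finset.mem_insert, Finset.mem_singleton]; tauto⟩
  · exact absurd (h1.trans h2) (not_lt.2 h3.le)
  · exact ⟨y, z, x, h3, h2, by ext w; simp only [Finset.mem_insert, Finset.mem_singleton]; tauto⟩
  · exact ⟨z, y, x, h3, h1, by ext w; simp only [Finset.mem_insert, Finset.mem_singleton]; tauto⟩

theorem zeroPairs_nonempty (M : Matroid (Fin n)) (hE : M.E = Set.univ) (hr : M.eRank = 4)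
    (hM : ¬ Paving M) : (zeroPairs M).Nonempty := by
  classical
  unfold Paving at hM
  push Not at hM
  obtain ⟨C, hC, hlt⟩ := hM
  rw [hr] at hlt
  have hdep : ¬ M.Indep C := hC.not_indep
  obtain ⟨s, rfl⟩ : ∃ s : Finset (Fin n), (s : Set (Fin n)) = C := ⟨C.toFinset, by simp⟩
  rw [Set.encard_coe_eq_coe_finsetCard] at hlt
  have hcard : s.card < 4 := by exact_mod_cast hlt
  have hn : 4 ≤ n := by
    obtain ⟨B, hB⟩ := M.exists_isBase
    obtain ⟨t, rfl⟩ : ∃ t : Finset (Fin n), (t : Set (Fin n)) = B := ⟨B.toFinset, by simp⟩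
    have h1 := hB.encard_eq_eRank
    rw [hr, Set.encard_coe_eq_coe_finsetCard] at h1
    have h2 : t.card = 4 := by exact_mod_cast h1
    have h3 := Finset.card_le_univ t
    rw [Fintype.card_fin] at h3
    omega
  have hpair : ∀ x y : Fin n, x ≠ y → ¬ M.Indep {x, y} → (zeroPairs M).Nonempty := by
    intro x y hxy hd
    rcases lt_or_gt_of_ne hxy with h | h
    · exact ⟨_, zero_of_dep_pair M hE h hd⟩
    · exact ⟨_, zero_of_dep_pair M hE h (by rw [Set.pair_comm]; exact hd)⟩
  interval_cases hs : s.card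
  · rw [Finset.card_eq_zero] at hs
    subst hs
    exact absurd (by simp) hdep
  · obtain ⟨z, rfl⟩ := Finset.card_eq_one.1 hs
    obtain ⟨w, hw⟩ : ∃ w : Fin n, w ≠ z := by
      have : Nontrivial (Fin n) := Fin.nontrivial_iff_two_le.2 (by omega)
      exact exists_ne z
    refine hpair w z hw fun h => hdep ?_
    refine h.subset ?_
    simp
  · obtain ⟨x, y, hxy, rfl⟩ := Finset.card_eq_two.1 hs
    refine hpair x y hxy ?_
    simpa using hdep
  · obtain ⟨a, b, c, hab, hbc, rfl⟩ := exists_sorted hs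
    by_cases hi : M.Indep {a, b}
    · exact ⟨_, (zero_of_dep_triple M hE hab hbc (by simpa using hdep) hi).1⟩
    · exact hpair a b hab.ne hi

end Pool.Agent.R4P
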