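import Pool.Agent.R4P.RpJ

/-!
The bases of a matroid of rank four are determined by the caps of its planes and by its independent
sets with at most three elements.
-/

set_option autoImplicit false

namespace Pool.Agent.R4P

open Finset H38Pav

variable {n : ℕ}

theorem mem_capFam_M {M : Matroid (Fin n)} {H : Finset (Fin n)} :
    H ∈ capFam M ↔ 4 ≤ H.card ∧ ∃ P, IsPlane M P ∧ cap M P = H := by
  classical
  simp [capFam]

theorem base_iff (M : Matroid (Fin n)) (hE : M.E = Set.univ) (hr : M.eRank = 4)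
    {X : Finset (Fin n)} (hX : X.card = 4) :
    M.IsBase X ↔ ¬ ((∃ H ∈ capFam M, (X : Set (Fin n)) ⊆ lc M H) ∨
      ∃ T : Finset (Fin n), T.card ≤ 3 ∧ (X : Set (Fin n)) ⊆ lc M T) := by
  have hXe : (X : Set (Fin n)).encard = 4 := by
    rw [Set.encard_coe_eq_coe_finsetCard, hX]; rfl
  constructor
  · intro hB
    have hrk : M.eRk X = 4 := by rw [hB.indep.eRk_eq_encard, hXe]
    rintro (⟨H, hH, hXH⟩ | ⟨T, hT, hXT⟩)
    · obtain ⟨-, P, hP, rfl⟩ := mem_capFam_M.1 hH
      rw [lc_cap M hP.1] at hXH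
      have h1 := M.eRk_mono hXH
      rw [hP.2, hrk] at h1
      exact absurd h1 (by decide)
    · have h1 : (X : Set (Fin n)) ⊆ M.closure T :=
        hXT.trans (lc_subset_of_flat M (M.isFlat_closure _)
          (M.subset_closure _ (by rw [hE]; exact Set.subset_univ _)))
      have h2 := M.eRk_mono h1
      rw [M.eRk_closure_eq, hrk] at h2
      have h3 := h2.trans (M.eRk_le_encard _)
      rw [Set.encard_coe_eq_coe_finsetCard] at h3
      have h4 : (4 : ℕ∞) ≤ ((3 : ℕ) : ℕ∞) := h3.trans (by exact_mod_cast hT)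
      exact absurd h4 (by decide)
  · intro hnot
    by_contra hB
    apply hnot
    obtain ⟨I, hI⟩ := M.exists_isBasis X (by rw [hE]; exact Set.subset_univ _)
    obtain ⟨B, hBB, hIB⟩ := hI.indep.exists_isBase_superset
    have hBe : B.encard = 4 := by rw [hBB.encard_eq_eRank, hr]
    have hI3 : I.encard ≤ 3 := by
      by_contra hcon
      have h1 : (4 : ℕ∞) ≤ I.encard := by
        have := Order.add_one_le_of_lt (not_le.1 hcon)
        have e : (3 : ℕ∞) + 1 = 4 := by norm_num
        rwa [e] at this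
      have hfI : I.Finite := Set.toFinite _
      have h2 : I = X := Set.Finite.eq_of_subset_of_encard_le hfI hI.subset (by rw [hXe]; exact h1)
      have h3 : I = B := Set.Finite.eq_of_subset_of_encard_le hfI hIB (by rw [hBe]; exact h1)
      apply hB
      rw [← h2, h3]
      exact hBB
    obtain ⟨J, hIJ, hJB, hJ3⟩ := Set.exists_superset_subset_encard_eq hIB hI3
      (by rw [hBe]; decide : (3 : ℕ∞) ≤ B.encard)
    have hJi : M.Indep J := hBB.indep.subset hJB
    have hP : IsPlane M (M.closure J) :=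
      ⟨M.isFlat_closure _, by rw [M.eRk_closure_eq, hJi.eRk_eq_encard, hJ3]⟩
    have hXP : (X : Set (Fin n)) ⊆ lc M (cap M (M.closure J)) := by
      rw [lc_cap M hP.1]
      exact hI.subset_closure.trans (M.closure_subset_closure hIJ)
    by_cases h4 : 4 ≤ (cap M (M.closure J)).card
    · exact Or.inl ⟨_, mem_capFam_M.2 ⟨h4, _, hP, rfl⟩, hXP⟩
    · exact Or.inr ⟨_, by omega, hXP⟩

theorem closure_le_M (M N : Matroid (Fin n)) (hM : M.E = Set.univ) (hN : N.E = Set.univ)
    (h : ∀ X : Finset (Fin n), X.card ≤ 3 → (M.Indep X ↔ N.Indep X)) (X : Set (Fin n))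
    (hX : X.encard ≤ 2) : M.closure X ⊆ N.closure X := by
  have h' : ∀ Y : Set (Fin n), Y.encard ≤ 3 → (M.Indep Y ↔ N.Indep Y) := by
    intro Y hY
    obtain ⟨Z, rfl⟩ : ∃ Z : Finset (Fin n), (Z : Set (Fin n)) = Y :=
      ⟨(Set.toFinite Y).toFinset, (Set.toFinite Y).coe_toFinset⟩
    rw [Set.encard_coe_eq_coe_finsetCard] at hY
    exact h Z (by exact_mod_cast hY)
  obtain ⟨I, hI⟩ := N.exists_isBasis X (by rw [hN]; exact Set.subset_univ _)
  have hI2 : I.encard ≤ 2 := (Set.encard_le_encard hI.subset).trans hX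
  have hins : ∀ c, (insert c I).encard ≤ 3 := by
    intro c
    refine (Set.encard_insert_le _ _).trans ?_
    have : I.encard + 1 ≤ 2 + 1 := add_le_add_left hI2 1
    refine this.trans (le_of_eq (by norm_num))
  have hIM : M.Indep I := (h' I (hI2.trans (by decide))).2 hI.indep
  have hbM : M.IsBasis I X := by
    refine hIM.isBasis_of_forall_insert hI.subset (fun e he => ?_)
    refine ⟨fun hcon => ?_, by rw [hM]; exact Set.subset_univ _⟩
    exact (hI.insert_dep he).not_indep ((h' _ (hins e)).1 hcon)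
  intro c hc
  rw [← hbM.closure_eq_closure, hIM.mem_closure_iff] at hc
  rw [← hI.closure_eq_closure, hI.indep.mem_closure_iff]
  rcases hc with hc | hc
  · left
    refine ⟨fun hcon => hc.not_indep ((h' _ (hins c)).2 hcon), by rw [hN]; exact Set.subset_univ _⟩
  · exact Or.inr hc

theorem lc_congr (M N : Matroid (Fin n)) (hM : M.E = Set.univ) (hN : N.E = Set.univ)
    (h : ∀ X : Finset (Fin n), X.card ≤ 3 → (M.Indep X ↔ N.Indep X)) (X : Set (Fin n)) :
    lc M X = lc N X := by
  have key : ∀ Y : Set (Fin n), Y.encard ≤ 2 → M.closure Y = N.closure Y := fun Y hY =>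
    (closure_le_M M N hM hN h Y hY).antisymm (closure_le_M N M hN hM (fun Z hZ => (h Z hZ).symm) Y hY)
  have h0 : M.closure ∅ = N.closure ∅ := key ∅ (by simp)
  have h2 : ∀ a b : Fin n, M.closure {a, b} = N.closure {a, b} := fun a b =>
    key _ ((Set.encard_insert_le _ _).trans (by rw [Set.encard_singleton]; norm_num))
  unfold lc
  simp only [h0, h2]

theorem recover (M N : Matroid (Fin n)) (hM : M.E = Set.univ) (hN : N.E = Set.univ)
    (hM4 : M.eRank = 4) (hN4 : N.eRank = 4) (hc : capFam M = capFam N)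
    (h : ∀ X : Finset (Fin n), X.card ≤ 3 → (M.Indep X ↔ N.Indep X)) : M = N := by
  refine Matroid.ext_isBase (by rw [hM, hN]) (fun B _ => ?_)
  obtain ⟨X, rfl⟩ : ∃ X : Finset (Fin n), (X : Set (Fin n)) = B :=
    ⟨(Set.toFinite B).toFinset, (Set.toFinite B).coe_toFinset⟩
  by_cases hX : X.card = 4
  · rw [base_iff M hM hM4 hX, base_iff N hN hN4 hX, hc]
    simp only [lc_congr M N hM hN h]
  · have hne : ∀ K : Matroid (Fin n), K.eRank = 4 → ¬ K.IsBase (X : Set (Fin n)) := by
      intro K hK hB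
      have h1 := hB.encard_eq_eRank
      rw [hK, Set.encard_coe_eq_coe_finsetCard] at h1
      exact hX (by exact_mod_cast h1)
    exact iff_of_false (hne M hM4) (hne N hN4)

end Pool.Agent.R4P
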