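import Pool.Agent.R4P.Defs
import Pool.Agent.R4P.RpL

/-!
MP_039b14_co, rank four, module RpN: the independent sets with at most three elements are
determined by the zero pairs and their labels.
-/

set_option autoImplicit false

namespace Pool.Agent.R4P

open Finset H38Pav

variable {n : ℕ}

open Classical in
/-- an independent pair in the line of the independent pair `e` -/
noncomputable def lab (M : Matroid (Fin n)) (e : Finset (Fin n)) : Option (Fin n × Fin n) :=
  if M.Indep e then
    (if h : ∃ p : Fin n × Fin n, p.1 ∈ M.closure e ∧ p.2 ∈ M.closure e ∧ p.1 ≠ p.2 ∧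
      M.Indep {p.1, p.2} then some h.choose else none)
  else none

/-- an independent set in the closure of another one with at most as many elements has the same
closure -/
theorem rpn_closure_eq (M : Matroid (Fin n)) {I J : Set (Fin n)} (hI : M.Indep I)
    (hJ : M.Indep J) (hJI : J ⊆ M.closure I) (hc : I.encard ≤ J.encard) :
    M.closure J = M.closure I := by
  have h1 : M.eRk (M.closure I) ≤ M.eRk J := by
    rw [M.eRk_closure_eq, hI.eRk_eq_encard, hJ.eRk_eq_encard]
    exact hc
  have h2 := hJ.isBasis_of_eRk_ge (Set.toFinite J) hJI h1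
  rw [h2.closure_eq_closure, M.closure_closure]

theorem rpn_mem (M : Matroid (Fin n)) (hE : M.E = Set.univ) {X : Set (Fin n)} {a : Fin n}
    (ha : a ∈ X) : a ∈ M.closure X :=
  M.mem_closure_of_mem ha (by rw [hE]; exact Set.subset_univ _)

theorem lab_of_not (M : Matroid (Fin n)) {e : Finset (Fin n)} (h : ¬ M.Indep e) :
    lab M e = none := by
  unfold lab
  rw [if_neg h]

/-- an independent pair has a label -/
theorem lab_of_indep (M : Matroid (Fin n)) (hE : M.E = Set.univ) {e : Finset (Fin n)}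
    (he : e.card = 2) (h : M.Indep e) : ∃ p : Fin n × Fin n, lab M e = some p ∧
      p.1 ∈ M.closure e ∧ p.2 ∈ M.closure e ∧ p.1 ≠ p.2 ∧ M.Indep {p.1, p.2} := by
  obtain ⟨a, b, hab, rfl⟩ := Finset.card_eq_two.1 he
  have h1 : ∃ p : Fin n × Fin n, p.1 ∈ M.closure (({a, b} : Finset (Fin n)) : Set (Fin n)) ∧
      p.2 ∈ M.closure (({a, b} : Finset (Fin n)) : Set (Fin n)) ∧ p.1 ≠ p.2 ∧
      M.Indep {p.1, p.2} := by
    refine ⟨(a, b), rpn_mem M hE (by simp), rpn_mem M hE (by simp), hab, ?_⟩
    rwa [Finset.coe_pair] at h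
  refine ⟨h1.choose, ?_, h1.choose_spec⟩
  unfold lab
  rw [if_pos h, dif_pos h1]

/-- the label only depends on the line -/
theorem lab_congr (M : Matroid (Fin n)) {e e' : Finset (Fin n)} (h : M.Indep e)
    (h' : M.Indep e') (hc : M.closure (e : Set (Fin n)) = M.closure (e' : Set (Fin n))) :
    lab M e = lab M e' := by
  unfold lab
  rw [if_pos h, if_pos h']
  generalize M.closure (e : Set (Fin n)) = S at hc ⊢
  subst hc
  rfl

theorem rpn_pair (M N : Matroid (Fin n)) (hM : M.E = Set.univ) (hN : N.E = Set.univ)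
    (hz : zeroPairs M = zeroPairs N) (hl : ∀ e ∈ zeroPairs M, lab M e = lab N e)
    (X : Finset (Fin n)) (hX : X.card = 2) (h : M.Indep X) : N.Indep X := by
  by_contra hcon
  have hX' := hX
  obtain ⟨a, b, hab, rfl⟩ := Finset.card_eq_two.1 hX
  have hmem : ({a, b} : Finset (Fin n)) ∈ zeroPairs M := by
    rw [hz]
    rcases lt_or_gt_of_ne hab with h1 | h1
    · exact zero_of_dep_pair N hN h1 (by rwa [Finset.coe_pair] at hcon)
    · rw [Finset.pair_comm] at hcon ⊢
      exact zero_of_dep_pair N hN h1 (by rwa [Finset.coe_pair] at hcon)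
  have h2 := hl _ hmem
  rw [lab_of_not N hcon] at h2
  obtain ⟨p, hp, -⟩ := lab_of_indep M hM hX' h
  rw [hp] at h2
  exact absurd h2 (by simp)

theorem rpn_single (M N : Matroid (Fin n)) (hM : M.E = Set.univ) (hN : N.E = Set.univ)
    (hM4 : M.eRank = 4) (hz : zeroPairs M = zeroPairs N)
    (hl : ∀ e ∈ zeroPairs M, lab M e = lab N e) (z : Fin n) (h : M.Indep {z}) :
    N.Indep {z} := by
  obtain ⟨B, hB, hzB⟩ := h.exists_isBase_superset
  obtain ⟨w, hw, hwz⟩ : ∃ w ∈ B, w ≠ z := by
    by_contra hcon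
    push Not at hcon
    have h1 : B ⊆ {z} := fun w hw => hcon w hw
    have h2 := Set.encard_le_encard h1
    rw [hB.encard_eq_eRank, hM4, Set.encard_singleton] at h2
    exact absurd h2 (by decide)
  have h3 : M.Indep (({z, w} : Finset (Fin n)) : Set (Fin n)) := by
    refine hB.indep.subset ?_
    rw [Finset.coe_pair]
    rintro x (rfl | rfl)
    · exact hzB rfl
    · exact hw
  have h4 := rpn_pair M N hM hN hz hl _ (Finset.card_pair hwz.symm) h3
  exact h4.subset (by simp)

theorem rpn_sorted {X : Finset (Fin n)} (hX : X.card = 3) :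
    ∃ a b c : Fin n, a < b ∧ b < c ∧ X = {a, b, c} := by
  let φ := X.orderEmbOfFin hX
  have h01 : φ 0 < φ 1 := φ.strictMono (by decide)
  have h12 : φ 1 < φ 2 := φ.strictMono (by decide)
  refine ⟨φ 0, φ 1, φ 2, h01, h12, ?_⟩
  symm
  apply Finset.eq_of_subset_of_card_le
  · intro x hx
    simp only [Finset.mem_insert, Finset.mem_singleton] at hx
    rcases hx with rfl | rfl | rfl
    · exact X.orderEmbOfFin_mem hX 0
    · exact X.orderEmbOfFin_mem hX 1
    · exact X.orderEmbOfFin_mem hX 2
  · rw [hX, Finset.card_eq_three.2 ⟨φ 0, φ 1, φ 2, h01.ne, (h01.trans h12).ne, h12.ne, rfl⟩]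

theorem rpn_triple (M N : Matroid (Fin n)) (hM : M.E = Set.univ) (hN : N.E = Set.univ)
    (hz : zeroPairs M = zeroPairs N) (hl : ∀ e ∈ zeroPairs M, lab M e = lab N e)
    (X : Finset (Fin n)) (hX : X.card = 3) (h : N.Indep X) : M.Indep X := by
  by_contra hcon
  obtain ⟨a, b, c, hab, hbc, rfl⟩ := rpn_sorted hX
  have hac := hab.trans hbc
  have hz' : zeroPairs N = zeroPairs M := hz.symm
  have hl' : ∀ e ∈ zeroPairs N, lab N e = lab M e := fun e he => (hl e (hz ▸ he)).symm
  have cX : ((({a, b, c} : Finset (Fin n))) : Set (Fin n)) = {a, b, c} := by simp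
  rw [cX] at h hcon
  have sub : ∀ x y : Fin n, x ∈ ({a, b, c} : Set (Fin n)) → y ∈ ({a, b, c} : Set (Fin n)) →
      (({x, y} : Finset (Fin n)) : Set (Fin n)) ⊆ {a, b, c} := by
    intro x y hx hy z hz
    rw [Finset.coe_pair] at hz
    rcases hz with rfl | rfl
    · exact hx
    · exact hy
  have Nab : N.Indep (({a, b} : Finset (Fin n)) : Set (Fin n)) :=
    h.subset (sub a b (by simp) (by simp))
  have Nac : N.Indep (({a, c} : Finset (Fin n)) : Set (Fin n)) :=
    h.subset (sub a c (by simp) (by simp))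
  have Nbc : N.Indep (({b, c} : Finset (Fin n)) : Set (Fin n)) :=
    h.subset (sub b c (by simp) (by simp))
  have Mab := rpn_pair N M hN hM hz' hl' _ (Finset.card_pair hab.ne) Nab
  have Mac := rpn_pair N M hN hM hz' hl' _ (Finset.card_pair hac.ne) Nac
  have Mbc := rpn_pair N M hN hM hz' hl' _ (Finset.card_pair hbc.ne) Nbc
  obtain ⟨zac, zbc⟩ := zero_of_dep_triple M hM hab hbc hcon (by rwa [Finset.coe_pair] at Mab)
  -- the closures in `M`
  have hencard : ∀ x y : Fin n, x ≠ y →
      ((({x, y} : Finset (Fin n)) : Set (Fin n))).encard = 2 := by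
    intro x y hxy
    rw [Set.encard_coe_eq_coe_finsetCard, Finset.card_pair hxy]
    rfl
  have hbin : b ∈ M.closure (({a, c} : Finset (Fin n)) : Set (Fin n)) := by
    by_contra hb
    rw [Mac.notMem_closure_iff (by rw [hM]; trivial)] at hb
    apply hcon
    have h1 : ({a, b, c} : Set (Fin n)) = insert b (({a, c} : Finset (Fin n)) : Set (Fin n)) := by
      rw [Finset.coe_pair, Set.insert_comm]
    rw [h1]
    exact hb.1
  have hcl : M.closure (({b, c} : Finset (Fin n)) : Set (Fin n)) =
      M.closure (({a, c} : Finset (Fin n)) : Set (Fin n)) := by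
    refine rpn_closure_eq M Mac Mbc ?_ ?_
    · intro x hx
      rw [Finset.coe_pair] at hx
      rcases hx with rfl | rfl
      · exact hbin
      · exact rpn_mem M hM (by simp)
    · rw [hencard _ _ hac.ne, hencard _ _ hbc.ne]
  have hlab := lab_congr M Mbc Mac hcl
  rw [hl _ zbc, hl _ zac] at hlab
  -- in `N`
  obtain ⟨p, hp, p1, p2, pne, pI⟩ := lab_of_indep N hN (Finset.card_pair hac.ne) Nac
  obtain ⟨q, hq, q1, q2, -, -⟩ := lab_of_indep N hN (Finset.card_pair hbc.ne) Nbc
  have hpq : q = p := by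
    rw [hp, hq] at hlab
    exact Option.some.inj hlab
  subst hpq
  have henp : ({q.1, q.2} : Set (Fin n)).encard = 2 := Set.encard_pair pne
  have e1 : N.closure {q.1, q.2} = N.closure (({a, c} : Finset (Fin n)) : Set (Fin n)) := by
    refine rpn_closure_eq N Nac pI ?_ ?_
    · rintro x (rfl | rfl)
      · exact p1
      · exact p2
    · rw [hencard _ _ hac.ne, henp]
  have e2 : N.closure {q.1, q.2} = N.closure (({b, c} : Finset (Fin n)) : Set (Fin n)) := by
    refine rpn_closure_eq N Nbc pI ?_ ?_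
    · rintro x (rfl | rfl)
      · exact q1
      · exact q2
    · rw [hencard _ _ hbc.ne, henp]
  have hb : b ∈ N.closure (({a, c} : Finset (Fin n)) : Set (Fin n)) := by
    rw [← e1, e2]
    exact rpn_mem N hN (by simp)
  have hnb : b ∉ (({a, c} : Finset (Fin n)) : Set (Fin n)) := by
    rw [Finset.coe_pair]
    rintro (h1 | h1)
    · exact hab.ne h1.symm
    · exact hbc.ne h1
  have h1 : ({a, b, c} : Set (Fin n)) = insert b (({a, c} : Finset (Fin n)) : Set (Fin n)) := by
    rw [Finset.coe_pair, Set.insert_comm]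
  rw [h1] at h
  rw [Nac.mem_closure_iff_of_notMem hnb] at hb
  exact hb.not_indep h

theorem indep_of_codes (M N : Matroid (Fin n)) (hM : M.E = Set.univ) (hN : N.E = Set.univ)
    (hM4 : M.eRank = 4) (hN4 : N.eRank = 4) (hz : zeroPairs M = zeroPairs N)
    (hl : ∀ e ∈ zeroPairs M, lab M e = lab N e) (X : Finset (Fin n)) (hX : X.card ≤ 3) :
    M.Indep X ↔ N.Indep X := by
  have hz' : zeroPairs N = zeroPairs M := hz.symm
  have hl' : ∀ e ∈ zeroPairs N, lab N e = lab M e := fun e he => (hl e (hz ▸ he)).symm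
  have hcases : X.card = 0 ∨ X.card = 1 ∨ X.card = 2 ∨ X.card = 3 := by omega
  rcases hcases with h | h | h | h
  · rw [Finset.card_eq_zero] at h
    subst h
    simp
  · obtain ⟨z, rfl⟩ := Finset.card_eq_one.1 h
    rw [Finset.coe_singleton]
    exact ⟨rpn_single M N hM hN hM4 hz hl z, rpn_single N M hN hM hN4 hz' hl' z⟩
  · exact ⟨rpn_pair M N hM hN hz hl X h, rpn_pair N M hN hM hz' hl' X h⟩
  · exact ⟨rpn_triple N M hN hM hz' hl' X h, rpn_triple M N hM hN hz hl X h⟩

end Pool.Agent.R4P
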