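import Pool.Agent.R4P.RpL

/-!
MP_039b14_co, rank four: many zero pairs in matroids with a loop or with two coloops.
-/

set_option autoImplicit false

namespace Pool.Agent.R4P

open Finset H38Pav

variable {n : ℕ}

/-- a dependent pair of different elements is a zero pair -/
private theorem zero_of_dep_ne (M : Matroid (Fin n)) (hE : M.E = Set.univ) {x y : Fin n}
    (hxy : x ≠ y) (hd : ¬ M.Indep {x, y}) : ({x, y} : Finset (Fin n)) ∈ zeroPairs M := by
  rcases lt_or_gt_of_ne hxy with h | h
  · exact zero_of_dep_pair M hE h hd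
  · rw [Finset.pair_comm]
    exact zero_of_dep_pair M hE h (by rw [Set.pair_comm]; exact hd)

/-- counting pairs at one element -/
private theorem card_pairs_le (Z : Finset (Finset (Fin n))) (a : Fin n) (S : Finset (Fin n))
    (haS : a ∉ S) (h : ∀ w ∈ S, ({a, w} : Finset (Fin n)) ∈ Z) : S.card ≤ Z.card := by
  refine Finset.card_le_card_of_injOn (fun w => ({a, w} : Finset (Fin n))) h ?_
  intro w hw w' hw' hww
  have h1 : w ∈ ({a, w'} : Finset (Fin n)) := by
    have : w ∈ ({a, w} : Finset (Fin n)) := by simp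
    exact (show ({a, w} : Finset (Fin n)) = {a, w'} from hww) ▸ this
  rw [Finset.mem_insert, Finset.mem_singleton] at h1
  rcases h1 with h1 | h1
  · exact (haS (h1 ▸ hw)).elim
  · exact h1

theorem zero_loop (M : Matroid (Fin n)) (hE : M.E = Set.univ) {b : Fin n} (hb : ¬ M.Indep {b}) :
    n - 1 ≤ (zeroPairs M).card := by
  have h := card_pairs_le (zeroPairs M) b (univ.erase b) (by simp) (fun w hw => by
    refine zero_of_dep_ne M hE (Finset.ne_of_mem_erase hw).symm (fun hi => hb ?_)
    exact hi.subset (by simp))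
  rwa [Finset.card_erase_of_mem (Finset.mem_univ b), Finset.card_univ, Fintype.card_fin] at h

/-- all triples off `c₁, c₂` are dependent; a = the least element off c₁, c₂, a' the least one
independent from a; all `{a, w}` with `w` not `a'`, `c₁`, `c₂` are zero pairs -/
theorem zero_two_coloops (M : Matroid (Fin n)) (hE : M.E = Set.univ) (hr : M.eRank = 4)
    {c₁ c₂ : Fin n} (hne : c₁ ≠ c₂) (h1 : ∀ B, M.IsBase B → c₁ ∈ B)
    (h2 : ∀ B, M.IsBase B → c₂ ∈ B) : n - 4 ≤ (zeroPairs M).card := by
  classical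
  -- triples off the coloops are dependent
  have htri : ∀ x y z : Fin n, x ≠ y → x ≠ z → y ≠ z → (∀ w ∈ ({x, y, z} : Finset (Fin n)), w ≠ c₁ ∧ w ≠ c₂) →
      ¬ M.Indep {x, y, z} := by
    intro x y z hxy hxz hyz hoff hi
    obtain ⟨B, hB, hsub⟩ := hi.exists_isBase_superset
    have e1 := hB.encard_eq_eRank
    have hsub' : ((({x, y, z} : Finset (Fin n)) ∪ {c₁, c₂} : Finset (Fin n)) : Set (Fin n)) ⊆ B := by
      intro w hw
      rw [Finset.mem_coe, Finset.mem_union] at hw
      rcases hw with hw | hw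
      · refine hsub ?_
        simpa using hw
      · rw [Finset.mem_insert, Finset.mem_singleton] at hw
        rcases hw with rfl | rfl
        · exact h1 B hB
        · exact h2 B hB
    have hdisj : Disjoint ({x, y, z} : Finset (Fin n)) {c₁, c₂} := by
      rw [Finset.disjoint_left]
      intro w hw hw'
      rw [Finset.mem_insert, Finset.mem_singleton] at hw'
      rcases hw' with h | h
      · exact (hoff w hw).1 h
      · exact (hoff w hw).2 h
    have hc : (({x, y, z} : Finset (Fin n)) ∪ {c₁, c₂}).card = 5 := by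
      rw [Finset.card_union_of_disjoint hdisj, Finset.card_pair hne, Finset.card_eq_three.2 ⟨x, y, z, hxy, hxz, hyz, rfl⟩]
    have e2 := Set.encard_le_encard hsub'
    rw [Set.encard_coe_eq_coe_finsetCard, hc, e1, hr] at e2
    exact absurd e2 (by decide)
  rcases Nat.lt_or_ge n 5 with hn | hn
  · have : n - 4 = 0 := by omega
    rw [this]
    exact Nat.zero_le _
  -- the least element
  have hne0 : (univ \ ({c₁, c₂} : Finset (Fin n))).Nonempty := by
    rw [← Finset.card_pos]
    have := Finset.le_card_sdiff ({c₁, c₂} : Finset (Fin n)) univ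
    rw [Finset.card_pair hne, Finset.card_univ, Fintype.card_fin] at this
    omega
  obtain ⟨a, ha, hmin⟩ := Finset.exists_min_image _ (fun x => x) hne0
  have hac : a ≠ c₁ ∧ a ≠ c₂ := by simpa using ha
  have hlt : ∀ w, w ≠ a → w ≠ c₁ → w ≠ c₂ → a < w := fun w hw hw1 hw2 =>
    lt_of_le_of_ne (hmin w (by simp [hw1, hw2])) (Ne.symm hw)
  -- the second element
  obtain ⟨a', ha'⟩ : ∃ a' : Fin n, ∀ w, w ≠ a → w ≠ c₁ → w ≠ c₂ → w ≠ a' →
      ({a, w} : Finset (Fin n)) ∈ zeroPairs M := by
    by_cases hex : (univ.filter (fun w => w ≠ a ∧ w ≠ c₁ ∧ w ≠ c₂ ∧ M.Indep {a, w})).Nonempty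
    · obtain ⟨a', ha', hmin'⟩ := Finset.exists_min_image _ (fun x => x) hex
      rw [Finset.mem_filter] at ha'
      obtain ⟨_, b1, b2, b3, b4⟩ := ha'
      refine ⟨a', fun w hw hw1 hw2 hw3 => ?_⟩
      by_cases hi : M.Indep {a, w}
      · have hle := hmin' w (by rw [Finset.mem_filter]; exact ⟨Finset.mem_univ _, hw, hw1, hw2, hi⟩)
        have hlt' : a' < w := lt_of_le_of_ne hle (Ne.symm hw3)
        refine (zero_of_dep_triple M hE (hlt a' b1 b2 b3) hlt' ?_ b4).1
        refine htri a a' w (Ne.symm b1) (Ne.symm hw) (Ne.symm hw3) ?_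
        intro v hv
        simp only [Finset.mem_insert, Finset.mem_singleton] at hv
        rcases hv with rfl | rfl | rfl
        · exact hac
        · exact ⟨b2, b3⟩
        · exact ⟨hw1, hw2⟩
      · exact zero_of_dep_pair M hE (hlt w hw hw1 hw2) hi
    · refine ⟨a, fun w hw hw1 hw2 _ => ?_⟩
      refine zero_of_dep_pair M hE (hlt w hw hw1 hw2) fun hi => hex ⟨w, ?_⟩
      rw [Finset.mem_filter]
      exact ⟨Finset.mem_univ _, hw, hw1, hw2, hi⟩
  have h := card_pairs_le (zeroPairs M) a (univ \ ({a, c₁, c₂, a'} : Finset (Fin n))) (by simp) (fun w hw => by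
    simp only [Finset.mem_sdiff, Finset.mem_univ, true_and, Finset.mem_insert, Finset.mem_singleton, not_or] at hw
    exact ha' w hw.1 hw.2.1 hw.2.2.1 hw.2.2.2)
  refine le_trans ?_ h
  have h3 := Finset.le_card_sdiff ({a, c₁, c₂, a'} : Finset (Fin n)) univ
  rw [Finset.card_univ, Fintype.card_fin] at h3
  have h4 : ({a, c₁, c₂, a'} : Finset (Fin n)).card ≤ 4 := Finset.card_le_four
  omega

end Pool.Agent.R4P
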