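import Pool.Agent.R4P.RpR
import Pool.Agent.H83Pav.Aut

/-!
MP_039b14_co, rank four: the matroids of rank four which are fixed by a permutation.
-/

set_option autoImplicit false

namespace Pool.Agent.R4P

open Finset H38Pav H83Pav

variable {n : ℕ}

open Classical in
/-- some element of a set -/
noncomputable def pickT (S : Set (Fin n)) : Option (Fin n) :=
  if h : S.Nonempty then some h.some else none

theorem pickT_mem {S : Set (Fin n)} {p : Fin n} (h : pickT S = some p) : p ∈ S := by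
  unfold pickT at h
  split_ifs at h with h1
  rw [Option.some.injEq] at h
  rw [← h]
  exact h1.some_mem

theorem pickT_ne_none {S : Set (Fin n)} : pickT S ≠ none ↔ S.Nonempty := by
  unfold pickT
  split_ifs with h1
  · exact ⟨fun _ => h1, fun _ => by simp⟩
  · exact ⟨fun h => absurd rfl h, fun h => absurd h h1⟩

open Classical in
/-- the parallel class of `u` in the contraction of the independent set `D` -/
noncomputable def gg (M : Matroid (Fin n)) (D : Set (Fin n)) (u : Fin n) : Option (Fin n) :=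
  if M.Indep D then pickT (M.closure (insert u D) \ M.closure D) else none

theorem t_gg_ne_none {M : Matroid (Fin n)} (hE : M.E = Set.univ) {D : Set (Fin n)} (u : Fin n) :
    gg M D u ≠ none ↔ M.Indep D ∧ u ∉ M.closure D := by
  unfold gg
  split_ifs with h1
  · rw [pickT_ne_none]
    constructor
    · rintro ⟨p, hp⟩
      refine ⟨h1, fun hu => ?_⟩
      rw [Matroid.closure_insert_eq_of_mem_closure hu] at hp
      exact hp.2 hp.1
    · rintro ⟨_, hu⟩
      exact ⟨u, M.mem_closure_of_mem (Set.mem_insert _ _) (by rw [hE]; exact Set.subset_univ _),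
        hu⟩
  · exact ⟨fun h => absurd rfl h, fun h => absurd h.1 h1⟩

theorem t_indep_iff_gg {M : Matroid (Fin n)} (hE : M.E = Set.univ) {D : Set (Fin n)}
    {u v : Fin n} (huv : u ≠ v) (hu : u ∉ D) (hv : v ∉ D) :
    M.Indep (insert v (insert u D)) ↔
      gg M D u ≠ none ∧ gg M D v ≠ none ∧ gg M D u ≠ gg M D v := by
  have hsub : ∀ X : Set (Fin n), X ⊆ M.E := fun X => by rw [hE]; exact Set.subset_univ _
  rw [t_gg_ne_none hE, t_gg_ne_none hE]
  constructor
  · intro h
    have h1 : M.Indep (insert u D) := h.subset (Set.subset_insert _ _)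
    have h2 : M.Indep (insert v D) := h.subset (Set.insert_subset_insert (Set.subset_insert _ _))
    have h3 : M.Indep D := h1.subset (Set.subset_insert _ _)
    have hu1 : u ∉ M.closure D := ((h3.insert_indep_iff_of_notMem hu).mp h1).2
    have hv1 : v ∉ M.closure D := ((h3.insert_indep_iff_of_notMem hv).mp h2).2
    have hv2 : v ∉ M.closure (insert u D) := by
      refine ((h1.insert_indep_iff_of_notMem ?_).mp h).2
      rw [Set.mem_insert_iff, not_or]
      exact ⟨fun h => huv h.symm, hv⟩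
    refine ⟨⟨h3, hu1⟩, ⟨h3, hv1⟩, fun heq => ?_⟩
    have hne := (t_gg_ne_none hE (D := D) u).mpr ⟨h3, hu1⟩
    obtain ⟨p, hp⟩ := Option.ne_none_iff_exists'.mp hne
    have hp2 : gg M D v = some p := by rw [← heq, hp]
    unfold gg at hp hp2
    rw [if_pos h3] at hp hp2
    have e1 := Matroid.closure_insert_congr (pickT_mem hp)
    have e2 := Matroid.closure_insert_congr (pickT_mem hp2)
    apply hv2
    rw [← e1, e2]
    exact M.mem_closure_of_mem (Set.mem_insert _ _) (hsub _)
  · rintro ⟨⟨h3, hu1⟩, ⟨_, hv1⟩, hne⟩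
    have h1 : M.Indep (insert u D) :=
      (h3.insert_indep_iff_of_notMem hu).mpr ⟨by rw [hE]; exact Set.mem_univ _, hu1⟩
    have hv2 : v ∉ M.closure (insert u D) := by
      intro hmem
      apply hne
      have e1 := Matroid.closure_insert_congr ⟨hmem, hv1⟩
      unfold gg
      rw [if_pos h3, if_pos h3, e1]
    have hv3 : v ∉ insert u D := fun h => hv2 (M.mem_closure_of_mem h (hsub _))
    exact (h1.insert_indep_iff_of_notMem hv3).mpr ⟨by rw [hE]; exact Set.mem_univ _, hv2⟩

theorem t_isBase_iff_indep {M : Matroid (Fin n)} (hr : M.eRank = 4) {S : Set (Fin n)}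
    (hS : S.encard = 4) : M.IsBase S ↔ M.Indep S :=
  ⟨fun h => h.indep, fun h => h.isBase_of_eRk_ge S.toFinite
    (by rw [h.eRk_eq_encard, hS, hr])⟩

theorem t_eq_of_pair {B : Set (Fin n)} (h4 : B.encard = 4) {b c : Fin n} (hbc : b ≠ c)
    (hb : b ∈ B) (hc : c ∈ B) : ∃ u v : Fin n, u ≠ v ∧ u ∉ ({b, c} : Set (Fin n)) ∧
      v ∉ ({b, c} : Set (Fin n)) ∧ B = insert v (insert u {b, c}) := by
  have hsub : ({b, c} : Set (Fin n)) ⊆ B := by
    intro z hz
    rcases hz with hz | hz
    · rw [hz]; exact hb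
    · rw [Set.mem_singleton_iff.mp hz]; exact hc
  have h1 := Set.encard_sdiff_add_encard_of_subset hsub
  rw [Set.encard_pair hbc, h4] at h1
  have h2 : (B \ {b, c}).encard = 2 := by
    have hfin : (B \ {b, c}).encard ≠ ⊤ := Set.encard_ne_top_iff.mpr (Set.toFinite _)
    obtain ⟨m, hm⟩ := ENat.ne_top_iff_exists.mp hfin
    rw [← hm] at h1 ⊢
    have h3 : m + 2 = 4 := by exact_mod_cast h1
    have h4 : m = 2 := by omega
    rw [h4]
    rfl
  obtain ⟨u, v, huv, h3⟩ := Set.encard_eq_two.mp h2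
  have hu : u ∈ B \ {b, c} := by rw [h3]; simp
  have hv : v ∈ B \ {b, c} := by rw [h3]; simp
  refine ⟨u, v, huv, hu.2, hv.2, ?_⟩
  rw [← Set.sdiff_union_of_subset hsub, h3]
  ext z
  simp only [Set.mem_union, Set.mem_insert_iff, Set.mem_singleton_iff]
  tauto

/-- a fixed matroid is determined by the matroid in which `b` is made a loop and by the lines
through the pair of `b` and its image -/
theorem t_eq_of_codes {σ : Equiv.Perm (Fin n)} {b : Fin n} (hb : σ b ≠ b) {M N : Mat n}
    (hM : M.1.eRank = 4) (hN : N.1.eRank = 4) (hMf : act σ M = M) (hNf : act σ N = N)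
    (hl : lp M.1 b = lp N.1 b) (hg : gg M.1 {b, σ b} = gg N.1 {b, σ b}) : M = N := by
  have case1 : ∀ B : Set (Fin n), B.encard = 4 → b ∉ B → (M.1.IsBase B ↔ N.1.IsBase B) := by
    intro B h4 hbB
    rw [t_isBase_iff_indep hM h4, t_isBase_iff_indep hN h4]
    have h1 := lp_indep M.1 b B
    have h2 := lp_indep N.1 b B
    rw [hl] at h1
    constructor
    · intro h
      exact (h2.mp (h1.mpr ⟨h, hbB⟩)).1
    · intro h
      exact (h1.mp (h2.mpr ⟨h, hbB⟩)).1
  have case2 : ∀ B : Set (Fin n), B.encard = 4 → b ∈ B → σ b ∈ B →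
      (M.1.IsBase B ↔ N.1.IsBase B) := by
    intro B h4 hbB hcB
    rw [t_isBase_iff_indep hM h4, t_isBase_iff_indep hN h4]
    obtain ⟨u, v, huv, hu, hv, rfl⟩ := t_eq_of_pair h4 (Ne.symm hb) hbB hcB
    rw [t_indep_iff_gg M.2 huv hu hv, t_indep_iff_gg N.2 huv hu hv, hg]
  have hfix : ∀ K : Mat n, act σ K = K → ∀ B : Set (Fin n),
      (K.1.IsBase B ↔ K.1.IsBase (σ '' B)) := by
    intro K hK B
    have h := act_isBase σ K B
    rw [hK] at h
    exact h.symm
  apply Subtype.ext
  refine Matroid.ext_isBase (by rw [M.2, N.2]) (fun B _ => ?_)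
  by_cases h4 : B.encard = 4
  · by_cases hbB : b ∈ B
    · by_cases hcB : σ b ∈ B
      · exact case2 B h4 hbB hcB
      · rw [hfix M hMf B, hfix N hNf B]
        have h4' : (σ '' B).encard = 4 := by
          rw [Function.Injective.encard_image σ.injective, h4]
        by_cases hb2 : b ∈ σ '' B
        · exact case2 _ h4' hb2 (Set.mem_image_of_mem _ hbB)
        · exact case1 _ h4' hb2
    · exact case1 B h4 hbB
  · constructor
    · intro h
      exact absurd (by rw [h.encard_eq_eRank, hM]) h4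
    · intro h
      exact absurd (by rw [h.encard_eq_eRank, hN]) h4

theorem fix_le (σ : Equiv.Perm (Fin n)) (b : Fin n) (hb : σ b ≠ b) :
    Nat.card {M : Mat n // M.1.eRank = 4 ∧ act σ M = M ∧ ∃ B, M.1.IsBase B ∧ b ∉ B} ≤
      (n + 1) ^ n * Nat.card {M : Mat n // M.1.eRank = 4 ∧ ¬ M.1.Indep {b}} := by
  have hlp : ∀ M : {M : Mat n // M.1.eRank = 4 ∧ act σ M = M ∧ ∃ B, M.1.IsBase B ∧ b ∉ B},
      (lp M.1.1 b).eRank = 4 ∧ ¬ (lp M.1.1 b).Indep {b} := by
    rintro ⟨M, hr, _, B, hB, hbB⟩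
    refine ⟨lp_eRank M.1 hr hB hbB, fun h => ?_⟩
    exact ((lp_indep M.1 b {b}).mp h).2 (Set.mem_singleton b)
  have hinj : Function.Injective
      (fun M : {M : Mat n // M.1.eRank = 4 ∧ act σ M = M ∧ ∃ B, M.1.IsBase B ∧ b ∉ B} =>
        ((gg M.1.1 {b, σ b}, ⟨⟨lp M.1.1 b, lp_E M.1.1 b⟩, hlp M⟩) :
          (Fin n → Option (Fin n)) × {M : Mat n // M.1.eRank = 4 ∧ ¬ M.1.Indep {b}})) := by
    intro M N h
    obtain ⟨h1, h2⟩ := Prod.ext_iff.mp h
    have h3 : lp M.1.1 b = lp N.1.1 b := congrArg (fun K => K.1.1) h2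
    exact Subtype.ext (t_eq_of_codes hb M.2.1 N.2.1 M.2.2.1 N.2.2.1 h3 h1)
  have h := Nat.card_le_card_of_injective _ hinj
  rw [Nat.card_prod] at h
  have hc : Nat.card (Fin n → Option (Fin n)) = (n + 1) ^ n := by
    rw [Nat.card_eq_fintype_card, Fintype.card_fun, Fintype.card_option, Fintype.card_fin]
  rw [hc] at h
  exact h

end Pool.Agent.R4P
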