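import Pool.Agent.R4P.Defs
import Pool.Agent.R4P.RpO2
import Pool.Agent.R4P.RpI2
import Pool.Agent.R4P.RpS
import Pool.Agent.R4P.RpT
import Pool.Agent.H83Pav.Aut

/-!
Almost all matroids of rank four are asymmetric.
-/

set_option autoImplicit false

namespace Pool.Agent.R4P

open Finset H38Pav H83Pav

variable {n : ℕ}

namespace RpU

theorem card_mono {p q : Mat n → Prop} (h : ∀ M, p M → q M) :
    Nat.card {M : Mat n // p M} ≤ Nat.card {M : Mat n // q M} :=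
  Nat.card_le_card_of_injective (Subtype.map id h) (Subtype.map_injective h Function.injective_id)

theorem card_union3 {p q₁ q₂ q₃ : Mat n → Prop} (h : ∀ M, p M → q₁ M ∨ q₂ M ∨ q₃ M) :
    Nat.card {M : Mat n // p M} ≤ Nat.card {M : Mat n // q₁ M} + Nat.card {M : Mat n // q₂ M} +
      Nat.card {M : Mat n // q₃ M} := by
  classical
  have : Fintype (Mat n) := Fintype.ofFinite _
  simp only [Nat.card_eq_fintype_card, Fintype.card_subtype]
  have h1 : (univ.filter p : Finset (Mat n)) ⊆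
      (univ.filter q₁ ∪ univ.filter q₂) ∪ univ.filter q₃ := by
    intro M hM
    simp only [Finset.mem_filter, Finset.mem_univ, true_and, Finset.mem_union] at hM ⊢
    rcases h M hM with h | h | h
    · exact Or.inl (Or.inl h)
    · exact Or.inl (Or.inr h)
    · exact Or.inr h
  refine (Finset.card_le_card h1).trans ((Finset.card_union_le _ _).trans ?_)
  exact Nat.add_le_add_right (Finset.card_union_le _ _) _

/-- the numerical part -/
theorem numeric {A n F Z₁ Z₂ : ℕ} (hn : 8 ≤ n) (h1 : n ^ ((A + 10) * (n - 1)) * Z₁ ≤ F)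
    (h2 : n ^ ((A + 10) * (n - 4)) * Z₂ ≤ F) :
    n ^ A * (n ^ n * ((n + 1) ^ n * Z₁ + (n + 1) ^ n * Z₁ + Z₂)) ≤ F := by
  have e1 : 4 * (n ^ A * (n ^ n * (n + 1) ^ n)) ≤ n ^ ((A + 10) * (n - 1)) := by
    have a1 : (n + 1) ^ n ≤ n ^ (2 * n) := by
      rw [pow_mul]
      refine Nat.pow_le_pow_left ?_ n
      nlinarith
    have a2 : 4 ≤ n ^ 2 := by nlinarith
    calc 4 * (n ^ A * (n ^ n * (n + 1) ^ n)) ≤ n ^ 2 * (n ^ A * (n ^ n * n ^ (2 * n))) :=
          Nat.mul_le_mul a2 (Nat.mul_le_mul_left _ (Nat.mul_le_mul_left _ a1))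
      _ = n ^ (2 + (A + (n + 2 * n))) := by rw [← pow_add, ← pow_add, ← pow_add]
      _ ≤ n ^ ((A + 10) * (n - 1)) := by
          refine Nat.pow_le_pow_right (by omega) ?_
          obtain ⟨m, rfl⟩ : ∃ m, n = m + 8 := ⟨n - 8, by omega⟩
          have : m + 8 - 1 = m + 7 := by omega
          rw [this]
          nlinarith
  have e2 : 2 * (n ^ A * n ^ n) ≤ n ^ ((A + 10) * (n - 4)) := by
    calc 2 * (n ^ A * n ^ n) ≤ n ^ 1 * (n ^ A * n ^ n) :=
          Nat.mul_le_mul_right _ (by rw [pow_one]; omega)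
      _ = n ^ (1 + (A + n)) := by rw [← pow_add, ← pow_add]
      _ ≤ n ^ ((A + 10) * (n - 4)) := by
          refine Nat.pow_le_pow_right (by omega) ?_
          obtain ⟨m, rfl⟩ : ∃ m, n = m + 8 := ⟨n - 8, by omega⟩
          have : m + 8 - 4 = m + 4 := by omega
          rw [this]
          nlinarith
  have f1 : 4 * (n ^ A * (n ^ n * (n + 1) ^ n)) * Z₁ ≤ F :=
    (Nat.mul_le_mul_right _ e1).trans h1
  have f2 : 2 * (n ^ A * n ^ n) * Z₂ ≤ F := (Nat.mul_le_mul_right _ e2).trans h2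
  have f3 : 2 * (n ^ A * (n ^ n * ((n + 1) ^ n * Z₁ + (n + 1) ^ n * Z₁ + Z₂))) =
      4 * (n ^ A * (n ^ n * (n + 1) ^ n)) * Z₁ + 2 * (n ^ A * n ^ n) * Z₂ := by ring
  omega

end RpU

open RpU

/-- the statement from the statements of RpO2, RpI2, RpS, RpT -/
theorem asym_of
    (hcount : ∀ n k : ℕ, Nat.card {M : Mat n // M.1.eRank = 4 ∧ k ≤ (zeroPairs M.1).card} ≤
      ∑ P ∈ (prs n).powerset.filter (fun P => k ≤ P.card), (AA P).card * (n ^ 2 + 1) ^ P.card)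
    (hsum : ∀ A : ℕ, ∃ N : ℕ, ∀ n : ℕ, N ≤ n → ∀ k : ℕ, 1 ≤ k →
      n ^ (A * k) * ∑ P ∈ (prs n).powerset.filter (fun P => k ≤ P.card),
        (AA P).card * (n ^ 2 + 1) ^ P.card ≤ (fams n).card)
    (hloop : ∀ (n : ℕ) (M : Matroid (Fin n)), M.E = Set.univ → ∀ b : Fin n, ¬ M.Indep {b} →
      n - 1 ≤ (zeroPairs M).card)
    (hcol : ∀ (n : ℕ) (M : Matroid (Fin n)), M.E = Set.univ → M.eRank = 4 →
      ∀ c₁ c₂ : Fin n, c₁ ≠ c₂ → (∀ B, M.IsBase B → c₁ ∈ B) → (∀ B, M.IsBase B → c₂ ∈ B) →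
        n - 4 ≤ (zeroPairs M).card)
    (hfix : ∀ (n : ℕ) (σ : Equiv.Perm (Fin n)) (b : Fin n), σ b ≠ b →
      Nat.card {M : Mat n // M.1.eRank = 4 ∧ act σ M = M ∧ ∃ B, M.1.IsBase B ∧ b ∉ B} ≤
        (n + 1) ^ n * Nat.card {M : Mat n // M.1.eRank = 4 ∧ ¬ M.1.Indep {b}})
    (A : ℕ) : ∃ N : ℕ, ∀ n : ℕ, N ≤ n →
    n ^ A * ∑ σ ∈ (univ : Finset (Equiv.Perm (Fin n))).erase 1,
      Nat.card {M : Mat n // M.1.eRank = 4 ∧ act σ M = M} ≤ (fams n).card := by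
  obtain ⟨N, hN⟩ := hsum (A + 10)
  refine ⟨max N 8, fun n hn => ?_⟩
  have hnN : N ≤ n := (le_max_left _ _).trans hn
  have hn8 : 8 ≤ n := (le_max_right _ _).trans hn
  set Z : ℕ → ℕ := fun k => Nat.card {M : Mat n // M.1.eRank = 4 ∧ k ≤ (zeroPairs M.1).card}
    with hZ
  have hZk : ∀ k, 1 ≤ k → n ^ ((A + 10) * k) * Z k ≤ (fams n).card := fun k hk =>
    (Nat.mul_le_mul_left _ (hcount n k)).trans (hN n hnN k hk)
  -- one moved letter
  have hone : ∀ (σ : Equiv.Perm (Fin n)) (b : Fin n), σ b ≠ b →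
      Nat.card {M : Mat n // M.1.eRank = 4 ∧ act σ M = M ∧ ∃ B, M.1.IsBase B ∧ b ∉ B} ≤
        (n + 1) ^ n * Z (n - 1) := fun σ b hb =>
    (hfix n σ b hb).trans (Nat.mul_le_mul_left _ (card_mono fun M hM =>
      ⟨hM.1, hloop n M.1 M.2 b hM.2⟩))
  have hterm : ∀ σ ∈ (univ : Finset (Equiv.Perm (Fin n))).erase 1,
      Nat.card {M : Mat n // M.1.eRank = 4 ∧ act σ M = M} ≤
        (n + 1) ^ n * Z (n - 1) + (n + 1) ^ n * Z (n - 1) + Z (n - 4) := by
    intro σ hσ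
    have hσ1 : σ ≠ 1 := (Finset.mem_erase.1 hσ).1
    obtain ⟨b, hb⟩ : ∃ b, σ b ≠ b := by
      by_contra hcon
      push Not at hcon
      exact hσ1 (Equiv.ext hcon)
    have hb2 : σ (σ b) ≠ σ b := fun h => hb (σ.injective h)
    refine (card_union3 (q₁ := fun M : Mat n => M.1.eRank = 4 ∧ act σ M = M ∧
      ∃ B, M.1.IsBase B ∧ b ∉ B) (q₂ := fun M : Mat n => M.1.eRank = 4 ∧ act σ M = M ∧
      ∃ B, M.1.IsBase B ∧ σ b ∉ B) (q₃ := fun M : Mat n => M.1.eRank = 4 ∧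
      n - 4 ≤ (zeroPairs M.1).card) ?_).trans
      (Nat.add_le_add_right (Nat.add_le_add (hone σ b hb) (hone σ (σ b) hb2)) _)
    rintro M ⟨h1, h2⟩
    by_cases h3 : ∃ B, M.1.IsBase B ∧ b ∉ B
    · exact Or.inl ⟨h1, h2, h3⟩
    · by_cases h4 : ∃ B, M.1.IsBase B ∧ σ b ∉ B
      · exact Or.inr (Or.inl ⟨h1, h2, h4⟩)
      · push Not at h3 h4
        exact Or.inr (Or.inr ⟨h1, hcol n M.1 M.2 h1 b (σ b) hb.symm h3 h4⟩)
  have hcard : ((univ : Finset (Equiv.Perm (Fin n))).erase 1).card ≤ n ^ n := by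
    refine (Finset.card_le_card (Finset.erase_subset _ _)).trans ?_
    rw [Finset.card_univ, Fintype.card_perm, Fintype.card_fin]
    exact Nat.factorial_le_pow n
  have hsum' : ∑ σ ∈ (univ : Finset (Equiv.Perm (Fin n))).erase 1,
      Nat.card {M : Mat n // M.1.eRank = 4 ∧ act σ M = M} ≤
        n ^ n * ((n + 1) ^ n * Z (n - 1) + (n + 1) ^ n * Z (n - 1) + Z (n - 4)) := by
    refine (Finset.sum_le_card_nsmul _ _ _ hterm).trans ?_
    rw [smul_eq_mul]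
    exact Nat.mul_le_mul_right _ hcard
  refine (Nat.mul_le_mul_left _ hsum').trans ?_
  exact numeric hn8 (hZk (n - 1) (by omega)) (hZk (n - 4) (by omega))

theorem asym (A : ℕ) : ∃ N : ℕ, ∀ n : ℕ, N ≤ n →
    n ^ A * ∑ σ ∈ (univ : Finset (Equiv.Perm (Fin n))).erase 1,
      Nat.card {M : Mat n // M.1.eRank = 4 ∧ act σ M = M} ≤ (fams n).card :=
  asym_of count_le sum_small_k (fun _ M hE _ hb => zero_loop M hE hb)
    (fun _ M hE hr _ _ hne h1 h2 => zero_two_coloops M hE hr hne h1 h2)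
    (fun _ σ b hb => fix_le σ b hb) A

end Pool.Agent.R4P
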