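import Pool.Agent.R4P.RpQ
import Pool.Agent.R4P.RpU
import Pool.Agent.H83Pav.Aut

/-!
# Isomorphism classes of matroids of rank four (helper91)
-/

set_option autoImplicit false

namespace Pool.Agent.R4P

open Finset H38Pav H83Pav

variable {n : ℕ}

/-- the rank of (the members of) the class is four -/
def R4 (c : Cls n) : Prop := ∃ M : Mat n, cls M = c ∧ M.1.eRank = 4

theorem eRank_act (σ : Equiv.Perm (Fin n)) (M : Mat n) : (act σ M).1.eRank = M.1.eRank :=
  (cls_eq.mp (cls_act σ M)).eRank_eq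

theorem paving_of_act (σ : Equiv.Perm (Fin n)) (M : Mat n) (h : Paving (act σ M).1) :
    Paving M.1 := by
  intro C hC
  have h1 := h (σ '' C) ((act_circuit σ M C).mpr hC)
  rwa [eRank_act, Function.Injective.encard_image σ.injective] at h1

theorem sum_aut_le (T : Finset (Mat n)) (hT : ∀ M ∈ T, M.1.eRank = 4) :
    ∑ M ∈ T, (autF M).card ≤ T.card + ∑ σ ∈ (univ : Finset (Equiv.Perm (Fin n))).erase 1,
      Nat.card {M : Mat n // M.1.eRank = 4 ∧ act σ M = M} := by
  classical
  have h1 : ∑ M ∈ T, (autF M).card =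
      ∑ σ : Equiv.Perm (Fin n), (T.filter (fun M => act σ M = M)).card := by
    unfold autF
    simp only [Finset.card_filter]
    rw [Finset.sum_comm]
  rw [h1, ← Finset.add_sum_erase univ _ (Finset.mem_univ (1 : Equiv.Perm (Fin n)))]
  refine Nat.add_le_add (Finset.card_le_card (Finset.filter_subset _ _))
    (Finset.sum_le_sum (fun σ _ => ?_))
  rw [← Fintype.card_coe, ← Nat.card_eq_fintype_card]
  refine Nat.card_le_card_of_injective
    (fun M => ⟨M.1, hT _ (Finset.mem_filter.mp M.2).1, (Finset.mem_filter.mp M.2).2⟩) ?_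
  intro M M' h
  exact Subtype.ext (congrArg (fun x => x.1) h)

theorem card_le_factorial_mul (n : ℕ) :
    Nat.card {M : Mat n // M.1.eRank = 4} ≤ n.factorial * Nat.card {c : Cls n // R4 c} := by
  classical
  have hex : ∀ M : Mat n, ∃ τ : Equiv.Perm (Fin n), M = act τ (rep (cls M)) := fun M =>
    act_of_isom (cls_eq.mp (cls_rep (cls M)))
  choose t ht using hex
  have h2 : n.factorial * Nat.card {c : Cls n // R4 c} =
      Nat.card (Equiv.Perm (Fin n) × {c : Cls n // R4 c}) := by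
    rw [Nat.card_prod, Nat.card_eq_fintype_card (α := Equiv.Perm (Fin n)), Fintype.card_perm,
      Fintype.card_fin]
  rw [h2]
  refine Nat.card_le_card_of_injective
    (fun M => (t M.1, ⟨cls M.1, M.1, rfl, M.2⟩)) ?_
  intro M M' h
  have h3 : t M.1 = t M'.1 := congrArg Prod.fst h
  have h4 : cls M.1 = cls M'.1 := congrArg (fun x => x.2.1) h
  apply Subtype.ext
  rw [ht M.1, ht M'.1, h3, h4]

theorem factorial_mul_le (n : ℕ) :
    n.factorial * Nat.card {c : Cls n // R4 c ∧ c.HasMG} ≤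
      Nat.card {M : Mat n // M.1.eRank = 4 ∧ ¬ Paving M.1} +
      ∑ σ ∈ (univ : Finset (Equiv.Perm (Fin n))).erase 1,
        Nat.card {M : Mat n // M.1.eRank = 4 ∧ act σ M = M} := by
  classical
  let _ : Fintype (Mat n) := Fintype.ofFinite _
  set T : Finset (Mat n) := univ.filter (fun M => M.1.eRank = 4 ∧ ¬ Paving M.1) with hTd
  have hmem : ∀ M : Mat n, M ∈ T ↔ M.1.eRank = 4 ∧ ¬ Paving M.1 := fun M => by simp [hTd]
  have hT : ∀ M ∈ T, ∀ s, act s M ∈ T := fun M hM s =>
    (hmem _).mpr ⟨by rw [eRank_act]; exact ((hmem M).mp hM).1,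
      fun h => ((hmem M).mp hM).2 (paving_of_act s M h)⟩
  have h1 := factorial_mul_image_le T hT
  have h2 := sum_aut_le T (fun M hM => ((hmem M).mp hM).1)
  have h3 : T.card = Nat.card {M : Mat n // M.1.eRank = 4 ∧ ¬ Paving M.1} := by
    rw [Nat.card_eq_fintype_card, Fintype.card_subtype]
  have h4 : Nat.card {c : Cls n // R4 c ∧ c.HasMG} ≤ (T.image cls).card := by
    rw [← Fintype.card_coe, ← Nat.card_eq_fintype_card]
    refine Nat.card_le_card_of_injective (fun c => ⟨c.1, ?_⟩) ?_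
    · obtain ⟨⟨M, hM, hM4⟩, M', hM', hMG⟩ := c.2
      refine Finset.mem_image.mpr ⟨M', (hmem _).mpr ⟨?_, not_paving_of_hasMG M'.1 hMG⟩, hM'⟩
      rw [← hM4]
      exact (cls_eq.mp (hM'.trans hM.symm)).eRank_eq
    · intro c c' h
      exact Subtype.ext (congrArg (fun x => x.1) h)
  rw [← h3]
  exact (Nat.mul_le_mul_left _ h4).trans (h1.trans h2)

theorem fams_pos (n : ℕ) : 0 < (fams n).card := by
  classical
  refine Finset.card_pos.mpr ⟨∅, ?_⟩
  simp [fams, IsFam]

theorem final_cls (A : ℕ) : ∃ N : ℕ, ∀ n : ℕ, N ≤ n →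
    0 < Nat.card {c : Cls n // R4 c} ∧
    n ^ A * Nat.card {c : Cls n // R4 c ∧ c.HasMG} ≤ Nat.card {c : Cls n // R4 c} := by
  obtain ⟨N₁, h₁⟩ := final_np (A + 1)
  obtain ⟨N₂, h₂⟩ := asym (A + 1)
  refine ⟨max (max N₁ N₂) 5, fun n hn => ?_⟩
  have hn5 : 5 ≤ n := (le_max_right _ _).trans hn
  have hn1 : N₁ ≤ n := (le_max_left _ _).trans ((le_max_left _ _).trans hn)
  have hn2 : N₂ ≤ n := (le_max_right _ _).trans ((le_max_left _ _).trans hn)
  have hL := card_le_factorial_mul n
  have hF : (fams n).card ≤ Nat.card {M : Mat n // M.1.eRank = 4} := fams_le hn5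
  have hfp := fams_pos n
  have hfac : 0 < n.factorial := Nat.factorial_pos n
  refine ⟨?_, ?_⟩
  · rcases Nat.eq_zero_or_pos (Nat.card {c : Cls n // R4 c}) with h | h
    · rw [h, Nat.mul_zero] at hL
      omega
    · exact h
  · have e1 := h₁ n hn1
    have e2 := (h₂ n hn2).trans hF
    have e3 := factorial_mul_le n
    set a := Nat.card {c : Cls n // R4 c ∧ c.HasMG}
    set C := Nat.card {c : Cls n // R4 c}
    set L := Nat.card {M : Mat n // M.1.eRank = 4}
    set U := Nat.card {M : Mat n // M.1.eRank = 4 ∧ ¬ Paving M.1}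
    set S := ∑ σ ∈ (univ : Finset (Equiv.Perm (Fin n))).erase 1,
        Nat.card {M : Mat n // M.1.eRank = 4 ∧ act σ M = M}
    have e4 : n.factorial * (n * (n ^ A * a)) ≤ n.factorial * (2 * C) := by
      calc n.factorial * (n * (n ^ A * a)) = n ^ (A + 1) * (n.factorial * a) := by ring
        _ ≤ n ^ (A + 1) * (U + S) := Nat.mul_le_mul_left _ e3
        _ = n ^ (A + 1) * U + n ^ (A + 1) * S := by ring
        _ ≤ L + L := Nat.add_le_add e1 e2
        _ = 2 * L := by ring
        _ ≤ 2 * (n.factorial * C) := Nat.mul_le_mul_left _ hL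
        _ = n.factorial * (2 * C) := by ring
    have e5 : n * (n ^ A * a) ≤ 2 * C := Nat.le_of_mul_le_mul_left e4 hfac
    have e6 : 2 * (n ^ A * a) ≤ 2 * C := (Nat.mul_le_mul_right _ (by omega)).trans e5
    omega

end Pool.Agent.R4P
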