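import Pool.Agent.R4P.Defs

/-!
MP_039b14_co, rank four, module RpA: a point leaves a member of a family, and joins it again.
-/

set_option autoImplicit false

namespace Pool.Agent.R4P

open Finset

variable {n : ℕ}

/-- two members which share a triple are equal -/
theorem eq_of_triple {F : Finset (Finset (Fin n))} (hF : IsFam F) {H K X : Finset (Fin n)}
    (hH : H ∈ F) (hK : K ∈ F) (hX : 3 ≤ X.card) (h1 : X ⊆ H) (h2 : X ⊆ K) : H = K := by
  by_contra hne
  have h3 := hF.2 H hH K hK hne
  have h4 := card_le_card (subset_inter h1 h2)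
  omega

theorem mem_leave {F : Finset (Finset (Fin n))} {R : Finset (Fin n)} {y : Fin n}
    {K : Finset (Fin n)} :
    K ∈ leave y R F ↔ (5 ≤ R.card ∧ K = R.erase y) ∨ (K ≠ R ∧ K ∈ F) := by
  unfold leave
  split_ifs with h
  · simp [h, mem_insert, mem_erase]
  · simp [h, mem_erase]

theorem leave_fam {F : Finset (Finset (Fin n))} (hF : IsFam F) {R : Finset (Fin n)} (hR : R ∈ F)
    {y : Fin n} (hy : y ∈ R) : IsFam (leave y R F) := by
  have hcase : ∀ K ∈ F, K ≠ R → (R.erase y ∩ K).card ≤ 2 := by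
    intro K hK hne
    have h1 := hF.2 R hR K hK (Ne.symm hne)
    exact le_trans (card_le_card (inter_subset_inter_right (erase_subset y R))) h1
  refine ⟨?_, ?_⟩
  · intro H hH
    rcases mem_leave.1 hH with ⟨h5, rfl⟩ | ⟨_, h⟩
    · have h1 := hF.1 R hR
      rw [card_erase_of_mem hy]
      omega
    · exact hF.1 H h
  · intro H hH K hK hne
    rcases mem_leave.1 hH with ⟨h5, rfl⟩ | ⟨hHR, h⟩
    · rcases mem_leave.1 hK with ⟨_, rfl⟩ | ⟨hKR, h'⟩
      · exact absurd rfl hne
      · exact hcase K h' hKR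
    · rcases mem_leave.1 hK with ⟨_, rfl⟩ | ⟨hKR, h'⟩
      · rw [inter_comm]; exact hcase H h hHR
      · exact hF.2 H h K h' hne

theorem cov_of_leave {F : Finset (Finset (Fin n))} {R : Finset (Fin n)} (hR : R ∈ F)
    {y : Fin n} {X : Finset (Fin n)} (h : Cov (leave y R F) X) : Cov F X := by
  obtain ⟨K, hK, hX⟩ := h
  rcases mem_leave.1 hK with ⟨_, rfl⟩ | ⟨_, h⟩
  · exact ⟨R, hR, hX.trans (erase_subset y R)⟩
  · exact ⟨K, h, hX⟩

theorem not_cov_leave {F : Finset (Finset (Fin n))} (hF : IsFam F) {R : Finset (Fin n)}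
    (hR : R ∈ F) {y : Fin n} {X : Finset (Fin n)} (hX : 3 ≤ X.card) (hXR : X ⊆ R) (hyX : y ∈ X) :
    ¬ Cov (leave y R F) X := by
  rintro ⟨K, hK, hXK⟩
  rcases mem_leave.1 hK with ⟨_, rfl⟩ | ⟨hne, h⟩
  · exact (notMem_erase y R) (hXK hyX)
  · exact hne (eq_of_triple hF h hR hX hXK hXR)

theorem cov_leave {F : Finset (Finset (Fin n))} {R : Finset (Fin n)}
    {y : Fin n} {X : Finset (Fin n)} (h : Cov F X) (hXR : ¬ X ⊆ R) : Cov (leave y R F) X := by
  obtain ⟨K, hK, hX⟩ := h
  refine ⟨K, mem_leave.2 (Or.inr ⟨?_, hK⟩), hX⟩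
  rintro rfl
  exact hXR hX

theorem join_leave {F : Finset (Finset (Fin n))} (hF : IsFam F) {R : Finset (Fin n)} (hR : R ∈ F)
    {y : Fin n} (hy : y ∈ R) {T : Finset (Fin n)} (hT : T.card = 3) (hTR : T ⊆ R.erase y) :
    join y T (leave y R F) = F := by
  have hL := leave_fam hF hR hy
  have hR4 := (hF.1 R hR).1
  by_cases h5 : 5 ≤ R.card
  · have hmem : R.erase y ∈ leave y R F := mem_leave.2 (Or.inl ⟨h5, rfl⟩)
    have hcov : Cov (leave y R F) T := ⟨R.erase y, hmem, hTR⟩
    have hch : hcov.choose = R.erase y :=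
      eq_of_triple hL hcov.choose_spec.1 hmem hT.ge hcov.choose_spec.2 hTR
    have hnot : R.erase y ∉ F.erase R := by
      intro h
      rw [mem_erase] at h
      have h1 := hF.2 _ h.2 R hR h.1
      rw [inter_eq_left.2 (erase_subset y R), card_erase_of_mem hy] at h1
      omega
    have hle : leave y R F = insert (R.erase y) (F.erase R) := by
      unfold leave; rw [if_pos h5]
    unfold join
    rw [dif_pos hcov, hch, insert_erase hy]
    have h2 : (leave y R F).erase (R.erase y) = F.erase R := by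
      rw [hle, erase_insert hnot]
    rw [h2, insert_erase hR]
  · have hTe : T = R.erase y := by
      refine eq_of_subset_of_card_le hTR ?_
      rw [card_erase_of_mem hy, hT]
      omega
    have hle : leave y R F = F.erase R := by
      unfold leave; rw [if_neg h5]
    have hncov : ¬ Cov (leave y R F) T := by
      rintro ⟨K, hK, hTK⟩
      rw [hle, mem_erase] at hK
      exact hK.1 (eq_of_triple hF hK.2 hR hT.ge hTK (hTR.trans (erase_subset y R)))
    unfold join
    rw [dif_neg hncov, hle, hTe, insert_erase hy, insert_erase hR]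

end Pool.Agent.R4P
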