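import Pool.Agent.R4P.Defs

/-!
Large members: replace a large member `H` by an arbitrary set of blocks of a transversal design
inside `H`.
-/

set_option autoImplicit false

namespace Pool.Agent.R4P

open Finset H38Pav

variable {n : ℕ}

namespace RpB

variable {k : ℕ}

/-- the coordinates of a block -/
def co (t : Fin k × Fin k × Fin k) : Fin 4 → Fin k :=
  ![t.1, t.2.1, t.2.2,
    ⟨((t.1 : ℕ) + t.2.1 + t.2.2) % k, Nat.mod_lt _ (Nat.lt_of_le_of_lt (Nat.zero_le _) t.1.2)⟩]

theorem co_agree {t t' : Fin k × Fin k × Fin k} (h : t ≠ t') :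
    (univ.filter (fun i => co t i = co t' i)).card ≤ 2 := by
  by_contra hcon
  push Not at hcon
  apply h
  have h1 : (univ.filter (fun i => ¬ co t i = co t' i)).card ≤ 1 := by
    have h2 := Finset.card_filter_add_card_filter_not (s := (univ : Finset (Fin 4)))
      (fun i => co t i = co t' i)
    rw [Finset.card_univ, Fintype.card_fin] at h2
    omega
  have h3 : ∀ i j : Fin 4, i ≠ j → co t i = co t' i ∨ co t j = co t' j := by
    intro i j hij
    by_contra hc
    push Not at hc
    have h4 := Finset.card_le_one.1 h1 i (by simp [hc.1]) j (by simp [hc.2])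
    exact hij h4
  obtain ⟨⟨a, ha⟩, ⟨b, hb⟩, ⟨c, hc⟩⟩ := t
  obtain ⟨⟨a', ha'⟩, ⟨b', hb'⟩, ⟨c', hc'⟩⟩ := t'
  have h01 := h3 0 1 (by decide)
  have h02 := h3 0 2 (by decide)
  have h03 := h3 0 3 (by decide)
  have h12 := h3 1 2 (by decide)
  have h13 := h3 1 3 (by decide)
  have h23 := h3 2 3 (by decide)
  simp only [co, Matrix.cons_val_zero, Matrix.cons_val_one, Matrix.cons_val, Fin.mk.injEq]
    at h01 h02 h03 h12 h13 h23
  have e1 : b = b' → c = c' → (a + b + c) % k = (a' + b' + c') % k → a = a' := by
    rintro rfl rfl h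
    have h4 : a + (b + c) ≡ a' + (b + c) [MOD k] := by
      show (a + (b + c)) % k = (a' + (b + c)) % k
      rwa [← Nat.add_assoc, ← Nat.add_assoc]
    exact (Nat.ModEq.add_right_cancel' _ h4).eq_of_lt_of_lt ha ha'
  have e2 : a = a' → c = c' → (a + b + c) % k = (a' + b' + c') % k → b = b' := by
    rintro rfl rfl h
    have h4 : b + (a + c) ≡ b' + (a + c) [MOD k] := by
      show (b + (a + c)) % k = (b' + (a + c)) % k
      have e3 : b + (a + c) = a + b + c := by ring
      have e4 : b' + (a + c) = a + b' + c := by ring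
      rwa [e3, e4]
    exact (Nat.ModEq.add_right_cancel' _ h4).eq_of_lt_of_lt hb hb'
  have e3 : a = a' → b = b' → (a + b + c) % k = (a' + b' + c') % k → c = c' := by
    rintro rfl rfl h
    have h4 : c + (a + b) ≡ c' + (a + b) [MOD k] := by
      show (c + (a + b)) % k = (c' + (a + b)) % k
      have e3 : c + (a + b) = a + b + c := by ring
      have e4 : c' + (a + b) = a + b + c' := by ring
      rwa [e3, e4]
    exact (Nat.ModEq.add_right_cancel' _ h4).eq_of_lt_of_lt hc hc'
  have : a = a' ∧ b = b' ∧ c = c' := by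
    rcases h01 with h | h <;> rcases h02 with h' | h' <;> rcases h12 with h'' | h'' <;>
      rcases h03 with h4 | h4 <;> rcases h13 with h5 | h5 <;> rcases h23 with h6 | h6 <;>
      grind
  obtain ⟨rfl, rfl, rfl⟩ := this
  rfl

/-- the blocks -/
def block (ψ : Fin 4 × Fin k → Fin n) (t : Fin k × Fin k × Fin k) : Finset (Fin n) :=
  univ.image (fun i : Fin 4 => ψ (i, co t i))

theorem block_card {ψ : Fin 4 × Fin k → Fin n} (hψ : Function.Injective ψ)
    (t : Fin k × Fin k × Fin k) : (block ψ t).card = 4 := by
  unfold block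
  rw [Finset.card_image_of_injective, Finset.card_univ, Fintype.card_fin]
  intro i j hij
  have h1 := hψ hij
  exact (Prod.mk.inj h1).1

theorem block_inter {ψ : Fin 4 × Fin k → Fin n} (hψ : Function.Injective ψ)
    {t t' : Fin k × Fin k × Fin k} (h : t ≠ t') : (block ψ t ∩ block ψ t').card ≤ 2 := by
  refine le_trans ?_ (co_agree h)
  refine le_trans (Finset.card_le_card (t := (univ.filter (fun i => co t i = co t' i)).image
    (fun i => ψ (i, co t i))) ?_) Finset.card_image_le
  intro x hx
  rw [Finset.mem_inter] at hx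
  obtain ⟨h1, h2⟩ := hx
  unfold block at h1 h2
  rw [Finset.mem_image] at h1 h2
  obtain ⟨i, -, rfl⟩ := h1
  obtain ⟨j, -, hj⟩ := h2
  have h3 := Prod.mk.inj (hψ hj)
  obtain ⟨rfl, h4⟩ := h3
  rw [Finset.mem_image]
  exact ⟨j, by simp [h4], rfl⟩

theorem block_injective {ψ : Fin 4 × Fin k → Fin n} (hψ : Function.Injective ψ) :
    Function.Injective (block ψ) := by
  intro t t' h
  by_contra hne
  have h1 := block_inter hψ hne
  rw [h, Finset.inter_self, block_card hψ] at h1
  omega

theorem block_sub {ψ : Fin 4 × Fin k → Fin n} {H : Finset (Fin n)} (hH : ∀ q, ψ q ∈ H)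
    (t : Fin k × Fin k × Fin k) : block ψ t ⊆ H := by
  intro x hx
  unfold block at hx
  rw [Finset.mem_image] at hx
  obtain ⟨i, -, rfl⟩ := hx
  exact hH _

end RpB

open RpB in
open Classical in
theorem giants (P : Finset (Finset (Fin n))) (k : ℕ) :
    ((AA P).filter (fun F => ∃ H ∈ F, 4 * k ≤ H.card)).card * 2 ^ (k ^ 3) ≤
      2 ^ n * (AA P).card := by
  rcases Nat.eq_zero_or_pos n with hn0 | hn0
  · have h0 : (AA P).filter (fun F => ∃ H ∈ F, 4 * k ≤ H.card) = ∅ := by
      rw [Finset.filter_eq_empty_iff]
      rintro F hF ⟨H, hH, -⟩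
      unfold AA fams at hF
      rw [Finset.mem_filter, Finset.mem_filter] at hF
      have := (hF.1.2.1 H hH).2
      omega
    rw [h0, Finset.card_empty, zero_mul]
    exact Nat.zero_le _
  -- the embeddings
  have hex : ∀ H : Finset (Fin n), ∃ ψ : Fin 4 × Fin k → Fin n, 4 * k ≤ H.card →
      Function.Injective ψ ∧ ∀ q, ψ q ∈ H := by
    intro H
    by_cases hH : 4 * k ≤ H.card
    · have h1 : Fintype.card (Fin 4 × Fin k) ≤ Fintype.card H := by
        rw [Fintype.card_prod, Fintype.card_fin, Fintype.card_fin, Fintype.card_coe]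
        exact hH
      obtain ⟨e⟩ := Function.Embedding.nonempty_of_card_le h1
      exact ⟨fun q => (e q : Fin n), fun _ => ⟨fun a b hab => e.injective (Subtype.ext hab),
        fun q => (e q).2⟩⟩
    · exact ⟨fun _ => ⟨0, hn0⟩, fun h => absurd h hH⟩
  choose ψ hψ using hex
  set hh : Finset (Finset (Fin n)) → Finset (Fin n) := fun F =>
    if h : ∃ H ∈ F, 4 * k ≤ H.card then h.choose else ∅ with hhdef
  have hh_spec : ∀ F, (∃ H ∈ F, 4 * k ≤ H.card) → hh F ∈ F ∧ 4 * k ≤ (hh F).card := by
    intro F h
    rw [hhdef]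
    simp only [dif_pos h]
    exact h.choose_spec
  set Γ := (AA P).filter (fun F => ∃ H ∈ F, 4 * k ≤ H.card) with hΓ
  -- facts on the members of Γ
  have hfacts : ∀ F ∈ Γ, IsFam F ∧ (∀ e ∈ P, ¬ Cov F e) ∧ hh F ∈ F ∧
      Function.Injective (ψ (hh F)) ∧ (∀ q, ψ (hh F) q ∈ hh F) := by
    intro F hF
    rw [hΓ, Finset.mem_filter] at hF
    obtain ⟨h1, h2⟩ := hF
    unfold AA fams at h1
    rw [Finset.mem_filter, Finset.mem_filter] at h1
    obtain ⟨h3, h4⟩ := hh_spec F h2
    obtain ⟨h5, h6⟩ := hψ (hh F) h4
    exact ⟨h1.1.2, h1.2, h3, h5, h6⟩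
  have hnot : ∀ F ∈ Γ, ∀ K ∈ F.erase (hh F), ¬ K ⊆ hh F := by
    intro F hF K hK hKH
    obtain ⟨h1, -, h3, -, -⟩ := hfacts F hF
    rw [Finset.mem_erase] at hK
    have h2 := h1.2 K hK.2 (hh F) h3 hK.1
    rw [Finset.inter_eq_left.2 hKH] at h2
    have h4 := (h1.1 K hK.2).1
    omega
  have hmain : (Γ ×ˢ (univ : Finset (Finset (Fin k × Fin k × Fin k)))).card ≤
      ((univ : Finset (Finset (Fin n))) ×ˢ AA P).card := by
    refine Finset.card_le_card_of_injOn
      (fun q => (hh q.1, q.1.erase (hh q.1) ∪ q.2.image (block (ψ (hh q.1))))) ?_ ?_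
    · rintro ⟨F, S⟩ hFS
      rw [Finset.mem_coe, Finset.mem_product] at hFS
      have hF : F ∈ Γ := hFS.1
      obtain ⟨h1, h2, h3, h4, h5⟩ := hfacts F hF
      simp only [Finset.coe_product, Set.mem_prod, Finset.mem_coe, Finset.mem_univ, true_and]
      have hH4 : 4 < n := by
        have := h1.1 (hh F) h3
        omega
      unfold AA fams
      rw [Finset.mem_filter, Finset.mem_filter]
      have hKH : ∀ K ∈ F.erase (hh F), ∀ t, (K ∩ block (ψ (hh F)) t).card ≤ 2 := by
        intro K hK t
        rw [Finset.mem_erase] at hK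
        refine le_trans (Finset.card_le_card ?_) (h1.2 K hK.2 (hh F) h3 hK.1)
        exact Finset.inter_subset_inter_left (block_sub h5 t)
      refine ⟨⟨Finset.mem_univ _, ?_, ?_⟩, ?_⟩
      · intro K hK
        rw [Finset.mem_union] at hK
        rcases hK with hK | hK
        · exact h1.1 K (Finset.mem_of_mem_erase hK)
        · rw [Finset.mem_image] at hK
          obtain ⟨t, -, rfl⟩ := hK
          rw [block_card h4]
          exact ⟨le_rfl, hH4⟩
      · intro K hK K' hK' hne
        rw [Finset.mem_union] at hK hK'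
        rcases hK with hK | hK <;> rcases hK' with hK' | hK'
        · exact h1.2 K (Finset.mem_of_mem_erase hK) K' (Finset.mem_of_mem_erase hK') hne
        · rw [Finset.mem_image] at hK'
          obtain ⟨t, -, rfl⟩ := hK'
          exact hKH K hK t
        · rw [Finset.mem_image] at hK
          obtain ⟨t, -, rfl⟩ := hK
          rw [Finset.inter_comm]
          exact hKH K' hK' t
        · rw [Finset.mem_image] at hK hK'
          obtain ⟨t, -, rfl⟩ := hK
          obtain ⟨t', -, rfl⟩ := hK'
          exact block_inter h4 (fun h => hne (by rw [h]))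
      · intro e he hcov
        obtain ⟨K, hK, heK⟩ := hcov
        rw [Finset.mem_union] at hK
        rcases hK with hK | hK
        · exact h2 e he ⟨K, Finset.mem_of_mem_erase hK, heK⟩
        · rw [Finset.mem_image] at hK
          obtain ⟨t, -, rfl⟩ := hK
          exact h2 e he ⟨hh F, h3, heK.trans (block_sub h5 t)⟩
    · rintro ⟨F, S⟩ hFS ⟨F', S'⟩ hFS' heq
      rw [Finset.mem_coe, Finset.mem_product] at hFS hFS'
      have hF : F ∈ Γ := hFS.1
      have hF' : F' ∈ Γ := hFS'.1
      have hq := Prod.mk.inj heq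
      obtain ⟨hH, hU⟩ := hq
      dsimp only at hH hU
      obtain ⟨-, -, h3, h4, h5⟩ := hfacts F hF
      obtain ⟨-, -, h3', h4', h5'⟩ := hfacts F' hF'
      have hb : ∀ K ∈ S.image (block (ψ (hh F))), K ⊆ hh F := by
        intro K hK
        rw [Finset.mem_image] at hK
        obtain ⟨t, -, rfl⟩ := hK
        exact block_sub h5 t
      have hb' : ∀ K ∈ S'.image (block (ψ (hh F'))), K ⊆ hh F' := by
        intro K hK
        rw [Finset.mem_image] at hK
        obtain ⟨t, -, rfl⟩ := hK
        exact block_sub h5' t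
      have hn := hnot F hF
      have hn' := hnot F' hF'
      rw [← hH] at hU hb' hn' h3'
      have e1 : F.erase (hh F) = F'.erase (hh F) := by
        ext K
        constructor
        · intro hK
          have h6 : K ∈ F'.erase (hh F) ∪ S'.image (block (ψ (hh F))) := by
            rw [← hU]; exact Finset.mem_union_left _ hK
          rw [Finset.mem_union] at h6
          rcases h6 with h6 | h6
          · exact h6
          · exact absurd (hb' K h6) (hn K hK)
        · intro hK
          have h6 : K ∈ F.erase (hh F) ∪ S.image (block (ψ (hh F))) := by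
            rw [hU]; exact Finset.mem_union_left _ hK
          rw [Finset.mem_union] at h6
          rcases h6 with h6 | h6
          · exact h6
          · exact absurd (hb K h6) (hn' K hK)
      have e2 : S.image (block (ψ (hh F))) = S'.image (block (ψ (hh F))) := by
        ext K
        constructor
        · intro hK
          have h6 : K ∈ F'.erase (hh F) ∪ S'.image (block (ψ (hh F))) := by
            rw [← hU]; exact Finset.mem_union_right _ hK
          rw [Finset.mem_union] at h6
          rcases h6 with h6 | h6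
          · exact absurd (hb K hK) (hn' K h6)
          · exact h6
        · intro hK
          have h6 : K ∈ F.erase (hh F) ∪ S.image (block (ψ (hh F))) := by
            rw [hU]; exact Finset.mem_union_right _ hK
          rw [Finset.mem_union] at h6
          rcases h6 with h6 | h6
          · exact absurd (hb' K hK) (hn K h6)
          · exact h6
      have e3 : F = F' := by
        rw [← Finset.insert_erase h3, e1, Finset.insert_erase h3']
      have e4 : S = S' := Finset.image_injective (block_injective h4) e2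
      rw [e3, e4]
  rw [Finset.card_product, Finset.card_product, Finset.card_univ, Finset.card_univ,
    Fintype.card_finset, Fintype.card_finset, Fintype.card_prod, Fintype.card_prod,
    Fintype.card_fin, Fintype.card_fin] at hmain
  have e : k * (k * k) = k ^ 3 := by ring
  rw [e] at hmain
  exact hmain

end Pool.Agent.R4P
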