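import Pool.Agent.R4P.Defs

/-!
The number of triangles of a directed graph.
-/

set_option autoImplicit false

namespace Pool.Agent.R4P

open Finset

open Classical in
theorem triangles {α : Type*} [Fintype α] (E : Finset (α × α)) :
    ((univ : Finset (α × α × α)).filter (fun t => (t.1, t.2.1) ∈ E ∧ (t.2.1, t.2.2) ∈ E ∧
      (t.1, t.2.2) ∈ E)).card ^ 2 ≤ E.card ^ 3 := by
  set T := (univ : Finset (α × α × α)).filter (fun t => (t.1, t.2.1) ∈ E ∧ (t.2.1, t.2.2) ∈ E ∧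
      (t.1, t.2.2) ∈ E) with hT
  let N : α × α → Finset α := fun p => univ.filter (fun w => (p.2, w) ∈ E ∧ (p.1, w) ∈ E)
  have h1 : T.card ≤ ∑ p ∈ E, (N p).card := by
    have hsub : T ⊆ E.biUnion (fun p => (N p).image (fun w => (p.1, p.2, w))) := by
      rintro ⟨u, v, w⟩ ht
      simp only [hT, mem_filter, mem_univ, true_and] at ht
      simp only [mem_biUnion, mem_image, N, mem_filter, mem_univ, true_and]
      exact ⟨(u, v), ht.1, w, ⟨ht.2.1, ht.2.2⟩, rfl⟩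
    refine (card_le_card hsub).trans (card_biUnion_le.trans ?_)
    exact sum_le_sum (fun p _ => card_image_le)
  have h2 : (∑ p ∈ E, (N p).card) ^ 2 ≤ E.card * ∑ p ∈ E, (N p).card ^ 2 :=
    sq_sum_le_card_mul_sum_sq
  have h3 : ∑ p ∈ E, (N p).card ^ 2 ≤ E.card ^ 2 := by
    have e1 : ∑ p ∈ E, (N p).card ^ 2 = (E.sigma (fun p => N p ×ˢ N p)).card := by
      rw [card_sigma]
      refine sum_congr rfl (fun p _ => ?_)
      rw [card_product, sq]
    rw [e1, sq, ← card_product]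
    refine card_le_card_of_injOn (fun s => ((s.1.1, s.2.1), (s.1.2, s.2.2))) ?_ ?_
    · rintro ⟨⟨u, v⟩, ⟨w, w'⟩⟩ hs
      simp only [coe_sigma, Set.mem_sigma_iff, mem_coe, mem_product, N, mem_filter, mem_univ,
        true_and] at hs
      simp only [mem_coe, mem_product]
      exact ⟨hs.2.1.2, hs.2.2.1⟩
    · rintro ⟨⟨u, v⟩, ⟨w, w'⟩⟩ _ ⟨⟨u1, v1⟩, ⟨w1, w1'⟩⟩ _ e
      simp only [Prod.mk.injEq] at e
      obtain ⟨⟨rfl, rfl⟩, rfl, rfl⟩ := e
      rfl
  calc T.card ^ 2 ≤ (∑ p ∈ E, (N p).card) ^ 2 := Nat.pow_le_pow_left h1 2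
    _ ≤ E.card * ∑ p ∈ E, (N p).card ^ 2 := h2
    _ ≤ E.card * E.card ^ 2 := Nat.mul_le_mul_left _ h3
    _ = E.card ^ 3 := by ring

end Pool.Agent.R4P
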