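import Pool.Agent.R4P.Defs

/-!
MP_039b14_co, rank four: almost all pairs of `SS` are covered together with `y`.
-/

set_option autoImplicit false

namespace Pool.Agent.R4P

open Finset

variable {n : ℕ}

open Classical in
theorem d_mem_SS {P : Finset (Finset (Fin n))} {x y u : Fin n} {F : Finset (Finset (Fin n))} :
    u ∈ SS P x y F ↔ u ≠ x ∧ u ≠ y ∧ ({x, u} : Finset (Fin n)) ∉ P ∧
      ({y, u} : Finset (Fin n)) ∉ P ∧ ¬ Cov F {x, y, u} := by
  unfold SS
  rw [mem_filter]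
  exact ⟨fun h => h.2, fun h => ⟨mem_univ _, h⟩⟩

open Classical in
theorem d_mem_GG {P : Finset (Finset (Fin n))} {x y : Fin n} {F : Finset (Finset (Fin n))}
    {p : Fin n × Fin n} :
    p ∈ GG P x y F ↔ (p.1 ∈ SS P x y F ∧ p.2 ∈ SS P x y F) ∧ p.1 ≠ p.2 ∧
      ({p.1, p.2} : Finset (Fin n)) ∉ P ∧ ¬ Cov F {y, p.1, p.2} := by
  unfold GG
  rw [mem_filter, mem_product]

theorem d_mem_FT {P : Finset (Finset (Fin n))} {x y : Fin n} {t : ℕ}
    {F : Finset (Finset (Fin n))} : F ∈ FT P x y t ↔ F ∈ AA P ∧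
      (∀ H ∈ F, x ∈ H → y ∈ H → H.card = 4) ∧
      (F.filter (fun H => x ∈ H ∧ y ∈ H)).card = t := by
  unfold FT
  rw [mem_filter]

open Classical in
theorem d_mem_AA {P : Finset (Finset (Fin n))} {F : Finset (Finset (Fin n))} :
    F ∈ AA P ↔ IsFam F ∧ ∀ e ∈ P, ¬ Cov F e := by
  unfold AA fams
  rw [mem_filter, mem_filter]
  exact ⟨fun h => ⟨h.1.2, h.2⟩, fun h => ⟨⟨mem_univ _, h.1⟩, h.2⟩⟩

theorem d_pair_inj {x u v : Fin n} (h : ({x, u} : Finset (Fin n)) = {x, v}) : u = v := by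
  have h1 : u ∈ ({x, v} : Finset (Fin n)) := by rw [← h]; simp
  have h2 : v ∈ ({x, u} : Finset (Fin n)) := by rw [h]; simp
  rw [mem_insert, mem_singleton] at h1 h2
  rcases h1 with h1 | h1
  · rcases h2 with h2 | h2
    · rw [h1, h2]
    · exact h2.symm
  · exact h1

open Classical in
theorem d_card_nb (P : Finset (Finset (Fin n))) (x : Fin n) :
    ((univ : Finset (Fin n)).filter (fun u => ({x, u} : Finset (Fin n)) ∈ P)).card ≤
      deg P x := by
  unfold deg
  refine Finset.card_le_card_of_injOn (fun u => ({x, u} : Finset (Fin n))) ?_ ?_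
  · intro u hu
    rw [mem_coe, mem_filter] at hu
    rw [mem_coe, mem_filter]
    exact ⟨hu.2, by simp⟩
  · intro u _ v _ h
    exact d_pair_inj h

theorem d_card_erase_two {H : Finset (Fin n)} {x y : Fin n} (hxy : x ≠ y) (hx : x ∈ H)
    (hy : y ∈ H) (h4 : H.card = 4) : ((H.erase x).erase y).card = 2 := by
  rw [card_erase_of_mem (mem_erase.mpr ⟨hxy.symm, hy⟩), card_erase_of_mem hx, h4]

open Classical in
theorem d_card_bad {P : Finset (Finset (Fin n))} {x y : Fin n} {t : ℕ} (hxy : x ≠ y)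
    {F : Finset (Finset (Fin n))} (hF : F ∈ FT P x y t) :
    ((univ : Finset (Fin n)).filter (fun u => u ≠ x ∧ u ≠ y ∧ Cov F {x, y, u})).card ≤
      2 * t := by
  obtain ⟨_, h4, ht⟩ := d_mem_FT.mp hF
  have hsub : ((univ : Finset (Fin n)).filter (fun u => u ≠ x ∧ u ≠ y ∧ Cov F {x, y, u})) ⊆
      (F.filter (fun H => x ∈ H ∧ y ∈ H)).biUnion (fun H => (H.erase x).erase y) := by
    intro u hu
    obtain ⟨_, hux, huy, H, hH, hsub⟩ := mem_filter.mp hu
    have h1 : x ∈ H := hsub (by simp)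
    have h2 : y ∈ H := hsub (by simp)
    have h3 : u ∈ H := hsub (by simp)
    rw [mem_biUnion]
    exact ⟨H, mem_filter.mpr ⟨hH, h1, h2⟩, mem_erase.mpr ⟨huy, mem_erase.mpr ⟨hux, h3⟩⟩⟩
  have hle := Finset.card_biUnion_le_card_mul (F.filter (fun H => x ∈ H ∧ y ∈ H))
    (fun H => (H.erase x).erase y) 2 (by
      intro H hH
      obtain ⟨hH1, hH2, hH3⟩ := mem_filter.mp hH
      exact (d_card_erase_two hxy hH2 hH3 (h4 H hH1 hH2 hH3)).le)
  have h5 : (F.filter (fun H => x ∈ H ∧ y ∈ H)).card = t := by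
    rw [← ht]
  rw [h5] at hle
  exact le_trans (card_le_card hsub) (by omega)

theorem card_SS {P : Finset (Finset (Fin n))} {x y : Fin n} {t d : ℕ} (hxy : x ≠ y)
    (hd : ∀ z, deg P z ≤ d) {F : Finset (Finset (Fin n))} (hF : F ∈ FT P x y t) :
    n ≤ (SS P x y F).card + (2 + 2 * d + 2 * t) := by
  classical
  have hsub : (univ : Finset (Fin n)) ⊆ SS P x y F ∪ (({x, y} : Finset (Fin n)) ∪
      ((univ.filter (fun u => ({x, u} : Finset (Fin n)) ∈ P)) ∪
      ((univ.filter (fun u => ({y, u} : Finset (Fin n)) ∈ P)) ∪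
      (univ.filter (fun u => u ≠ x ∧ u ≠ y ∧ Cov F {x, y, u}))))) := by
    intro u _
    simp only [mem_union, mem_insert, mem_singleton, mem_filter, mem_univ, true_and, d_mem_SS]
    by_cases h1 : u = x
    · exact Or.inr (Or.inl (Or.inl h1))
    by_cases h2 : u = y
    · exact Or.inr (Or.inl (Or.inr h2))
    by_cases h3 : ({x, u} : Finset (Fin n)) ∈ P
    · exact Or.inr (Or.inr (Or.inl h3))
    by_cases h4 : ({y, u} : Finset (Fin n)) ∈ P
    · exact Or.inr (Or.inr (Or.inr (Or.inl h4)))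
    by_cases h5 : Cov F {x, y, u}
    · exact Or.inr (Or.inr (Or.inr (Or.inr ⟨h1, h2, h5⟩)))
    · exact Or.inl ⟨h1, h2, h3, h4, h5⟩
  have h0 := card_le_card hsub
  rw [card_univ, Fintype.card_fin] at h0
  have h1 := card_union_le (SS P x y F) (({x, y} : Finset (Fin n)) ∪
      ((univ.filter (fun u => ({x, u} : Finset (Fin n)) ∈ P)) ∪
      ((univ.filter (fun u => ({y, u} : Finset (Fin n)) ∈ P)) ∪
      (univ.filter (fun u => u ≠ x ∧ u ≠ y ∧ Cov F {x, y, u})))))
  have h2 := card_union_le ({x, y} : Finset (Fin n))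
      ((univ.filter (fun u => ({x, u} : Finset (Fin n)) ∈ P)) ∪
      ((univ.filter (fun u => ({y, u} : Finset (Fin n)) ∈ P)) ∪
      (univ.filter (fun u => u ≠ x ∧ u ≠ y ∧ Cov F {x, y, u}))))
  have h3 := card_union_le (univ.filter (fun u => ({x, u} : Finset (Fin n)) ∈ P))
      ((univ.filter (fun u => ({y, u} : Finset (Fin n)) ∈ P)) ∪
      (univ.filter (fun u => u ≠ x ∧ u ≠ y ∧ Cov F {x, y, u})))
  have h4 := card_union_le (univ.filter (fun u => ({y, u} : Finset (Fin n)) ∈ P))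
      (univ.filter (fun u => u ≠ x ∧ u ≠ y ∧ Cov F {x, y, u}))
  have h5 : ({x, y} : Finset (Fin n)).card ≤ 2 := card_le_two
  have h6 := le_trans (d_card_nb P x) (hd x)
  have h7 := le_trans (d_card_nb P y) (hd y)
  have h8 := d_card_bad hxy hF
  omega

theorem d_eq_of_three {F : Finset (Finset (Fin n))} (hF : IsFam F) {H K : Finset (Fin n)}
    (hH : H ∈ F) (hK : K ∈ F) {a b c : Fin n} (hab : a ≠ b) (hac : a ≠ c) (hbc : b ≠ c)
    (h1 : a ∈ H) (h2 : b ∈ H) (h3 : c ∈ H) (h4 : a ∈ K) (h5 : b ∈ K) (h6 : c ∈ K) : H = K := by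
  by_contra hne
  have h7 := hF.2 H hH K hK hne
  have h8 : ({a, b, c} : Finset (Fin n)) ⊆ H ∩ K := by
    intro u hu
    rw [mem_insert, mem_insert, mem_singleton] at hu
    rw [mem_inter]
    rcases hu with h | h | h
    · rw [h]; exact ⟨h1, h4⟩
    · rw [h]; exact ⟨h2, h5⟩
    · rw [h]; exact ⟨h3, h6⟩
  have h9 := card_le_card h8
  rw [card_eq_three.mpr ⟨a, b, c, hab, hac, hbc, rfl⟩] at h9
  omega

open Classical in
theorem d_exists_w {P : Finset (Finset (Fin n))} {x y : Fin n} {t : ℕ}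
    {F : Finset (Finset (Fin n))} (hF : F ∈ FT P x y t) {u v : Fin n} (hu : u ∈ SS P x y F)
    {R : Finset (Fin n)} (hR : R ∈ F)
    (hsub : ({y, u, v} : Finset (Fin n)) ⊆ R) (h3 : ¬ 3 ≤ (R ∩ SS P x y F).card) :
    ∃ w : Fin n, w ∈ R ∧ w ∉ SS P x y F ∧ w ≠ x ∧ w ≠ y ∧
      (({x, w} : Finset (Fin n)) ∈ P ∨ Cov F {x, y, w}) := by
  obtain ⟨hAA, h4, _⟩ := d_mem_FT.mp hF
  obtain ⟨hfam, hcov⟩ := d_mem_AA.mp hAA
  have hy : y ∈ R := hsub (by simp)
  have huR : u ∈ R := hsub (by simp)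
  have hvR : v ∈ R := hsub (by simp)
  have hcard := (hfam.1 R hR).1
  -- an element outside
  have hex : ∃ w ∈ R, w ∉ SS P x y F ∧ w ≠ y := by
    by_contra hcon
    push Not at hcon
    have hsub2 : R.erase y ⊆ R ∩ SS P x y F := by
      intro w hw
      obtain ⟨hw1, hw2⟩ := mem_erase.mp hw
      rw [mem_inter]
      refine ⟨hw2, ?_⟩
      by_contra hw3
      exact hw1 (hcon w hw2 hw3)
    have h5 := card_le_card hsub2
    rw [card_erase_of_mem hy] at h5
    omega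
  obtain ⟨w, hwR, hwS, hwy⟩ := hex
  have hxR : x ∉ R := by
    intro hx
    have h5 := (d_mem_SS.mp hu).2.2.2.2
    apply h5
    refine ⟨R, hR, ?_⟩
    intro z hz
    rw [mem_insert, mem_insert, mem_singleton] at hz
    rcases hz with h | h | h
    · rw [h]; exact hx
    · rw [h]; exact hy
    · rw [h]; exact huR
  have hwx : w ≠ x := by
    intro h
    exact hxR (h ▸ hwR)
  have hyw : ({y, w} : Finset (Fin n)) ∉ P := by
    intro h
    refine hcov _ h ⟨R, hR, ?_⟩
    intro z hz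
    rw [mem_insert, mem_singleton] at hz
    rcases hz with h | h
    · rw [h]; exact hy
    · rw [h]; exact hwR
  refine ⟨w, hwR, hwS, hwx, hwy, ?_⟩
  by_contra hcon
  push Not at hcon
  exact hwS (d_mem_SS.mpr ⟨hwx, hwy, hcon.1, hyw, hcon.2⟩)

open Classical in
/-- almost all pairs of `SS` lie on a member through `y` with at least three points in `SS` -/
theorem many_pairs {P : Finset (Finset (Fin n))} (hP : Pairs P) {x y : Fin n} {t d : ℕ}
    (hxy : x ≠ y) (hd : ∀ z, deg P z ≤ d) {F : Finset (Finset (Fin n))} (hF : F ∈ FT P x y t) :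
    (SS P x y F).card * ((SS P x y F).card - 1) ≤
      (((SS P x y F ×ˢ SS P x y F).filter (fun p => p.1 ≠ p.2 ∧
        ∃ R ∈ F, ({y, p.1, p.2} : Finset (Fin n)) ⊆ R ∧ 3 ≤ (R ∩ SS P x y F).card)).card) +
      (n * d + (GG P x y F).card + (d + 2 * t) * n) := by
  obtain ⟨hAA, h4, _⟩ := d_mem_FT.mp hF
  obtain ⟨hfam, hcov⟩ := d_mem_AA.mp hAA
  -- the three exceptional sets
  set S := SS P x y F with hS
  set A1 := (S ×ˢ S).filter (fun p => p.1 ≠ p.2 ∧
        ∃ R ∈ F, ({y, p.1, p.2} : Finset (Fin n)) ⊆ R ∧ 3 ≤ (R ∩ S).card) with hA1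
  set A2 := (univ : Finset (Fin n)).biUnion (fun u =>
    ((univ : Finset (Fin n)).filter (fun v => ({u, v} : Finset (Fin n)) ∈ P)).image
      (fun v => (u, v))) with hA2
  set A3 := (S ×ˢ S).filter (fun p => p.1 ≠ p.2 ∧
        ∃ R ∈ F, ({y, p.1, p.2} : Finset (Fin n)) ⊆ R ∧ ¬ 3 ≤ (R ∩ S).card) with hA3
  have hA2c : A2.card ≤ n * d := by
    have h := Finset.card_biUnion_le_card_mul (univ : Finset (Fin n)) (fun u =>
      ((univ : Finset (Fin n)).filter (fun v => ({u, v} : Finset (Fin n)) ∈ P)).image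
        (fun v => (u, v))) d (by
          intro u _
          exact le_trans card_image_le (le_trans (d_card_nb P u) (hd u)))
    rw [card_univ, Fintype.card_fin] at h
    exact h
  have hA3c : A3.card ≤ (d + 2 * t) * n := by
    set W := (univ.filter (fun w => ({x, w} : Finset (Fin n)) ∈ P)) ∪
      (univ.filter (fun w => w ≠ x ∧ w ≠ y ∧ Cov F {x, y, w})) with hW
    have hWc : W.card ≤ d + 2 * t :=
      le_trans (card_union_le _ _) (add_le_add (le_trans (d_card_nb P x) (hd x)) (d_card_bad hxy hF))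
    have hch : ∀ p : Fin n × Fin n, p ∈ A3 → ∃ q : Finset (Fin n) × Fin n, q.1 ∈ F ∧
        ({y, p.1, p.2} : Finset (Fin n)) ⊆ q.1 ∧ ¬ 3 ≤ (q.1 ∩ S).card ∧ q.2 ∈ q.1 ∧ q.2 ∉ S ∧
        q.2 ≠ y ∧ q.2 ∈ W := by
      intro p hp
      obtain ⟨hp1, hp2, R, hR, hsub, h3⟩ := mem_filter.mp hp
      obtain ⟨hp3, hp4⟩ := mem_product.mp hp1
      obtain ⟨w, hwR, hwS, hwx, hwy, hw⟩ := d_exists_w hF hp3 hR hsub h3
      refine ⟨(R, w), hR, hsub, h3, hwR, hwS, hwy, ?_⟩
      rw [hW, mem_union, mem_filter, mem_filter]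
      rcases hw with hw | hw
      · exact Or.inl ⟨mem_univ _, hw⟩
      · exact Or.inr ⟨mem_univ _, hwx, hwy, hw⟩
    have : Nonempty (Finset (Fin n) × Fin n) := ⟨(∅, x)⟩
    choose! f hf using hch
    have hinj : Set.InjOn (fun p : Fin n × Fin n => ((f p).2, p.1)) (A3 : Set (Fin n × Fin n)) := by
      intro p hp p' hp' heq
      rw [mem_coe] at hp hp'
      obtain ⟨a1, a2, a3, a4, a5, a6, a7⟩ := hf p hp
      obtain ⟨b1, b2, b3, b4, b5, b6, b7⟩ := hf p' hp'
      obtain ⟨hp1, hp2, _⟩ := mem_filter.mp hp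
      obtain ⟨hp1', hp2', _⟩ := mem_filter.mp hp'
      obtain ⟨hp3, hp4⟩ := mem_product.mp hp1
      obtain ⟨hp3', hp4'⟩ := mem_product.mp hp1'
      have e1 : (f p).2 = (f p').2 := (Prod.ext_iff.mp heq).1
      have e2 : p.1 = p'.1 := (Prod.ext_iff.mp heq).2
      have hyp : y ≠ p.1 := fun h => (d_mem_SS.mp hp3).2.1 h.symm
      have hwp : (f p).2 ≠ p.1 := fun h => a5 (h ▸ hp3)
      have hR : (f p).1 = (f p').1 :=
        d_eq_of_three hfam a1 b1 (Ne.symm a6) hyp hwp (a2 (by simp)) a4 (a2 (by simp))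
          (b2 (by simp)) (e1 ▸ b4) (e2 ▸ b2 (by simp))
      -- the two points
      have h22 : p.2 = p'.2 := by
        by_contra hne
        apply a3
        have hsub : ({p.1, p.2, p'.2} : Finset (Fin n)) ⊆ (f p).1 ∩ S := by
          intro z hz
          rw [mem_insert, mem_insert, mem_singleton] at hz
          rw [mem_inter]
          rcases hz with h | h | h
          · rw [h]; exact ⟨a2 (by simp), hp3⟩
          · rw [h]; exact ⟨a2 (by simp), hp4⟩
          · rw [h]; exact ⟨hR ▸ b2 (by simp), hp4'⟩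
        have hc := card_le_card hsub
        rw [card_eq_three.mpr ⟨p.1, p.2, p'.2, hp2, e2 ▸ hp2', hne, rfl⟩] at hc
        exact hc
      exact Prod.ext e2 h22
    have hmaps : Set.MapsTo (fun p : Fin n × Fin n => ((f p).2, p.1))
        (A3 : Set (Fin n × Fin n)) ((W ×ˢ (univ : Finset (Fin n)) :
          Finset (Fin n × Fin n)) : Set (Fin n × Fin n)) := by
      intro p hp
      rw [mem_coe] at hp
      rw [mem_coe, mem_product]
      exact ⟨(hf p hp).2.2.2.2.2.2, mem_univ _⟩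
    have h := Finset.card_le_card_of_injOn _ hmaps hinj
    rw [card_product, card_univ, Fintype.card_fin] at h
    exact le_trans h (Nat.mul_le_mul_right _ hWc)
  have hcover : S.offDiag ⊆ A1 ∪ (A2 ∪ (GG P x y F ∪ A3)) := by
    intro p hp
    obtain ⟨hp1, hp2, hp3⟩ := mem_offDiag.mp hp
    rw [mem_union, mem_union, mem_union]
    by_cases h1 : ({p.1, p.2} : Finset (Fin n)) ∈ P
    · refine Or.inr (Or.inl ?_)
      rw [hA2, mem_biUnion]
      refine ⟨p.1, mem_univ _, ?_⟩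
      rw [mem_image]
      exact ⟨p.2, mem_filter.mpr ⟨mem_univ _, h1⟩, rfl⟩
    by_cases h2 : Cov F {y, p.1, p.2}
    · obtain ⟨R, hR, hsub⟩ := h2
      by_cases h3 : 3 ≤ (R ∩ S).card
      · exact Or.inl (mem_filter.mpr ⟨mem_product.mpr ⟨hp1, hp2⟩, hp3, R, hR, hsub, h3⟩)
      · exact Or.inr (Or.inr (Or.inr
          (mem_filter.mpr ⟨mem_product.mpr ⟨hp1, hp2⟩, hp3, R, hR, hsub, h3⟩)))
    · exact Or.inr (Or.inr (Or.inl (d_mem_GG.mpr ⟨⟨hp1, hp2⟩, hp3, h1, h2⟩)))
  have h0 := card_le_card hcover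
  rw [offDiag_card] at h0
  have h1 := card_union_le A1 (A2 ∪ (GG P x y F ∪ A3))
  have h2 := card_union_le A2 (GG P x y F ∪ A3)
  have h3 := card_union_le (GG P x y F) A3
  have h5 : S.card * (S.card - 1) = S.card * S.card - S.card := by
    rw [Nat.mul_sub, mul_one]
  rw [h5]
  omega

end Pool.Agent.R4P
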