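import Pool.Agent.R4P.RpA
import Pool.Agent.R4P.RpC
import Pool.Agent.R4P.RpD

/-!
Move 2: `y` leaves a member.
-/

set_option autoImplicit false

namespace Pool.Agent.R4P

open Finset H38Pav

variable {n : ℕ}

namespace E

/-- the data of a move: a member `R` through `y` and a triple of different points of `SS` in it -/
def Mv (P : Finset (Finset (Fin n))) (x y : Fin n) (F : Finset (Finset (Fin n)))
    (s : Fin n × Fin n × Fin n) (R : Finset (Fin n)) : Prop :=
  R ∈ F ∧ y ∈ R ∧ s.1 ∈ R ∧ s.2.1 ∈ R ∧ s.2.2 ∈ R ∧ s.1 ≠ s.2.1 ∧ s.2.1 ≠ s.2.2 ∧ s.1 ≠ s.2.2 ∧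
    s.1 ∈ SS P x y F ∧ s.2.1 ∈ SS P x y F ∧ s.2.2 ∈ SS P x y F

theorem mem_SS {P : Finset (Finset (Fin n))} {x y u : Fin n} {F : Finset (Finset (Fin n))} :
    u ∈ SS P x y F ↔ u ≠ x ∧ u ≠ y ∧ ({x, u} : Finset (Fin n)) ∉ P ∧
    ({y, u} : Finset (Fin n)) ∉ P ∧ ¬ Cov F {x, y, u} := by
  simp [SS]

theorem mem_GG {P : Finset (Finset (Fin n))} {x y : Fin n} {F : Finset (Finset (Fin n))}
    {p : Fin n × Fin n} : p ∈ GG P x y F ↔ (p.1 ∈ SS P x y F ∧ p.2 ∈ SS P x y F) ∧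
      p.1 ≠ p.2 ∧ ({p.1, p.2} : Finset (Fin n)) ∉ P ∧ ¬ Cov F {y, p.1, p.2} := by
  simp [GG]

theorem mem_AA {P : Finset (Finset (Fin n))} {F : Finset (Finset (Fin n))} :
    F ∈ AA P ↔ IsFam F ∧ ∀ e ∈ P, ¬ Cov F e := by
  simp [AA, fams]

theorem mem_FT {P : Finset (Finset (Fin n))} {x y : Fin n} {t : ℕ}
    {F : Finset (Finset (Fin n))} : F ∈ FT P x y t ↔ F ∈ AA P ∧
      (∀ H ∈ F, x ∈ H → y ∈ H → H.card = 4) ∧
      (F.filter (fun H => x ∈ H ∧ y ∈ H)).card = t := by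
  simp [FT]

theorem mem_BB {P : Finset (Finset (Fin n))} {x y : Fin n} {t h a : ℕ}
    {F : Finset (Finset (Fin n))} : F ∈ BB P x y t h a ↔ F ∈ FT P x y t ∧
      (∀ H ∈ F, H.card ≤ h) ∧ (GG P x y F).card ≤ a := by
  simp [BB]

theorem card_three {a b c : Fin n} (h1 : a ≠ b) (h2 : a ≠ c) (h3 : b ≠ c) :
    ({a, b, c} : Finset (Fin n)).card = 3 := Finset.card_eq_three.2 ⟨a, b, c, h1, h2, h3, rfl⟩

theorem Mv.x_notMem {P : Finset (Finset (Fin n))} {x y : Fin n} {F : Finset (Finset (Fin n))}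
    {s : Fin n × Fin n × Fin n} {R : Finset (Fin n)} (h : Mv P x y F s R) : x ∉ R := by
  intro hx
  obtain ⟨h1, h2, h3, -, -, -, -, -, h9, -, -⟩ := h
  refine (mem_SS.1 h9).2.2.2.2 ⟨R, h1, ?_⟩
  intro z hz
  simp only [mem_insert, mem_singleton] at hz
  rcases hz with rfl | rfl | rfl <;> assumption

/-- the member is determined by the triple -/
theorem Mv.unique {P : Finset (Finset (Fin n))} {x y : Fin n} {F : Finset (Finset (Fin n))}
    (hF : IsFam F) {s : Fin n × Fin n × Fin n} {R R' : Finset (Fin n)} (h : Mv P x y F s R)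
    (h' : Mv P x y F s R') : R = R' := by
  obtain ⟨h1, h2, h3, h4, h5, h6, h7, h8, h9, h10, h11⟩ := h
  obtain ⟨k1, k2, k3, k4, k5, -⟩ := h'
  refine eq_of_triple hF h1 k1 (X := {s.1, s.2.1, s.2.2}) (card_three h6 h8 h7).ge ?_ ?_
  · intro z hz
    simp only [mem_insert, mem_singleton] at hz
    rcases hz with rfl | rfl | rfl <;> assumption
  · intro z hz
    simp only [mem_insert, mem_singleton] at hz
    rcases hz with rfl | rfl | rfl <;> assumption

/-- the points of `SS` do not change -/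
theorem Mv.SS_eq {P : Finset (Finset (Fin n))} {x y : Fin n} {F : Finset (Finset (Fin n))}
    {s : Fin n × Fin n × Fin n} {R : Finset (Fin n)} (h : Mv P x y F s R) :
    SS P x y (leave y R F) = SS P x y F := by
  ext u
  rw [mem_SS, mem_SS]
  have hx := h.x_notMem
  have h1 : Cov (leave y R F) {x, y, u} ↔ Cov F {x, y, u} := by
    constructor
    · exact cov_of_leave h.1
    · intro h2
      refine cov_leave h2 ?_
      intro h3
      exact hx (h3 (by simp))
  rw [h1]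

/-- the pairs of the triple are in `GG` after the move -/
theorem pair_GG {P : Finset (Finset (Fin n))} {x y : Fin n} {F : Finset (Finset (Fin n))}
    (hF : F ∈ AA P) {s : Fin n × Fin n × Fin n} {R : Finset (Fin n)} (h : Mv P x y F s R)
    {u v : Fin n} (hu : u ∈ R) (hv : v ∈ R) (huv : u ≠ v) (hu' : u ∈ SS P x y F)
    (hv' : v ∈ SS P x y F) : (u, v) ∈ GG P x y (leave y R F) := by
  rw [mem_GG, h.SS_eq]
  obtain ⟨h1, h2⟩ := mem_AA.1 hF
  refine ⟨⟨hu', hv'⟩, huv, ?_, ?_⟩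
  · intro h3
    refine h2 _ h3 ⟨R, h.1, ?_⟩
    intro z hz
    simp only [mem_insert, mem_singleton] at hz
    rcases hz with rfl | rfl <;> assumption
  · refine not_cov_leave h1 h.1 ?_ ?_ (by simp)
    · rw [card_three (mem_SS.1 hu').2.1.symm (mem_SS.1 hv').2.1.symm huv]
    · intro z hz
      simp only [mem_insert, mem_singleton] at hz
      rcases hz with rfl | rfl | rfl
      · exact h.2.1
      · exact hu
      · exact hv

theorem mem_leave {F : Finset (Finset (Fin n))} {R H : Finset (Fin n)} {y : Fin n}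
    (h : H ∈ leave y R F) : H = R.erase y ∨ (H ∈ F ∧ H ≠ R) := by
  unfold leave at h
  split_ifs at h
  · rcases mem_insert.1 h with h | h
    · exact Or.inl h
    · exact Or.inr ⟨mem_of_mem_erase h, ne_of_mem_erase h⟩
  · exact Or.inr ⟨mem_of_mem_erase h, ne_of_mem_erase h⟩

theorem mem_leave_of {F : Finset (Finset (Fin n))} {R H : Finset (Fin n)} {y : Fin n}
    (h : H ∈ F) (hne : H ≠ R) : H ∈ leave y R F := by
  unfold leave
  split_ifs
  · exact mem_insert_of_mem (mem_erase.2 ⟨hne, h⟩)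
  · exact mem_erase.2 ⟨hne, h⟩

theorem leave_BB {P : Finset (Finset (Fin n))} {x y : Fin n} {t h a : ℕ}
    {F : Finset (Finset (Fin n))} (hF : F ∈ BB P x y t h a) {s : Fin n × Fin n × Fin n}
    {R : Finset (Fin n)} (hM : Mv P x y F s R) :
    leave y R F ∈ BB P x y t h (a + h ^ 2) := by
  classical
  obtain ⟨hFT, hh, ha⟩ := mem_BB.1 hF
  obtain ⟨hA, h4, ht⟩ := mem_FT.1 hFT
  obtain ⟨hfam, hP⟩ := mem_AA.1 hA
  have hx := hM.x_notMem
  rw [mem_BB, mem_FT, mem_AA]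
  refine ⟨⟨⟨leave_fam hfam hM.1 hM.2.1, fun e he hc => hP e he (cov_of_leave hM.1 hc)⟩, ?_, ?_⟩,
    ?_, ?_⟩
  · intro H hH hxH hyH
    rcases mem_leave hH with rfl | ⟨h1, -⟩
    · exact absurd hyH (notMem_erase _ _)
    · exact h4 H h1 hxH hyH
  · rw [← ht]
    congr 1
    ext H
    simp only [mem_filter]
    constructor
    · rintro ⟨h1, h2, h3⟩
      rcases mem_leave h1 with rfl | ⟨h1, -⟩
      · exact absurd h3 (notMem_erase _ _)
      · exact ⟨h1, h2, h3⟩
    · rintro ⟨h1, h2, h3⟩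
      exact ⟨mem_leave_of h1 (fun h5 => hx (h5 ▸ h2)), h2, h3⟩
  · intro H hH
    rcases mem_leave hH with rfl | ⟨h1, -⟩
    · exact (card_le_card (erase_subset _ _)).trans (hh R hM.1)
    · exact hh H h1
  · have h1 : GG P x y (leave y R F) ⊆ GG P x y F ∪ R ×ˢ R := by
      intro p hp
      rw [mem_union]
      by_cases hpR : p.1 ∈ R ∧ p.2 ∈ R
      · exact Or.inr (mem_product.2 hpR)
      · left
        rw [mem_GG, hM.SS_eq] at hp
        rw [mem_GG]
        refine ⟨hp.1, hp.2.1, hp.2.2.1, fun hc => hp.2.2.2 (cov_leave hc ?_)⟩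
        intro h5
        exact hpR ⟨h5 (by simp), h5 (by simp)⟩
    calc (GG P x y (leave y R F)).card ≤ (GG P x y F ∪ R ×ˢ R).card := card_le_card h1
      _ ≤ (GG P x y F).card + (R ×ˢ R).card := card_union_le _ _
      _ ≤ a + h ^ 2 := by
        rw [card_product, ← sq]
        exact Nat.add_le_add ha (Nat.pow_le_pow_left (hh R hM.1) 2)

end E

open E

theorem move2 {P : Finset (Finset (Fin n))} (hP : Pairs P) {x y : Fin n} {t d h a c : ℕ}
    (hxy : x ≠ y) (hd : ∀ z, deg P z ≤ d)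
    (hc : c + (n * d + a + (d + 2 * t) * n) ≤
      (n - (2 + 2 * d + 2 * t)) * (n - (3 + 2 * d + 2 * t))) :
    c ^ 2 * (BB P x y t h a).card ^ 2 ≤
      (a + h ^ 2) ^ 3 * (BB P x y t h (a + h ^ 2)).card ^ 2 := by
  classical
  -- the triples
  set TT : Finset (Finset (Fin n)) → Finset (Fin n × Fin n × Fin n) := fun F =>
    univ.filter (fun s => ∃ R, Mv P x y F s R) with hTT
  set KK : Finset (Finset (Fin n)) → Finset (Fin n × Fin n × Fin n) := fun F =>
    univ.filter (fun s => (s.1, s.2.1) ∈ GG P x y F ∧ (s.2.1, s.2.2) ∈ GG P x y F ∧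
      (s.1, s.2.2) ∈ GG P x y F) with hKK
  -- many triples
  have h1 : ∀ F ∈ BB P x y t h a, c ≤ (TT F).card := by
    intro F hF
    obtain ⟨hFT, -, ha⟩ := mem_BB.1 hF
    have e1 := card_SS hxy hd hFT
    have e2 := many_pairs hP hxy hd hFT
    have e3 : (n - (2 + 2 * d + 2 * t)) * (n - (3 + 2 * d + 2 * t)) ≤
        (SS P x y F).card * ((SS P x y F).card - 1) :=
      Nat.mul_le_mul (by omega) (by omega)
    have e4 : c ≤ ((SS P x y F ×ˢ SS P x y F).filter (fun p => p.1 ≠ p.2 ∧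
        ∃ R ∈ F, ({y, p.1, p.2} : Finset (Fin n)) ⊆ R ∧ 3 ≤ (R ∩ SS P x y F).card)).card := by
      omega
    refine e4.trans ?_
    have e5 : ((SS P x y F ×ˢ SS P x y F).filter (fun p => p.1 ≠ p.2 ∧
        ∃ R ∈ F, ({y, p.1, p.2} : Finset (Fin n)) ⊆ R ∧ 3 ≤ (R ∩ SS P x y F).card)) ⊆
        (TT F).image (fun s => (s.1, s.2.1)) := by
      intro p hp
      obtain ⟨hp1, hp2, R, hR, hR1, hR2⟩ := mem_filter.1 hp
      rw [mem_product] at hp1
      obtain ⟨w, hw, hw1⟩ : ∃ w ∈ R ∩ SS P x y F, w ∉ ({p.1, p.2} : Finset (Fin n)) := by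
        apply exists_mem_notMem_of_card_lt_card
        exact lt_of_le_of_lt card_le_two (by omega)
      rw [mem_inter] at hw
      simp only [mem_insert, mem_singleton, not_or] at hw1
      rw [mem_image]
      refine ⟨(p.1, p.2, w), ?_, rfl⟩
      rw [hTT, mem_filter]
      exact ⟨mem_univ _, R, hR, hR1 (by simp), hR1 (by simp), hR1 (by simp), hw.1, hp2,
        Ne.symm hw1.2, Ne.symm hw1.1, hp1.1, hp1.2, hw.2⟩
    exact (card_le_card e5).trans card_image_le
  -- the moves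
  have hch : ∀ q : Finset (Finset (Fin n)) × (Fin n × Fin n × Fin n), ∃ R,
      q.2 ∈ TT q.1 → Mv P x y q.1 q.2 R := by
    intro q
    by_cases hq : q.2 ∈ TT q.1
    · obtain ⟨R, hR⟩ := (mem_filter.1 hq).2
      exact ⟨R, fun _ => hR⟩
    · exact ⟨∅, fun h => absurd h hq⟩
  choose R hR using hch
  have h2 : ((BB P x y t h a).sigma TT).card ≤ ((BB P x y t h (a + h ^ 2)).sigma KK).card := by
    apply card_le_card_of_injOn
      (fun q => (⟨leave y (R (q.1, q.2)) q.1, q.2⟩ :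
        (_ : Finset (Finset (Fin n))) × (Fin n × Fin n × Fin n)))
    · intro q hq
      obtain ⟨hq1, hq2⟩ := mem_sigma.1 (mem_coe.1 hq)
      have hM := hR (q.1, q.2) hq2
      have hA := (mem_FT.1 (mem_BB.1 hq1).1).1
      obtain ⟨m1, m2, m3, m4, m5, m6, m7, m8, m9, m10, m11⟩ := id hM
      refine mem_coe.2 (mem_sigma.2 ⟨leave_BB hq1 hM, ?_⟩)
      rw [hKK, mem_filter]
      exact ⟨mem_univ _, pair_GG hA hM m3 m4 m6 m9 m10, pair_GG hA hM m4 m5 m7 m10 m11,
        pair_GG hA hM m3 m5 m8 m9 m11⟩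
    · intro q hq q' hq' he
      obtain ⟨hq1, hq2⟩ := mem_sigma.1 (mem_coe.1 hq)
      obtain ⟨hq1', hq2'⟩ := mem_sigma.1 (mem_coe.1 hq')
      have hM := hR (q.1, q.2) hq2
      have hM' := hR (q'.1, q'.2) hq2'
      obtain ⟨F, s⟩ := q
      obtain ⟨F', s'⟩ := q'
      simp only [Sigma.mk.injEq, heq_eq_eq] at he hM hM' hq1 hq1'
      obtain ⟨he1, rfl⟩ := he
      have key : ∀ F₀ : Finset (Finset (Fin n)), F₀ ∈ BB P x y t h a → ∀ R₀,
          Mv P x y F₀ s R₀ → join y {s.1, s.2.1, s.2.2} (leave y R₀ F₀) = F₀ := by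
        intro F₀ hF₀ R₀ h0
        have hA := (mem_FT.1 (mem_BB.1 hF₀).1).1
        obtain ⟨m1, m2, m3, m4, m5, m6, m7, m8, m9, m10, m11⟩ := id h0
        refine join_leave (mem_AA.1 hA).1 m1 m2 (card_three m6 m8 m7) ?_
        intro z hz
        simp only [mem_insert, mem_singleton] at hz
        rw [mem_erase]
        rcases hz with rfl | rfl | rfl
        · exact ⟨(mem_SS.1 m9).2.1, m3⟩
        · exact ⟨(mem_SS.1 m10).2.1, m4⟩
        · exact ⟨(mem_SS.1 m11).2.1, m5⟩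
      have hFF : F = F' := by
        rw [← key F hq1 _ hM, ← key F' hq1' _ hM', he1]
      rw [hFF]
  rw [card_sigma, card_sigma] at h2
  have h3 : c * (BB P x y t h a).card ≤ ∑ F ∈ BB P x y t h (a + h ^ 2), (KK F).card := by
    refine le_trans ?_ h2
    rw [mul_comm, ← smul_eq_mul]
    exact card_nsmul_le_sum _ _ _ h1
  have h4 : ∀ F ∈ BB P x y t h (a + h ^ 2), (KK F).card ^ 2 ≤ (a + h ^ 2) ^ 3 := by
    intro F hF
    have e1 := triangles (GG P x y F)
    refine le_trans (Nat.pow_le_pow_left (card_le_card ?_) 2)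
      (e1.trans (Nat.pow_le_pow_left (mem_BB.1 hF).2.2 3))
    intro s hs
    rw [hKK, mem_filter] at hs
    simpa using hs.2
  have h5 : (∑ F ∈ BB P x y t h (a + h ^ 2), (KK F).card) ^ 2 ≤
      (BB P x y t h (a + h ^ 2)).card * ∑ F ∈ BB P x y t h (a + h ^ 2), (KK F).card ^ 2 :=
    sq_sum_le_card_mul_sum_sq
  have h6 : ∑ F ∈ BB P x y t h (a + h ^ 2), (KK F).card ^ 2 ≤
      (BB P x y t h (a + h ^ 2)).card * (a + h ^ 2) ^ 3 := by
    rw [← smul_eq_mul]
    exact sum_le_card_nsmul _ _ _ h4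
  calc c ^ 2 * (BB P x y t h a).card ^ 2 = (c * (BB P x y t h a).card) ^ 2 := by ring
    _ ≤ (∑ F ∈ BB P x y t h (a + h ^ 2), (KK F).card) ^ 2 := Nat.pow_le_pow_left h3 2
    _ ≤ (BB P x y t h (a + h ^ 2)).card * ∑ F ∈ BB P x y t h (a + h ^ 2), (KK F).card ^ 2 := h5
    _ ≤ (BB P x y t h (a + h ^ 2)).card * ((BB P x y t h (a + h ^ 2)).card * (a + h ^ 2) ^ 3) :=
        Nat.mul_le_mul_left _ h6
    _ = (a + h ^ 2) ^ 3 * (BB P x y t h (a + h ^ 2)).card ^ 2 := by ring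

end Pool.Agent.R4P
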