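import Pool.Agent.R4P.RpA

/-!
MP_039b14_co, rank four: move 3, a new block through `x` and `y`.
-/

set_option autoImplicit false

namespace Pool.Agent.R4P

open Finset H38Pav

variable {n : ℕ}

/-- a new member all of whose triples are not covered -/
theorem fam_insert {G : Finset (Finset (Fin n))} (hG : IsFam G) {B : Finset (Fin n)} (hB : 4 ≤ B.card)
    (hBn : B.card < n) (h : ∀ X ⊆ B, X.card = 3 → ¬ Cov G X) : IsFam (insert B G) := by
  have key : ∀ H ∈ G, (H ∩ B).card ≤ 2 := by
    intro H hH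
    by_contra hc
    obtain ⟨X, hX, hX3⟩ := exists_subset_card_eq (s := H ∩ B) (n := 3) (by omega)
    exact h X (hX.trans inter_subset_right) hX3 ⟨H, hH, hX.trans inter_subset_left⟩
  refine ⟨?_, ?_⟩
  · intro H hH
    rcases mem_insert.1 hH with rfl | hH
    · exact ⟨hB, hBn⟩
    · exact hG.1 H hH
  · intro H hH K hK hHK
    rcases mem_insert.1 hH with h1 | h1 <;> rcases mem_insert.1 hK with h2 | h2
    · exact absurd (h1.trans h2.symm) hHK
    · rw [h1, inter_comm]
      exact key K h2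
    · rw [h2]
      exact key H h1
    · exact hG.2 H h1 K h2 hHK

section

variable {P : Finset (Finset (Fin n))} {x y u v : Fin n} {F G : Finset (Finset (Fin n))}

/-- the new block -/
def blk4 (x y u v : Fin n) : Finset (Fin n) := {x, y, u, v}

theorem card_blk4 (hxy : x ≠ y) (hux : u ≠ x) (huy : u ≠ y) (hvx : v ≠ x) (hvy : v ≠ y) (huv : u ≠ v) :
    (blk4 x y u v).card = 4 := by
  unfold blk4
  rw [card_insert_of_notMem, card_insert_of_notMem, card_insert_of_notMem, card_singleton]
  · simpa using huv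
  · simp only [mem_insert, mem_singleton, not_or]
    exact ⟨fun h => huy h.symm, fun h => hvy h.symm⟩
  · simp only [mem_insert, mem_singleton, not_or]
    exact ⟨hxy, fun h => hux h.symm, fun h => hvx h.symm⟩

/-- the family with the new block -/
theorem new_fam (hP : Pairs P) (hxy : x ≠ y) (hxyP : ({x, y} : Finset (Fin n)) ∉ P) (hn : 5 ≤ n)
    (hux : u ≠ x) (huy : u ≠ y) (hvx : v ≠ x) (hvy : v ≠ y) (huv : u ≠ v)
    (p1 : ({x, u} : Finset (Fin n)) ∉ P) (p2 : ({y, u} : Finset (Fin n)) ∉ P)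
    (p3 : ({x, v} : Finset (Fin n)) ∉ P) (p4 : ({y, v} : Finset (Fin n)) ∉ P)
    (p5 : ({u, v} : Finset (Fin n)) ∉ P) (hG : IsFam G) (hGP : ∀ e ∈ P, ¬ Cov G e)
    (c1 : ¬ Cov G {x, y, u}) (c2 : ¬ Cov G {x, y, v}) (c3 : ¬ Cov G {y, u, v}) (c4 : ¬ Cov G {x, u, v}) :
    IsFam (insert (blk4 x y u v) G) ∧ (∀ e ∈ P, ¬ Cov (insert (blk4 x y u v) G) e) ∧ blk4 x y u v ∉ G := by
  have hc := card_blk4 hxy hux huy hvx hvy huv
  have hmem : ∀ z, z ∈ blk4 x y u v ↔ z = x ∨ z = y ∨ z = u ∨ z = v := by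
    intro z
    unfold blk4
    simp only [mem_insert, mem_singleton]
  refine ⟨fam_insert hG hc.ge (by omega) ?_, ?_, ?_⟩
  · intro X hX hX3 hcov
    obtain ⟨z, hz, hzX⟩ : ∃ z ∈ blk4 x y u v, z ∉ X := by
      by_contra hno
      push Not at hno
      have h1 := card_le_card (show blk4 x y u v ⊆ X from hno)
      omega
    have hXe : X = (blk4 x y u v).erase z := by
      refine eq_of_subset_of_card_le (fun a ha => mem_erase.2 ⟨fun h => hzX (h ▸ ha), hX ha⟩) ?_
      rw [card_erase_of_mem hz]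
      omega
    have hsub : ∀ a, a ∈ blk4 x y u v → a ≠ z → a ∈ X := by
      intro a ha haz
      rw [hXe]
      exact mem_erase.2 ⟨haz, ha⟩
    obtain ⟨H, hH, hXH⟩ := hcov
    have hin : ∀ a, a ∈ blk4 x y u v → a ≠ z → a ∈ H := fun a ha haz => hXH (hsub a ha haz)
    rcases (hmem z).1 hz with rfl | rfl | rfl | rfl
    · refine c3 ⟨H, hH, fun a ha => ?_⟩
      simp only [mem_insert, mem_singleton] at ha
      rcases ha with rfl | rfl | rfl
      · exact hin _ ((hmem _).2 (by tauto)) (Ne.symm hxy)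
      · exact hin _ ((hmem _).2 (by tauto)) hux
      · exact hin _ ((hmem _).2 (by tauto)) hvx
    · refine c4 ⟨H, hH, fun a ha => ?_⟩
      simp only [mem_insert, mem_singleton] at ha
      rcases ha with rfl | rfl | rfl
      · exact hin _ ((hmem _).2 (by tauto)) hxy
      · exact hin _ ((hmem _).2 (by tauto)) huy
      · exact hin _ ((hmem _).2 (by tauto)) hvy
    · refine c2 ⟨H, hH, fun a ha => ?_⟩
      simp only [mem_insert, mem_singleton] at ha
      rcases ha with rfl | rfl | rfl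
      · exact hin _ ((hmem _).2 (by tauto)) (Ne.symm hux)
      · exact hin _ ((hmem _).2 (by tauto)) (Ne.symm huy)
      · exact hin _ ((hmem _).2 (by tauto)) (Ne.symm huv)
    · refine c1 ⟨H, hH, fun a ha => ?_⟩
      simp only [mem_insert, mem_singleton] at ha
      rcases ha with rfl | rfl | rfl
      · exact hin _ ((hmem _).2 (by tauto)) (Ne.symm hvx)
      · exact hin _ ((hmem _).2 (by tauto)) (Ne.symm hvy)
      · exact hin _ ((hmem _).2 (by tauto)) huv
  · rintro e he ⟨H, hH, heH⟩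
    rcases mem_insert.1 hH with rfl | hH
    · obtain ⟨a, b, hab, rfl⟩ := card_eq_two.1 (hP e he)
      have ha := (hmem a).1 (heH (by simp))
      have hb := (hmem b).1 (heH (by simp))
      have q0 : ({y, x} : Finset (Fin n)) ∉ P := by rw [pair_comm]; exact hxyP
      have q1 : ({u, x} : Finset (Fin n)) ∉ P := by rw [pair_comm]; exact p1
      have q2 : ({u, y} : Finset (Fin n)) ∉ P := by rw [pair_comm]; exact p2
      have q3 : ({v, x} : Finset (Fin n)) ∉ P := by rw [pair_comm]; exact p3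
      have q4 : ({v, y} : Finset (Fin n)) ∉ P := by rw [pair_comm]; exact p4
      have q5 : ({v, u} : Finset (Fin n)) ∉ P := by rw [pair_comm]; exact p5
      rcases ha with rfl | rfl | rfl | rfl <;> rcases hb with rfl | rfl | rfl | rfl <;>
        first | exact hab rfl | contradiction
    · exact hGP e he ⟨H, hH, heH⟩
  · intro hB
    refine c1 ⟨_, hB, fun a ha => ?_⟩
    simp only [mem_insert, mem_singleton] at ha
    rw [hmem]
    tauto

end

open Classical in
/-- the family with the new block and, if necessary, `x` leaves the member through `x`, `u`, `v` -/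
noncomputable def mv3 (x y : Fin n) (F : Finset (Finset (Fin n))) (p : Fin n × Fin n) :
    Finset (Finset (Fin n)) :=
  insert (blk4 x y p.1 p.2) (if h : Cov F {x, p.1, p.2} then leave x h.choose F else F)

open Classical in
theorem mv3_spec {P : Finset (Finset (Fin n))} (hP : Pairs P) {x y : Fin n} (hxy : x ≠ y)
    (hxyP : ({x, y} : Finset (Fin n)) ∉ P) (hn : 5 ≤ n) {t : ℕ} {F : Finset (Finset (Fin n))}
    (hF : F ∈ FT P x y t) {p : Fin n × Fin n} (hp : p ∈ GG P x y F) :
    mv3 x y F p ∈ FT P x y (t + 1) ∧ blk4 x y p.1 p.2 ∈ mv3 x y F p ∧ x ∈ blk4 x y p.1 p.2 ∧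
      y ∈ blk4 x y p.1 p.2 ∧ p ∈ (((blk4 x y p.1 p.2).erase x).erase y).offDiag ∧
      (F = (mv3 x y F p).erase (blk4 x y p.1 p.2) ∨
        ∃ w, F = join x {p.1, p.2, w} ((mv3 x y F p).erase (blk4 x y p.1 p.2))) := by
  obtain ⟨u, v⟩ := p
  unfold GG at hp
  rw [mem_filter, mem_product] at hp
  obtain ⟨⟨hu, hv⟩, huv, huvP, huvC⟩ := hp
  simp only at hu hv huv huvP huvC
  unfold SS at hu hv
  rw [mem_filter] at hu hv
  obtain ⟨-, hux, huy, u1, u2, u3⟩ := hu
  obtain ⟨-, hvx, hvy, v1, v2, v3⟩ := hv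
  unfold FT at hF
  rw [mem_filter] at hF
  obtain ⟨hFA, hF4, hFt⟩ := hF
  unfold AA at hFA
  rw [mem_filter] at hFA
  obtain ⟨hFf, hFP⟩ := hFA
  unfold fams at hFf
  rw [mem_filter] at hFf
  have hFam := hFf.2
  obtain ⟨G, hGd⟩ : ∃ G, G = (if h : Cov F {x, u, v} then leave x h.choose F else F) := ⟨_, rfl⟩
  have hmv : mv3 x y F (u, v) = insert (blk4 x y u v) G := by rw [hGd]; rfl
  have hxm : x ∈ blk4 x y u v := by unfold blk4; simp
  have hym : y ∈ blk4 x y u v := by unfold blk4; simp
  -- the properties of `G`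
  have hprop : IsFam G ∧ (∀ X, Cov G X → Cov F X) ∧ ¬ Cov G {x, u, v} ∧
      (G.filter (fun H => x ∈ H ∧ y ∈ H)) = (F.filter (fun H => x ∈ H ∧ y ∈ H)) ∧
      (F = G ∨ ∃ w, F = join x {u, v, w} G) := by
    by_cases hc : Cov F {x, u, v}
    · have hG2 : G = leave x hc.choose F := by rw [hGd, dif_pos hc]
      obtain ⟨R, hR⟩ : ∃ R, R = hc.choose := ⟨_, rfl⟩
      have hR1 : R ∈ F := by rw [hR]; exact hc.choose_spec.1
      have hR2 : ({x, u, v} : Finset (Fin n)) ⊆ R := by rw [hR]; exact hc.choose_spec.2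
      rw [← hR] at hG2
      have hxR : x ∈ R := hR2 (by simp)
      have huR : u ∈ R := hR2 (by simp)
      have hvR : v ∈ R := hR2 (by simp)
      have hyR : y ∉ R := by
        intro h
        refine huvC ⟨R, hR1, fun a ha => ?_⟩
        simp only [mem_insert, mem_singleton] at ha
        rcases ha with rfl | rfl | rfl
        · exact h
        · exact huR
        · exact hvR
      have hc3 : ({x, u, v} : Finset (Fin n)).card = 3 := by
        rw [card_insert_of_notMem, card_pair huv]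
        simp only [mem_insert, mem_singleton, not_or]
        exact ⟨Ne.symm hux, Ne.symm hvx⟩
      refine ⟨?_, ?_, ?_, ?_, Or.inr ?_⟩
      · rw [hG2]
        exact leave_fam hFam hR1 hxR
      · intro X hX
        rw [hG2] at hX
        exact cov_of_leave hR1 hX
      · rw [hG2]
        exact not_cov_leave hFam hR1 hc3.ge hR2 (by simp)
      · ext H
        rw [mem_filter, mem_filter, hG2]
        unfold leave
        constructor
        · rintro ⟨h1, h2, h3⟩
          refine ⟨?_, h2, h3⟩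
          split_ifs at h1
          · rcases mem_insert.1 h1 with rfl | h1
            · exact absurd h2 (by simp)
            · exact (mem_erase.1 h1).2
          · exact (mem_erase.1 h1).2
        · rintro ⟨h1, h2, h3⟩
          refine ⟨?_, h2, h3⟩
          have h4 : H ∈ F.erase R := mem_erase.2 ⟨fun h => hyR (h ▸ h3), h1⟩
          split_ifs
          · exact mem_insert_of_mem h4
          · exact h4
      · obtain ⟨w, hw, hwn⟩ : ∃ w ∈ R, w ∉ ({x, u, v} : Finset (Fin n)) := by
          by_contra hno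
          push Not at hno
          have h1 := card_le_card (show R ⊆ {x, u, v} from hno)
          have h2 := (hFam.1 R hR1).1
          omega
        simp only [mem_insert, mem_singleton, not_or] at hwn
        refine ⟨w, ?_⟩
        rw [hG2]
        refine (join_leave hFam hR1 hxR ?_ ?_).symm
        · rw [card_insert_of_notMem, card_pair (Ne.symm hwn.2.2)]
          simp only [mem_insert, mem_singleton, not_or]
          exact ⟨huv, Ne.symm hwn.2.1⟩
        · intro a ha
          simp only [mem_insert, mem_singleton] at ha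
          rcases ha with rfl | rfl | rfl
          · exact mem_erase.2 ⟨hux, huR⟩
          · exact mem_erase.2 ⟨hvx, hvR⟩
          · exact mem_erase.2 ⟨hwn.1, hw⟩
    · have hG2 : G = F := by rw [hGd, dif_neg hc]
      rw [hG2]
      exact ⟨hFam, fun X h => h, hc, rfl, Or.inl rfl⟩
  obtain ⟨g1, g2, g3, g4, g5⟩ := hprop
  obtain ⟨n1, n2, n3⟩ := new_fam hP hxy hxyP hn hux huy hvx hvy huv u1 u2 v1 v2 huvP g1
    (fun e he h => hFP e he (g2 e h)) (fun h => u3 (g2 _ h)) (fun h => v3 (g2 _ h)) (fun h => huvC (g2 _ h)) g3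
  have hc4 := card_blk4 hxy hux huy hvx hvy huv
  have her : (mv3 x y F (u, v)).erase (blk4 x y u v) = G := by
    rw [hmv, erase_insert n3]
  refine ⟨?_, ?_, hxm, hym, ?_, ?_⟩
  · rw [hmv]
    unfold FT AA fams
    rw [mem_filter, mem_filter, mem_filter]
    refine ⟨⟨⟨mem_univ _, n1⟩, n2⟩, ?_, ?_⟩
    · intro H hH hxH hyH
      rcases mem_insert.1 hH with rfl | hH
      · exact hc4
      · have h1 : H ∈ G.filter (fun H => x ∈ H ∧ y ∈ H) := mem_filter.2 ⟨hH, hxH, hyH⟩
        rw [g4, mem_filter] at h1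
        exact hF4 H h1.1 hxH hyH
    · rw [filter_insert, if_pos ⟨hxm, hym⟩, card_insert_of_notMem, g4, hFt]
      intro h
      exact n3 (mem_filter.1 h).1
  · rw [hmv]
    exact mem_insert_self _ _
  · rw [mem_offDiag, mem_erase, mem_erase, mem_erase, mem_erase]
    refine ⟨⟨huy, hux, ?_⟩, ⟨hvy, hvx, ?_⟩, huv⟩
    · unfold blk4; simp
    · unfold blk4; simp
  · simp only
    rw [her]
    exact g5

open Classical in
theorem move3 {P : Finset (Finset (Fin n))} (hP : Pairs P) {x y : Fin n} (hxy : x ≠ y)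
    (hxyP : ({x, y} : Finset (Fin n)) ∉ P) (hn : 5 ≤ n) (t g : ℕ) :
    g * ((FT P x y t).filter (fun F => g ≤ (GG P x y F).card)).card ≤
      2 * (t + 1) * (n + 1) * (FT P x y (t + 1)).card := by
  obtain ⟨A, hA⟩ : ∃ A, A = (FT P x y t).filter (fun F => g ≤ (GG P x y F).card) := ⟨_, rfl⟩
  rw [← hA]
  have h1 : g * A.card ≤ (A.sigma (fun F => GG P x y F)).card := by
    rw [card_sigma, mul_comm, ← smul_eq_mul]
    refine card_nsmul_le_sum _ _ _ (fun F hF => ?_)
    rw [hA, mem_filter] at hF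
    exact hF.2
  refine h1.trans ?_
  have hmem : ∀ a ∈ A.sigma (fun F => GG P x y F), a.1 ∈ FT P x y t ∧ a.2 ∈ GG P x y a.1 := by
    intro a ha
    rw [mem_sigma, hA, mem_filter] at ha
    exact ⟨ha.1.1, ha.2⟩
  refine card_le_mul_card_image_of_maps_to (f := fun a : (_ : Finset (Finset (Fin n))) × (Fin n × Fin n) =>
    mv3 x y a.1 a.2) (fun a ha => (mv3_spec hP hxy hxyP hn (hmem a ha).1 (hmem a ha).2).1) _ ?_
  intro F' hF'
  obtain ⟨C, hC⟩ : ∃ C : Finset ((_ : Finset (Fin n)) × ((Fin n × Fin n) × Option (Fin n))),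
      C = (F'.filter (fun H => x ∈ H ∧ y ∈ H)).sigma (fun B => ((B.erase x).erase y).offDiag ×ˢ univ) := ⟨_, rfl⟩
  have hF4 : ∀ B ∈ F'.filter (fun H => x ∈ H ∧ y ∈ H), (((B.erase x).erase y).offDiag ×ˢ
      (univ : Finset (Option (Fin n)))).card = 2 * (n + 1) := by
    intro B hB
    rw [mem_filter] at hB
    unfold FT at hF'
    rw [mem_filter] at hF'
    have h2 := hF'.2.1 B hB.1 hB.2.1 hB.2.2
    have h3 : ((B.erase x).erase y).card = 2 := by
      rw [card_erase_of_mem (mem_erase.2 ⟨Ne.symm hxy, hB.2.2⟩), card_erase_of_mem hB.2.1]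
      omega
    rw [card_product, offDiag_card, h3, card_univ, Fintype.card_option, Fintype.card_fin]
  have hCc : C.card = 2 * (t + 1) * (n + 1) := by
    rw [hC, card_sigma, sum_congr rfl hF4, sum_const, smul_eq_mul]
    unfold FT at hF'
    rw [mem_filter] at hF'
    rw [hF'.2.2]
    ring
  rw [← hCc]
  refine (card_le_card (t := C.image (fun c => (⟨(match c.2.2 with
    | none => F'.erase c.1
    | some w => join x {c.2.1.1, c.2.1.2, w} (F'.erase c.1)), c.2.1⟩ :
      (_ : Finset (Finset (Fin n))) × (Fin n × Fin n)))) ?_).trans card_image_le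
  intro a ha
  rw [mem_filter] at ha
  obtain ⟨ha, hae⟩ := ha
  obtain ⟨s1, s2, s3, s4, s5, s6⟩ := mv3_spec hP hxy hxyP hn (hmem a ha).1 (hmem a ha).2
  rw [hae] at s2 s6
  rw [mem_image]
  rcases s6 with s6 | ⟨w, s6⟩
  · refine ⟨⟨blk4 x y a.2.1 a.2.2, (a.2, none)⟩, ?_, ?_⟩
    · rw [hC, mem_sigma, mem_filter, mem_product]
      exact ⟨⟨s2, s3, s4⟩, s5, mem_univ _⟩
    · simp only
      rw [← s6]
  · refine ⟨⟨blk4 x y a.2.1 a.2.2, (a.2, some w)⟩, ?_, ?_⟩
    · rw [hC, mem_sigma, mem_filter, mem_product]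
      exact ⟨⟨s2, s3, s4⟩, s5, mem_univ _⟩
    · simp only
      rw [← s6]

end Pool.Agent.R4P
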