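import Pool.Agent.R4P.RpB
import Pool.Agent.R4P.RpE
import Pool.Agent.R4P.RpF

/-!
MP_039b14_co, rank four, module RpG: the step. Families without a member through `x` and `y` are
rarer by any power of `n` than the families in `AA P`.
-/

set_option autoImplicit false

namespace Pool.Agent.R4P

open Finset H38Pav

variable {n : ℕ}

theorem AA_insert_pair (P : Finset (Finset (Fin n))) (x y : Fin n) :
    AA (insert {x, y} P) = FT P x y 0 := by
  classical
  ext F
  simp only [AA, FT, mem_filter, Finset.card_eq_zero, Finset.filter_eq_empty_iff, mem_insert]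
  constructor
  · rintro ⟨h1, h2⟩
    have h3 : ∀ H ∈ F, ¬ (x ∈ H ∧ y ∈ H) := by
      intro H hH hxy
      apply h2 {x, y} (Or.inl rfl)
      refine ⟨H, hH, ?_⟩
      intro z hz
      simp only [mem_insert, mem_singleton] at hz
      rcases hz with rfl | rfl
      · exact hxy.1
      · exact hxy.2
    refine ⟨⟨h1, fun e he => h2 e (Or.inr he)⟩, ?_, ?_⟩
    · intro H hH hx hy
      exact absurd ⟨hx, hy⟩ (h3 H hH)
    · intro H hH
      exact h3 H hH
  · rintro ⟨⟨h1, h2⟩, _, h3⟩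
    refine ⟨h1, ?_⟩
    rintro e (rfl | he)
    · rintro ⟨H, hH, hsub⟩
      exact h3 hH ⟨hsub (by simp), hsub (by simp)⟩
    · exact h2 e he

theorem FT_card_le (P : Finset (Finset (Fin n))) (x y : Fin n) (t : ℕ) :
    (FT P x y t).card ≤ (AA P).card := card_le_card (filter_subset _ _)

theorem BB_card_le (P : Finset (Finset (Fin n))) (x y : Fin n) (t h a : ℕ) :
    (BB P x y t h a).card ≤ (AA P).card :=
  (card_le_card (filter_subset _ _)).trans (FT_card_le P x y t)

/-- the numerical condition of `move2` -/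
theorem cond_move2 {n q J r t : ℕ} (hq : q ^ 5 ≤ n) (hJ : 1000 * (J + 1) ≤ q) (hr : r ≤ J)
    (ht : t ≤ J) :
    n * n / 2 + (n * (n / 100) + r * q ^ 6 + (n / 100 + 2 * t) * n) ≤
      (n - (2 + 2 * (n / 100) + 2 * t)) * (n - (3 + 2 * (n / 100) + 2 * t)) := by
  have hqn : q ≤ n := le_trans (Nat.le_self_pow (by norm_num) q) hq
  have hq1 : 1 ≤ q := by omega
  set m := n / 100 with hm
  have h100 : 100 * m ≤ n := by omega
  have hr6 : r * q ^ 6 * 1000 ≤ n * n := by
    calc r * q ^ 6 * 1000 = (1000 * r) * q ^ 6 := by ring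
      _ ≤ q * q ^ 6 := Nat.mul_le_mul_right _ (by omega)
      _ = q ^ 7 := by ring
      _ ≤ q ^ 10 := Nat.pow_le_pow_right hq1 (by norm_num)
      _ = q ^ 5 * q ^ 5 := by ring
      _ ≤ n * n := Nat.mul_le_mul hq hq
  have ht1 : 1000 * (t + 1) ≤ n := by omega
  obtain ⟨w, hw⟩ : ∃ w, n = (3 + 2 * m + 2 * t) + w := ⟨n - (3 + 2 * m + 2 * t), by omega⟩
  have e1 : n - (3 + 2 * m + 2 * t) = w := by omega
  have e2 : n - (2 + 2 * m + 2 * t) = w + 1 := by omega
  rw [e1, e2]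
  have hw2 : 97 * n ≤ 100 * w := by omega
  have hdiv : 2 * (n * n / 2) ≤ n * n := Nat.mul_div_le _ _
  have h3 : 100 * (n * m) ≤ n * n := by nlinarith
  have h4 : 1000 * (t * n) ≤ n * n := by nlinarith
  have h5 : (97 * n) * (97 * n) ≤ (100 * w) * (100 * w) := Nat.mul_le_mul hw2 hw2
  nlinarith

theorem one_move {P : Finset (Finset (Fin n))} (hP : Pairs P) {x y : Fin n} (hxy : x ≠ y)
    {q J r t : ℕ} (hd : ∀ z, 100 * deg P z ≤ n) (hq : q ^ 5 ≤ n) (hJ : 1000 * (J + 1) ≤ q)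
    (hr : r ≤ J) (ht : t ≤ J) :
    q * (BB P x y t (q ^ 3) (r * q ^ 6)).card ≤
      4 * (r + 1) ^ 2 * (BB P x y t (q ^ 3) ((r + 1) * q ^ 6)).card := by
  have hq1 : 1 ≤ q := by omega
  have hn2 : 2 ≤ n := by
    have : q ≤ n := le_trans (Nat.le_self_pow (by norm_num) q) hq
    omega
  have hm := move2 (P := P) hP (x := x) (y := y) (t := t) (d := n / 100) (h := q ^ 3)
    (a := r * q ^ 6) (c := n * n / 2) hxy (fun z => by have := hd z; omega)
    (cond_move2 hq hJ hr ht)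
  have e : r * q ^ 6 + (q ^ 3) ^ 2 = (r + 1) * q ^ 6 := by ring
  rw [e] at hm
  set B := (BB P x y t (q ^ 3) (r * q ^ 6)).card with hB
  set B' := (BB P x y t (q ^ 3) ((r + 1) * q ^ 6)).card with hB'
  set c := n * n / 2 with hcdef
  have hc4 : q ^ 10 ≤ 4 * c := by
    have h1 : q ^ 10 ≤ n * n := by
      calc q ^ 10 = q ^ 5 * q ^ 5 := by ring
        _ ≤ n * n := Nat.mul_le_mul hq hq
    have h2 : n * n < 2 * (c + 1) := by
      have := Nat.lt_mul_div_succ (n * n) (b := 2) (by norm_num)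
      simpa [hcdef] using this
    have h3 : 4 ≤ n * n := by nlinarith
    omega
  have h1 : q ^ 18 * (q * B) ^ 2 ≤ q ^ 18 * (4 * (r + 1) ^ 2 * B') ^ 2 := by
    calc q ^ 18 * (q * B) ^ 2 = (q ^ 10) ^ 2 * B ^ 2 := by ring
      _ ≤ (4 * c) ^ 2 * B ^ 2 := Nat.mul_le_mul_right _ (Nat.pow_le_pow_left hc4 2)
      _ = 16 * (c ^ 2 * B ^ 2) := by ring
      _ ≤ 16 * (((r + 1) * q ^ 6) ^ 3 * B' ^ 2) := Nat.mul_le_mul_left _ hm
      _ = q ^ 18 * (16 * (r + 1) ^ 3 * B' ^ 2) := by ring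
      _ ≤ q ^ 18 * (16 * (r + 1) ^ 4 * B' ^ 2) := by
          apply Nat.mul_le_mul_left
          apply Nat.mul_le_mul_right
          apply Nat.mul_le_mul_left
          exact Nat.pow_le_pow_right (by omega) (by norm_num)
      _ = q ^ 18 * (4 * (r + 1) ^ 2 * B') ^ 2 := by ring
  have h2 : (q * B) ^ 2 ≤ (4 * (r + 1) ^ 2 * B') ^ 2 :=
    Nat.le_of_mul_le_mul_left h1 (by positivity)
  exact (Nat.pow_le_pow_iff_left (by norm_num)).1 h2

theorem bb_chain {P : Finset (Finset (Fin n))} (hP : Pairs P) {x y : Fin n} (hxy : x ≠ y)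
    {q J t : ℕ} (hd : ∀ z, 100 * deg P z ≤ n) (hq : q ^ 5 ≤ n) (hJ : 1000 * (J + 1) ≤ q)
    (ht : t ≤ J) (s : ℕ) (hs : s ≤ J) :
    q ^ s * (BB P x y t (q ^ 3) ((J - s + 1) * q ^ 6)).card ≤
      (4 * (J + 1) ^ 2) ^ s * (AA P).card := by
  induction s with
  | zero =>
    simpa using BB_card_le P x y t (q ^ 3) ((J + 1) * q ^ 6)
  | succ s ih =>
    have ih' := ih (by omega)
    have h1 := one_move hP hxy (q := q) (J := J) (r := J - s) (t := t) hd hq hJ (by omega) ht
    have e : J - (s + 1) + 1 = J - s := by omega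
    rw [e]
    calc q ^ (s + 1) * (BB P x y t (q ^ 3) ((J - s) * q ^ 6)).card
        = q ^ s * (q * (BB P x y t (q ^ 3) ((J - s) * q ^ 6)).card) := by ring
      _ ≤ q ^ s * (4 * (J - s + 1) ^ 2 *
            (BB P x y t (q ^ 3) ((J - s + 1) * q ^ 6)).card) := Nat.mul_le_mul_left _ h1
      _ ≤ q ^ s * (4 * (J + 1) ^ 2 *
            (BB P x y t (q ^ 3) ((J - s + 1) * q ^ 6)).card) := by
          apply Nat.mul_le_mul_left
          apply Nat.mul_le_mul_right
          apply Nat.mul_le_mul_left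
          exact Nat.pow_le_pow_left (by omega) 2
      _ = 4 * (J + 1) ^ 2 * (q ^ s *
            (BB P x y t (q ^ 3) ((J - s + 1) * q ^ 6)).card) := by ring
      _ ≤ 4 * (J + 1) ^ 2 * ((4 * (J + 1) ^ 2) ^ s * (AA P).card) :=
          Nat.mul_le_mul_left _ ih'
      _ = (4 * (J + 1) ^ 2) ^ (s + 1) * (AA P).card := by ring

open Classical in
theorem giants_small (P : Finset (Finset (Fin n))) {q J : ℕ} (hn : n < (q + 1) ^ 5)
    (hq : 512 * (32 + J) ≤ q) :
    q ^ J * ((AA P).filter (fun F => ∃ H ∈ F, q ^ 3 < H.card)).card ≤ (AA P).card := by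
  have hq1 : 1 ≤ q := by omega
  have hg := giants P ((q ^ 3 + 1) / 4)
  set k := (q ^ 3 + 1) / 4 with hk
  have hsub : ((AA P).filter (fun F => ∃ H ∈ F, q ^ 3 < H.card)).card ≤
      ((AA P).filter (fun F => ∃ H ∈ F, 4 * k ≤ H.card)).card := by
    apply card_le_card
    intro F hF
    simp only [mem_filter] at hF ⊢
    obtain ⟨h1, H, hH, hc⟩ := hF
    refine ⟨h1, H, hH, ?_⟩
    omega
  have hk8 : q ^ 3 ≤ 8 * k := by
    have : 4 ≤ q ^ 3 := by
      calc 4 ≤ q := by omega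
        _ ≤ q ^ 3 := Nat.le_self_pow (by norm_num) q
    omega
  have hk3 : q ^ 9 ≤ 512 * k ^ 3 := by
    calc q ^ 9 = (q ^ 3) ^ 3 := by ring
      _ ≤ (8 * k) ^ 3 := Nat.pow_le_pow_left hk8 3
      _ = 512 * k ^ 3 := by ring
  have hn32 : n ≤ 32 * q ^ 5 := by
    have h1 : (q + 1) ^ 5 ≤ (2 * q) ^ 5 := Nat.pow_le_pow_left (by omega) 5
    have h2 : (2 * q) ^ 5 = 32 * q ^ 5 := by ring
    omega
  have hexp : n + q * J ≤ k ^ 3 := by
    have h1 : 512 * (32 * q ^ 5 + q * J) ≤ q ^ 9 := by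
      have h3 : q ≤ q ^ 5 := Nat.le_self_pow (by norm_num) q
      have h4 : q ^ 5 ≤ q ^ 8 := Nat.pow_le_pow_right hq1 (by norm_num)
      calc 512 * (32 * q ^ 5 + q * J) ≤ 512 * (32 * q ^ 8 + q ^ 8 * J) := by
            apply Nat.mul_le_mul_left
            apply Nat.add_le_add
            · exact Nat.mul_le_mul_left _ h4
            · exact Nat.mul_le_mul_right _ (h3.trans h4)
        _ = (512 * (32 + J)) * q ^ 8 := by ring
        _ ≤ q * q ^ 8 := Nat.mul_le_mul_right _ hq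
        _ = q ^ 9 := by ring
    omega
  have hpow : 2 ^ n * q ^ J ≤ 2 ^ (k ^ 3) := by
    calc 2 ^ n * q ^ J ≤ 2 ^ n * (2 ^ q) ^ J :=
          Nat.mul_le_mul_left _ (Nat.pow_le_pow_left (Nat.lt_two_pow_self).le J)
      _ = 2 ^ (n + q * J) := by rw [← pow_mul, ← pow_add]
      _ ≤ 2 ^ (k ^ 3) := Nat.pow_le_pow_right (by norm_num) hexp
  set G := ((AA P).filter (fun F => ∃ H ∈ F, 4 * k ≤ H.card)).card with hG
  have h5 : 2 ^ n * (q ^ J * G) ≤ 2 ^ n * (AA P).card := by
    calc 2 ^ n * (q ^ J * G) = G * (2 ^ n * q ^ J) := by ring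
      _ ≤ G * 2 ^ (k ^ 3) := Nat.mul_le_mul_left _ hpow
      _ ≤ 2 ^ n * (AA P).card := hg
  calc q ^ J * ((AA P).filter (fun F => ∃ H ∈ F, q ^ 3 < H.card)).card ≤ q ^ J * G :=
        Nat.mul_le_mul_left _ hsub
    _ ≤ (AA P).card := Nat.le_of_mul_le_mul_left h5 (by positivity)

/-- the constants of the recursion -/
def stepConst (C M : ℕ) : ℕ → ℕ
  | 0 => 1
  | s + 1 => C + M * stepConst C M s

theorem ft_rec {P : Finset (Finset (Fin n))} (hP : Pairs P) {x y : Fin n} (hxy : x ≠ y)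
    (hxyP : ({x, y} : Finset (Fin n)) ∉ P)
    {q J : ℕ} (hd : ∀ z, 100 * deg P z ≤ n) (hq : q ^ 5 ≤ n) (hn : n < (q + 1) ^ 5)
    (hJ : 1000 * (J + 1) ≤ q) (hJ2 : 512 * (32 + J) ≤ q) (s : ℕ) (hs : s ≤ J) :
    q ^ s * (FT P x y (J - s)).card ≤
      stepConst (1 + (4 * (J + 1) ^ 2) ^ J) (64 * (J + 1)) s * (AA P).card := by
  classical
  have hq1 : 1 ≤ q := by omega
  have hn5 : 5 ≤ n := by
    have : q ≤ n := le_trans (Nat.le_self_pow (by norm_num) q) hq
    omega
  induction s with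
  | zero =>
    simpa [stepConst] using FT_card_le P x y J
  | succ s ih =>
    have ih' := ih (by omega)
    obtain ⟨t, ht⟩ : ∃ t, J = t + 1 + s := ⟨J - (s + 1), by omega⟩
    have e1 : J - (s + 1) = t := by omega
    have e2 : J - s = t + 1 := by omega
    rw [e1]
    rw [e2] at ih'
    have hm3 := move3 (P := P) hP hxy hxyP hn5 t (q ^ 6)
    set X := ((FT P x y t).filter (fun F => q ^ 6 ≤ (GG P x y F).card)).card with hX
    set G := ((AA P).filter (fun F => ∃ H ∈ F, q ^ 3 < H.card)).card with hG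
    set B := (BB P x y t (q ^ 3) (q ^ 6)).card with hB
    have hcov : (FT P x y t).card ≤ G + B + X := by
      have hsub : FT P x y t ⊆ ((AA P).filter (fun F => ∃ H ∈ F, q ^ 3 < H.card)) ∪
          BB P x y t (q ^ 3) (q ^ 6) ∪
          ((FT P x y t).filter (fun F => q ^ 6 ≤ (GG P x y F).card)) := by
        intro F hF
        simp only [mem_union]
        by_cases h1 : ∃ H ∈ F, q ^ 3 < H.card
        · left; left
          rw [mem_filter]
          exact ⟨(mem_filter.1 hF).1, h1⟩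
        · push Not at h1
          by_cases h2 : q ^ 6 ≤ (GG P x y F).card
          · right
            rw [mem_filter]
            exact ⟨hF, h2⟩
          · left; right
            unfold BB
            rw [mem_filter]
            exact ⟨hF, h1, by omega⟩
      calc (FT P x y t).card ≤ _ := card_le_card hsub
        _ ≤ _ := card_union_le _ _
        _ ≤ G + B + X := Nat.add_le_add_right (card_union_le _ _) _
    have hGs : q ^ J * G ≤ (AA P).card := giants_small P hn hJ2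
    have hBs : q ^ J * B ≤ (4 * (J + 1) ^ 2) ^ J * (AA P).card := by
      have := bb_chain hP hxy (q := q) (J := J) (t := t) hd hq hJ (by omega) J le_rfl
      simpa using this
    have hXs : q * X ≤ 64 * (J + 1) * (FT P x y (t + 1)).card := by
      have h1 : n + 1 ≤ 32 * q ^ 5 := by
        have h1 : (q + 1) ^ 5 ≤ (2 * q) ^ 5 := Nat.pow_le_pow_left (by omega) 5
        have h2 : (2 * q) ^ 5 = 32 * q ^ 5 := by ring
        omega
      have h2 : q ^ 5 * (q * X) ≤ q ^ 5 * (64 * (J + 1) * (FT P x y (t + 1)).card) := by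
        calc q ^ 5 * (q * X) = q ^ 6 * X := by ring
          _ ≤ 2 * (t + 1) * (n + 1) * (FT P x y (t + 1)).card := hm3
          _ ≤ 2 * (J + 1) * (32 * q ^ 5) * (FT P x y (t + 1)).card := by
              apply Nat.mul_le_mul_right
              apply Nat.mul_le_mul _ h1
              omega
          _ = q ^ 5 * (64 * (J + 1) * (FT P x y (t + 1)).card) := by ring
      exact Nat.le_of_mul_le_mul_left h2 (by positivity)
    have hqs : q ^ (s + 1) ≤ q ^ J := Nat.pow_le_pow_right hq1 hs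
    calc q ^ (s + 1) * (FT P x y t).card ≤ q ^ (s + 1) * (G + B + X) :=
          Nat.mul_le_mul_left _ hcov
      _ = q ^ (s + 1) * G + q ^ (s + 1) * B + q ^ s * (q * X) := by ring
      _ ≤ q ^ J * G + q ^ J * B + q ^ s * (64 * (J + 1) * (FT P x y (t + 1)).card) := by
          apply Nat.add_le_add
          · apply Nat.add_le_add
            · exact Nat.mul_le_mul_right _ hqs
            · exact Nat.mul_le_mul_right _ hqs
          · exact Nat.mul_le_mul_left _ hXs
      _ = q ^ J * G + q ^ J * B + 64 * (J + 1) * (q ^ s * (FT P x y (t + 1)).card) := by ring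
      _ ≤ (AA P).card + (4 * (J + 1) ^ 2) ^ J * (AA P).card +
            64 * (J + 1) * (stepConst (1 + (4 * (J + 1) ^ 2) ^ J) (64 * (J + 1)) s * (AA P).card) := by
          apply Nat.add_le_add
          · exact Nat.add_le_add hGs hBs
          · exact Nat.mul_le_mul_left _ ih'
      _ = stepConst (1 + (4 * (J + 1) ^ 2) ^ J) (64 * (J + 1)) (s + 1) * (AA P).card := by
          simp only [stepConst]
          ring

theorem exists_root (n : ℕ) : ∃ q : ℕ, q ^ 5 ≤ n ∧ n < (q + 1) ^ 5 := by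
  induction n with
  | zero => exact ⟨0, by norm_num, by norm_num⟩
  | succ n ih =>
    obtain ⟨q, h1, h2⟩ := ih
    by_cases h : n + 1 < (q + 1) ^ 5
    · exact ⟨q, by omega, h⟩
    · have hlt : (q + 1) ^ 5 < (q + 1 + 1) ^ 5 := Nat.pow_lt_pow_left (by omega) (by norm_num)
      exact ⟨q + 1, by omega, by omega⟩

theorem step (A : ℕ) : ∃ N : ℕ, ∀ n : ℕ, N ≤ n → ∀ P : Finset (Finset (Fin n)), Pairs P →
    (∀ z, 100 * deg P z ≤ n) → ∀ x y : Fin n, x ≠ y → ({x, y} : Finset (Fin n)) ∉ P →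
    n ^ A * (AA (insert {x, y} P)).card ≤ (AA P).card := by
  obtain ⟨J, hJdef⟩ : ∃ J, J = 5 * A + 1 := ⟨_, rfl⟩
  obtain ⟨D, hD⟩ : ∃ D, D = stepConst (1 + (4 * (J + 1) ^ 2) ^ J) (64 * (J + 1)) J := ⟨_, rfl⟩
  obtain ⟨Q, hQ⟩ : ∃ Q, Q = 1000 * (J + 1) + 512 * (32 + J) + 32 ^ A * D := ⟨_, rfl⟩
  refine ⟨Q ^ 5, fun n hn P hP hd x y hxy hxyP => ?_⟩
  obtain ⟨q, hq, hnq⟩ := exists_root n
  have hQq : Q ≤ q := by
    by_contra hlt
    have h1 : q + 1 ≤ Q := by omega
    have h2 : (q + 1) ^ 5 ≤ Q ^ 5 := Nat.pow_le_pow_left h1 5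
    omega
  have hJ : 1000 * (J + 1) ≤ q := by
    have h1 : 1000 * (J + 1) ≤ Q := by
      rw [hQ, add_assoc]
      exact Nat.le_add_right _ _
    omega
  have hJ2 : 512 * (32 + J) ≤ q := by
    have h1 : 512 * (32 + J) ≤ Q := by
      rw [hQ, add_assoc]
      exact (Nat.le_add_right _ _).trans (Nat.le_add_left _ _)
    omega
  have hDq : 32 ^ A * D ≤ q := by
    have h1 : 32 ^ A * D ≤ Q := by
      rw [hQ]
      exact Nat.le_add_left _ _
    exact h1.trans hQq
  have hq1 : 1 ≤ q := by omega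
  have hrec := ft_rec hP hxy hxyP (q := q) (J := J) hd hq hnq hJ hJ2 J le_rfl
  rw [Nat.sub_self, ← hD] at hrec
  rw [AA_insert_pair]
  have hnA : n ^ A ≤ 32 ^ A * q ^ (5 * A) := by
    have h1 : (q + 1) ^ 5 ≤ (2 * q) ^ 5 := Nat.pow_le_pow_left (by omega) 5
    have h2 : (2 * q) ^ 5 = 32 * q ^ 5 := by ring
    calc n ^ A ≤ (32 * q ^ 5) ^ A := Nat.pow_le_pow_left (by omega) A
      _ = 32 ^ A * q ^ (5 * A) := by rw [mul_pow, ← pow_mul]
  have h3 : q * (n ^ A * (FT P x y 0).card) ≤ q * (AA P).card := by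
    calc q * (n ^ A * (FT P x y 0).card) ≤ q * ((32 ^ A * q ^ (5 * A)) * (FT P x y 0).card) := by
          apply Nat.mul_le_mul_left
          exact Nat.mul_le_mul_right _ hnA
      _ = 32 ^ A * (q ^ J * (FT P x y 0).card) := by rw [hJdef]; ring
      _ ≤ 32 ^ A * (D * (AA P).card) := Nat.mul_le_mul_left _ hrec
      _ = (32 ^ A * D) * (AA P).card := by ring
      _ ≤ q * (AA P).card := Nat.mul_le_mul_right _ hDq
  exact Nat.le_of_mul_le_mul_left h3 (by omega)

end Pool.Agent.R4P
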