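import Pool.Agent.R4P.Defs
import Pool.Agent.R4P.RpG

/-!
# Joint estimate: greedy subgraph of small degree, induction
-/

set_option autoImplicit false

namespace Pool.Agent.R4P

open Finset

variable {n : ℕ}

namespace RpH

theorem Pairs_mono {P Q : Finset (Finset (Fin n))} (h : Q ⊆ P) (hP : Pairs P) : Pairs Q :=
  fun e he => hP e (h he)

theorem deg_mono {P Q : Finset (Finset (Fin n))} (h : Q ⊆ P) (z : Fin n) : deg Q z ≤ deg P z :=
  Finset.card_le_card (Finset.filter_subset_filter _ h)

theorem mem_AA {P : Finset (Finset (Fin n))} {F : Finset (Finset (Fin n))} :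
    F ∈ AA P ↔ F ∈ fams n ∧ ∀ e ∈ P, ¬ Cov F e := by
  simp only [AA, Finset.mem_filter]

theorem AA_anti {P Q : Finset (Finset (Fin n))} (h : Q ⊆ P) : AA P ⊆ AA Q := by
  intro F hF
  rw [mem_AA] at hF ⊢
  exact ⟨hF.1, fun e he => hF.2 e (h he)⟩

theorem deg_le {P : Finset (Finset (Fin n))} (hP : Pairs P) (z : Fin n) : deg P z ≤ n := by
  have h : P.filter (fun e => z ∈ e) ⊆
      (univ : Finset (Fin n)).image (fun w => ({z, w} : Finset (Fin n))) := by
    intro e he
    rw [Finset.mem_filter] at he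
    obtain ⟨a, b, _, hab⟩ := Finset.card_eq_two.1 (hP e he.1)
    have hz := he.2
    rw [hab, Finset.mem_insert, Finset.mem_singleton] at hz
    rw [Finset.mem_image]
    rcases hz with hz | hz
    · exact ⟨b, Finset.mem_univ _, by rw [hab, hz]⟩
    · exact ⟨a, Finset.mem_univ _, by rw [hab, hz, Finset.pair_comm]⟩
  calc deg P z ≤ ((univ : Finset (Fin n)).image (fun w => ({z, w} : Finset (Fin n)))).card :=
        Finset.card_le_card h
    _ ≤ (univ : Finset (Fin n)).card := Finset.card_image_le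
    _ = n := by simp

theorem sum_deg {P : Finset (Finset (Fin n))} (hP : Pairs P) :
    ∑ z : Fin n, deg P z = 2 * P.card := by
  unfold deg
  simp only [Finset.card_filter]
  rw [Finset.sum_comm]
  have h : ∀ e ∈ P, ∑ z : Fin n, (if z ∈ e then 1 else 0) = 2 := by
    intro e he
    rw [← hP e he]
    simp
  rw [Finset.sum_congr rfl h, Finset.sum_const, smul_eq_mul, mul_comm]

/-- a subgraph of small degree which is a positive proportion of the whole graph -/
theorem greedy (hn : 400 ≤ n) {P : Finset (Finset (Fin n))} (hP : Pairs P) :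
    ∃ Q ⊆ P, (∀ z, 100 * deg Q z ≤ n) ∧ P.card ≤ 300 * Q.card := by
  classical
  obtain ⟨Q, hQ, hmax⟩ := Finset.exists_max_image
    (P.powerset.filter fun Q => ∀ z, 100 * deg Q z ≤ n) Finset.card
    ⟨∅, by
      rw [Finset.mem_filter]
      refine ⟨Finset.empty_mem_powerset _, fun z => ?_⟩
      simp [deg]⟩
  rw [Finset.mem_filter, Finset.mem_powerset] at hQ
  obtain ⟨hQP, hlow⟩ := hQ
  refine ⟨Q, hQP, hlow, ?_⟩
  obtain ⟨Sat, hSat⟩ : ∃ Sat : Finset (Fin n), ∀ z, z ∈ Sat ↔ n < 100 * (deg Q z + 1) :=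
    ⟨univ.filter fun z => n < 100 * (deg Q z + 1), fun z => by simp⟩
  -- every further pair has a saturated end
  have hsub : P \ Q ⊆ Sat.biUnion fun z => P.filter fun e => z ∈ e := by
    intro e he
    rw [Finset.mem_sdiff] at he
    have hnot : ¬ ∀ z, 100 * deg (insert e Q) z ≤ n := by
      intro hall
      have hmem : insert e Q ∈ P.powerset.filter fun Q => ∀ z, 100 * deg Q z ≤ n := by
        rw [Finset.mem_filter, Finset.mem_powerset]
        exact ⟨Finset.insert_subset he.1 hQP, hall⟩
      have h1 := hmax _ hmem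
      rw [Finset.card_insert_of_notMem he.2] at h1
      omega
    push Not at hnot
    obtain ⟨z, hz⟩ := hnot
    have hdz : deg (insert e Q) z ≤ deg Q z + 1 := by
      unfold deg
      rw [Finset.filter_insert]
      split_ifs
      · exact Finset.card_insert_le _ _
      · omega
    have hze : z ∈ e := by
      by_contra hze
      have : deg (insert e Q) z = deg Q z := by
        unfold deg
        rw [Finset.filter_insert, if_neg hze]
      rw [this] at hz
      exact absurd (hlow z) (by omega)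
    rw [Finset.mem_biUnion]
    refine ⟨z, (hSat z).2 (by omega), ?_⟩
    rw [Finset.mem_filter]
    exact ⟨he.1, hze⟩
  have h1 : (P \ Q).card ≤ Sat.card * n := by
    calc (P \ Q).card ≤ (Sat.biUnion fun z => P.filter fun e => z ∈ e).card :=
          Finset.card_le_card hsub
      _ ≤ ∑ z ∈ Sat, (P.filter fun e => z ∈ e).card := Finset.card_biUnion_le
      _ ≤ ∑ _z ∈ Sat, n := Finset.sum_le_sum fun z _ => deg_le hP z
      _ = Sat.card * n := by rw [Finset.sum_const, smul_eq_mul]
  have h2 : Sat.card * (n - 99) ≤ 200 * Q.card := by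
    calc Sat.card * (n - 99) = ∑ _z ∈ Sat, (n - 99) := by rw [Finset.sum_const, smul_eq_mul]
      _ ≤ ∑ z ∈ Sat, 100 * deg Q z := Finset.sum_le_sum fun z hz => by
          have := (hSat z).1 hz
          omega
      _ ≤ ∑ z : Fin n, 100 * deg Q z :=
          Finset.sum_le_sum_of_subset_of_nonneg (Finset.subset_univ _) fun _ _ _ => Nat.zero_le _
      _ = 100 * ∑ z : Fin n, deg Q z := by rw [Finset.mul_sum]
      _ = 200 * Q.card := by rw [sum_deg (Pairs_mono hQP hP)]; ring
  have h3 : 3 * (Sat.card * n) ≤ 4 * (Sat.card * (n - 99)) := by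
    obtain ⟨k, rfl⟩ : ∃ k, n = k + 99 := ⟨n - 99, by omega⟩
    rw [Nat.add_sub_cancel]
    have hk : 3 * (k + 99) ≤ 4 * k := by omega
    calc 3 * (Sat.card * (k + 99)) = Sat.card * (3 * (k + 99)) := by ring
      _ ≤ Sat.card * (4 * k) := Nat.mul_le_mul_left _ hk
      _ = 4 * (Sat.card * k) := by ring
  have h4 := Finset.card_sdiff_add_card_eq_card hQP
  omega

theorem low_case {A N : ℕ} (hN : N ≤ n)
    (hstep : ∀ n : ℕ, N ≤ n → ∀ P : Finset (Finset (Fin n)), Pairs P →
      (∀ z, 100 * deg P z ≤ n) → ∀ x y : Fin n, x ≠ y → ({x, y} : Finset (Fin n)) ∉ P →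
      n ^ A * (AA (insert {x, y} P)).card ≤ (AA P).card)
    (P : Finset (Finset (Fin n))) : Pairs P → (∀ z, 100 * deg P z ≤ n) →
    n ^ (A * P.card) * (AA P).card ≤ (fams n).card := by
  induction P using Finset.induction_on with
  | empty =>
    intro _ _
    rw [Finset.card_empty, mul_zero, pow_zero, one_mul]
    exact Finset.card_le_card fun F hF => (mem_AA.1 hF).1
  | insert e P he ih =>
    intro hP hlow
    have hsub : P ⊆ insert e P := Finset.subset_insert _ _
    have hP' := Pairs_mono hsub hP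
    have hlow' : ∀ z, 100 * deg P z ≤ n := fun z =>
      (Nat.mul_le_mul_left _ (deg_mono hsub z)).trans (hlow z)
    have h1 := ih hP' hlow'
    obtain ⟨x, y, hxy, hexy⟩ := Finset.card_eq_two.1 (hP e (Finset.mem_insert_self _ _))
    subst hexy
    have h2 := hstep n hN P hP' hlow' x y hxy he
    rw [Finset.card_insert_of_notMem he, mul_add, mul_one, pow_add]
    calc n ^ (A * P.card) * n ^ A * (AA (insert {x, y} P)).card
        = n ^ (A * P.card) * (n ^ A * (AA (insert {x, y} P)).card) := by ring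
      _ ≤ n ^ (A * P.card) * (AA P).card := Nat.mul_le_mul_left _ h2
      _ ≤ _ := h1

end RpH

theorem joint (A : ℕ) : ∃ N : ℕ, ∀ n : ℕ, N ≤ n → ∀ P : Finset (Finset (Fin n)), Pairs P →
    n ^ (A * P.card) * (AA P).card ≤ (fams n).card := by
  obtain ⟨N, hN⟩ := step (300 * A)
  refine ⟨max N 400, fun n hn P hP => ?_⟩
  have hn1 : N ≤ n := (le_max_left _ _).trans hn
  have hn2 : 400 ≤ n := (le_max_right _ _).trans hn
  obtain ⟨Q, hQP, hlow, hcard⟩ := RpH.greedy hn2 hP
  have h1 := RpH.low_case hn1 hN Q (RpH.Pairs_mono hQP hP) hlow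
  refine le_trans ?_ h1
  refine Nat.mul_le_mul (Nat.pow_le_pow_right (by omega) ?_)
    (Finset.card_le_card (RpH.AA_anti hQP))
  calc A * P.card ≤ A * (300 * Q.card) := Nat.mul_le_mul_left _ hcard
    _ = 300 * A * Q.card := by ring

end Pool.Agent.R4P
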