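import Pool.Agent.R4P.Defs
import Pool.Agent.R4P.RpH

/-!
MP_039b14_co, rank four, module RpI: the sum over the sets of zero pairs.
-/

set_option autoImplicit false

namespace Pool.Agent.R4P

open Finset H38Pav

variable {n : ℕ}

theorem rpi_sum_pow (S : Finset (Finset (Fin n))) (x : ℝ) :
    ∑ P ∈ S.powerset.erase ∅, x ^ P.card = (1 + x) ^ S.card - 1 := by
  have h1 : ∑ P ∈ S.powerset, x ^ P.card = (1 + x) ^ S.card := by
    have h := Finset.prod_one_add (s := S) (f := fun _ => x)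
    simp only [Finset.prod_const] at h
    exact h.symm
  have h2 := Finset.sum_erase_add S.powerset (fun P => x ^ P.card)
    (Finset.empty_mem_powerset S)
  rw [h1] at h2
  simp only [Finset.card_empty, pow_zero] at h2
  linarith

theorem rpi_pow_le {K n : ℕ} (hn : 2 ≤ n) (hK : K ≤ n ^ 2) :
    (1 + ((n : ℝ) ^ 2 + 1) / (n : ℝ) ^ 6) ^ K ≤ 2 := by
  have hn' : (2 : ℝ) ≤ n := by exact_mod_cast hn
  have hn0 : (0 : ℝ) < n := by linarith
  have hK' : (K : ℝ) ≤ (n : ℝ) ^ 2 := by exact_mod_cast hK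
  have hx : 0 ≤ ((n : ℝ) ^ 2 + 1) / (n : ℝ) ^ 6 := by positivity
  have h1 : (1 + ((n : ℝ) ^ 2 + 1) / (n : ℝ) ^ 6) ^ K ≤
      Real.exp (K * (((n : ℝ) ^ 2 + 1) / (n : ℝ) ^ 6)) := by
    rw [Real.exp_nat_mul]
    apply pow_le_pow_left₀ (by positivity)
    have := Real.add_one_le_exp (((n : ℝ) ^ 2 + 1) / (n : ℝ) ^ 6)
    linarith
  have h2 : (K : ℝ) * (((n : ℝ) ^ 2 + 1) / (n : ℝ) ^ 6) ≤ 1 / 2 := by
    have h3 : (K : ℝ) * (((n : ℝ) ^ 2 + 1) / (n : ℝ) ^ 6) ≤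
        (n : ℝ) ^ 2 * (((n : ℝ) ^ 2 + 1) / (n : ℝ) ^ 6) := mul_le_mul_of_nonneg_right hK' hx
    refine h3.trans ?_
    rw [← mul_div_assoc, div_le_div_iff₀ (by positivity) (by norm_num)]
    have h4 : (4 : ℝ) ≤ (n : ℝ) ^ 2 := by nlinarith
    have h5 : (0 : ℝ) ≤ (n : ℝ) ^ 2 := by positivity
    nlinarith [mul_nonneg h5 h5, mul_nonneg (mul_nonneg h5 h5) (sub_nonneg.2 h4),
      mul_nonneg h5 (sub_nonneg.2 h4)]
  refine (h1.trans (Real.exp_le_exp.2 h2)).trans ?_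
  have h3 : Real.exp (1 / 2) ^ 2 = Real.exp 1 := by
    rw [← Real.exp_nat_mul]
    norm_num
  have h4 := Real.exp_one_lt_d9
  have h5 := Real.exp_pos (1 / 2)
  nlinarith

/-! ### RpI (sum)  file RpI.lean -/

theorem sum_small (A : ℕ) : ∃ N : ℕ, ∀ n : ℕ, N ≤ n →
    n ^ A * ∑ P ∈ (prs n).powerset.erase ∅, (AA P).card * (n ^ 2 + 1) ^ P.card ≤
      (fams n).card := by
  obtain ⟨N, hN⟩ := joint (A + 6)
  refine ⟨max N 2, fun n hn => ?_⟩
  have hnN : N ≤ n := (le_max_left _ _).trans hn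
  have hn2 : 2 ≤ n := (le_max_right _ _).trans hn
  have hn2' : (2 : ℝ) ≤ n := by exact_mod_cast hn2
  have hn0 : (0 : ℝ) < n := by linarith
  have hn1 : (1 : ℝ) ≤ n := by linarith
  obtain ⟨x, hx⟩ : ∃ x, x = ((n : ℝ) ^ 2 + 1) / (n : ℝ) ^ 6 := ⟨_, rfl⟩
  have hx0 : 0 ≤ x := by rw [hx]; positivity
  have hxn : (n : ℝ) ^ 6 * x = (n : ℝ) ^ 2 + 1 := by
    rw [hx, mul_div_cancel₀ _ (by positivity)]
  have hterm : ∀ P ∈ (prs n).powerset.erase ∅,
      (n : ℝ) ^ A * (((AA P).card : ℝ) * ((n : ℝ) ^ 2 + 1) ^ P.card) ≤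
        ((fams n).card : ℝ) * x ^ P.card := by
    intro P hP
    rw [Finset.mem_erase, Finset.mem_powerset] at hP
    have hpairs : Pairs P := fun e he => (Finset.mem_powersetCard.1 (hP.2 he)).2
    have h1 : ((n : ℝ) ^ ((A + 6) * P.card)) * ((AA P).card : ℝ) ≤ ((fams n).card : ℝ) := by
      exact_mod_cast hN n hnN P hpairs
    have hp : 1 ≤ P.card := Finset.card_pos.2 (Finset.nonempty_iff_ne_empty.2 hP.1)
    have h2 : (n : ℝ) ^ A ≤ (n : ℝ) ^ (A * P.card) :=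
      pow_le_pow_right₀ hn1 (Nat.le_mul_of_pos_right A hp)
    have h3 : (0 : ℝ) ≤ ((AA P).card : ℝ) * ((n : ℝ) ^ 2 + 1) ^ P.card := by positivity
    calc (n : ℝ) ^ A * (((AA P).card : ℝ) * ((n : ℝ) ^ 2 + 1) ^ P.card)
        ≤ (n : ℝ) ^ (A * P.card) * (((AA P).card : ℝ) * ((n : ℝ) ^ 2 + 1) ^ P.card) :=
          mul_le_mul_of_nonneg_right h2 h3
      _ = ((n : ℝ) ^ ((A + 6) * P.card) * ((AA P).card : ℝ)) * x ^ P.card := by
          rw [← hxn, mul_pow, add_mul, pow_add, pow_mul (n : ℝ) 6]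
          ring
      _ ≤ ((fams n).card : ℝ) * x ^ P.card := mul_le_mul_of_nonneg_right h1 (by positivity)
  have hsum : (n : ℝ) ^ A * ∑ P ∈ (prs n).powerset.erase ∅,
      ((AA P).card : ℝ) * ((n : ℝ) ^ 2 + 1) ^ P.card ≤ ((fams n).card : ℝ) := by
    rw [Finset.mul_sum]
    refine (Finset.sum_le_sum hterm).trans ?_
    rw [← Finset.mul_sum, rpi_sum_pow]
    have hK : (prs n).card ≤ n ^ 2 := by
      unfold prs
      rw [Finset.card_powersetCard, Finset.card_univ, Fintype.card_fin]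
      exact Nat.choose_le_pow n 2
    have h1 := rpi_pow_le hn2 hK
    rw [← hx] at h1
    have h2 : (0 : ℝ) ≤ ((fams n).card : ℝ) := by positivity
    nlinarith
  exact_mod_cast hsum

end Pool.Agent.R4P
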