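import Pool.Agent.R4P.Defs

/-!
MP_039b14_co, rank four: closure with respect to loops and lines, and caps.
-/

set_option autoImplicit false

namespace Pool.Agent.R4P

variable {n : ℕ}

theorem subset_lc (M : Matroid (Fin n)) (X : Set (Fin n)) : X ⊆ lc M X :=
  Set.subset_sInter fun _ hY => hY.1

theorem closure_pair_subset_lc (M : Matroid (Fin n)) (X : Set (Fin n)) {a b : Fin n}
    (ha : a ∈ lc M X) (hb : b ∈ lc M X) : M.closure {a, b} ⊆ lc M X :=
  Set.subset_sInter fun Y hY =>
    hY.2.2 a (Set.mem_sInter.1 ha Y hY) b (Set.mem_sInter.1 hb Y hY)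

theorem closure_empty_subset_lc (M : Matroid (Fin n)) (X : Set (Fin n)) :
    M.closure ∅ ⊆ lc M X :=
  Set.subset_sInter fun _ hY => hY.2.1

theorem lc_mono (M : Matroid (Fin n)) {X Y : Set (Fin n)} (h : X ⊆ lc M Y) :
    lc M X ⊆ lc M Y :=
  Set.sInter_subset_of_mem ⟨h, closure_empty_subset_lc M Y,
    fun _ ha _ hb => closure_pair_subset_lc M Y ha hb⟩

theorem lc_subset_of_flat (M : Matroid (Fin n)) {X P : Set (Fin n)} (hP : M.IsFlat P)
    (h : X ⊆ P) : lc M X ⊆ P := by
  refine Set.sInter_subset_of_mem ⟨h, ?_, fun a ha b hb => ?_⟩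
  · have h1 := M.closure_subset_closure (Set.empty_subset P)
    rwa [hP.closure] at h1
  · have h1 := M.closure_subset_closure (Set.insert_subset ha (Set.singleton_subset_iff.2 hb))
    rwa [hP.closure] at h1

theorem mem_cap_iff (M : Matroid (Fin n)) {P : Set (Fin n)} {p : Fin n} :
    p ∈ cap M P ↔ p ∈ P ∧ p ∉ lc M {q | q ∈ P ∧ q < p} := by
  simp [cap]

theorem lc_cap (M : Matroid (Fin n)) {P : Set (Fin n)} (hP : M.IsFlat P) :
    lc M (cap M P) = P := by
  apply subset_antisymm
  · exact lc_subset_of_flat M hP fun p hp => ((mem_cap_iff M).1 (Finset.mem_coe.1 hp)).1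
  · have key : ∀ p : Fin n, p ∈ P → p ∈ lc M (cap M P) := by
      intro p
      induction p using WellFoundedLT.induction with
      | ind p ih =>
        intro hp
        by_cases h : p ∈ cap M P
        · exact subset_lc M _ (Finset.mem_coe.2 h)
        · rw [mem_cap_iff] at h
          have h2 : p ∈ lc M {q | q ∈ P ∧ q < p} := by
            by_contra h3
            exact h ⟨hp, h3⟩
          exact lc_mono M (fun q hq => ih q hq.2 hq.1) h2
    exact key

/-- three points of a cap are independent -/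
theorem indep_of_cap (M : Matroid (Fin n)) (hE : M.E = Set.univ) {P : Set (Fin n)}
    (hP : M.IsFlat P) {a b c : Fin n} (hab : a < b) (hbc : b < c) (ha : a ∈ cap M P)
    (hb : b ∈ cap M P) (hc : c ∈ cap M P) : M.Indep {a, b, c} := by
  have hm : ∀ x : Fin n, x ∈ M.E := fun x => by rw [hE]; exact Set.mem_univ x
  have ha' := (mem_cap_iff M).1 ha
  have hb' := (mem_cap_iff M).1 hb
  have hc' := (mem_cap_iff M).1 hc
  have h1 : M.Indep {a} := by
    have h : a ∉ M.closure ∅ := fun h => ha'.2 (closure_empty_subset_lc M _ h)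
    have h2 := ((M.empty_indep.notMem_closure_iff (hm a)).1 h).1
    rwa [insert_empty_eq] at h2
  have h2 : M.Indep {b, a} := by
    have h : b ∉ M.closure {a} := fun h => hb'.2 (by
      have h3 : a ∈ lc M {q | q ∈ P ∧ q < b} := subset_lc M _ ⟨ha'.1, hab⟩
      have h4 := closure_pair_subset_lc M _ h3 h3
      rw [Set.pair_eq_singleton] at h4
      exact h4 h)
    exact ((h1.notMem_closure_iff (hm b)).1 h).1
  have h3 : M.Indep {c, b, a} := by
    have h : c ∉ M.closure {b, a} := fun h => hc'.2 (by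
      have h3 : a ∈ lc M {q | q ∈ P ∧ q < c} := subset_lc M _ ⟨ha'.1, hab.trans hbc⟩
      have h4 : b ∈ lc M {q | q ∈ P ∧ q < c} := subset_lc M _ ⟨hb'.1, hbc⟩
      exact closure_pair_subset_lc M _ h4 h3 h)
    exact ((h2.notMem_closure_iff (hm c)).1 h).1
  have e : ({c, b, a} : Set (Fin n)) = {a, b, c} := by
    ext x
    simp only [Set.mem_insert_iff, Set.mem_singleton_iff]
    tauto
  rwa [e] at h3

/-- two points of a cap are independent -/
theorem indep_pair_of_cap (M : Matroid (Fin n)) (hE : M.E = Set.univ) {P : Set (Fin n)}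
    {a b : Fin n} (hab : a < b) (ha : a ∈ cap M P) (hb : b ∈ cap M P) : M.Indep {a, b} := by
  have hm : ∀ x : Fin n, x ∈ M.E := fun x => by rw [hE]; exact Set.mem_univ x
  have ha' := (mem_cap_iff M).1 ha
  have hb' := (mem_cap_iff M).1 hb
  have h1 : M.Indep {a} := by
    have h : a ∉ M.closure ∅ := fun h => ha'.2 (closure_empty_subset_lc M _ h)
    have h2 := ((M.empty_indep.notMem_closure_iff (hm a)).1 h).1
    rwa [insert_empty_eq] at h2
  have h2 : M.Indep {b, a} := by
    have h : b ∉ M.closure {a} := fun h => hb'.2 (by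
      have h3 : a ∈ lc M {q | q ∈ P ∧ q < b} := subset_lc M _ ⟨ha'.1, hab⟩
      have h4 := closure_pair_subset_lc M _ h3 h3
      rw [Set.pair_eq_singleton] at h4
      exact h4 h)
    exact ((h1.notMem_closure_iff (hm b)).1 h).1
  rwa [Set.pair_comm] at h2

end Pool.Agent.R4P
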