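import Mathlib
import Pool.Agent.R4P.Defs
import Pool.Agent.R4P.RpK
import Pool.Agent.R4P.RpL
import Pool.Agent.R4P.RpM
import Pool.Agent.R4P.RpN

/-!
MP_039b14_co, rank four: the number of matroids of rank four which are not paving.

A matroid `M` is determined by `P = zeroPairs M`, the family `capFam M ∈ AA P` and the labels
`lab M` on `P`; `P` is a nonempty set of pairs if `M` is not paving.
-/

set_option autoImplicit false

namespace Pool.Agent.R4P

open Finset H38Pav

/-- the codes -/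
private abbrev Cd (n : ℕ) : Type :=
  Σ P : {P : Finset (Finset (Fin n)) // P ∈ (prs n).powerset.erase ∅},
    {F : Finset (Finset (Fin n)) // F ∈ AA P.1} ×
      ({e : Finset (Fin n) // e ∈ P.1} → Option (Fin n × Fin n))

private theorem card_Cd (n : ℕ) :
    Nat.card (Cd n) = ∑ P ∈ (prs n).powerset.erase ∅, (AA P).card * (n ^ 2 + 1) ^ P.card := by
  rw [Nat.card_sigma, ← Finset.sum_coe_sort ((prs n).powerset.erase ∅)
    (fun P => (AA P).card * (n ^ 2 + 1) ^ P.card)]
  refine Finset.sum_congr rfl (fun P _ => ?_)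
  rw [Nat.card_prod, Nat.card_fun, Nat.card_eq_fintype_card, Nat.card_eq_fintype_card,
    Nat.card_eq_fintype_card, Fintype.card_coe, Fintype.card_coe, Fintype.card_option,
    Fintype.card_prod, Fintype.card_fin, sq]

open Classical in
/-- the label of a set in a code -/
private noncomputable def evc {n : ℕ} (t : Cd n) (e : Finset (Fin n)) : Option (Fin n × Fin n) :=
  if h : e ∈ t.1.1 then t.2.2 ⟨e, h⟩ else none

private theorem zp_mem {n : ℕ} (M : Mat n) (h : M.1.eRank = 4 ∧ ¬ Paving M.1) :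
    zeroPairs M.1 ∈ (prs n).powerset.erase ∅ := by
  rw [Finset.mem_erase, Finset.mem_powerset]
  refine ⟨(zeroPairs_nonempty M.1 M.2 h.1 h.2).ne_empty, ?_⟩
  intro e he
  simp only [zeroPairs, Finset.mem_filter] at he
  exact he.1

/-- the code of a matroid -/
private noncomputable def code {n : ℕ} (M : {M : Mat n // M.1.eRank = 4 ∧ ¬ Paving M.1}) : Cd n :=
  ⟨⟨zeroPairs M.1.1, zp_mem M.1 M.2⟩, ⟨capFam M.1.1, capFam_mem M.1.1 M.1.2 M.2.1⟩,
    fun e => lab M.1.1 e.1⟩

private theorem evc_code {n : ℕ} (M : {M : Mat n // M.1.eRank = 4 ∧ ¬ Paving M.1})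
    {e : Finset (Fin n)} (he : e ∈ zeroPairs M.1.1) : evc (code M) e = lab M.1.1 e := by
  have h : e ∈ (code M).1.1 := he
  rw [evc, dif_pos h]
  rfl

private theorem code_inj (n : ℕ) :
    Function.Injective (code (n := n)) := by
  intro M N h
  have h1 : zeroPairs M.1.1 = zeroPairs N.1.1 := congrArg (fun t : Cd n => t.1.1) h
  have h2 : capFam M.1.1 = capFam N.1.1 := congrArg (fun t : Cd n => t.2.1.1) h
  have h3 : ∀ e ∈ zeroPairs M.1.1, lab M.1.1 e = lab N.1.1 e := by
    intro e he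
    rw [← evc_code M he, ← evc_code N (h1 ▸ he), h]
  apply Subtype.ext
  apply Subtype.ext
  exact recover M.1.1 N.1.1 M.1.2 N.1.2 M.2.1 N.2.1 h2
    (indep_of_codes M.1.1 N.1.1 M.1.2 N.1.2 M.2.1 N.2.1 h1 h3)

theorem nonpaving_le (n : ℕ) :
    Nat.card {M : Mat n // M.1.eRank = 4 ∧ ¬ Paving M.1} ≤
      ∑ P ∈ (prs n).powerset.erase ∅, (AA P).card * (n ^ 2 + 1) ^ P.card := by
  rw [← card_Cd]
  exact Nat.card_le_card_of_injective _ (code_inj n)

end Pool.Agent.R4P
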