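import Pool.Agent.R4P.Defs

/-!
# Every family gives a paving matroid of rank four
-/

set_option autoImplicit false

namespace Pool.Agent.R4P

open Finset H38Pav

variable {n : ℕ}

namespace RpP

theorem fam_eq {F : Finset (Finset (Fin n))} (hF : IsFam F) {H K T : Finset (Fin n)} (hH : H ∈ F)
    (hK : K ∈ F) (hT : T ⊆ H) (hT' : T ⊆ K) (h3 : 3 ≤ T.card) : H = K := by
  by_contra hne
  have h1 := hF.2 H hH K hK hne
  have h2 := card_le_card (subset_inter hT hT')
  omega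

theorem exists_uncov (hn : 5 ≤ n) {F : Finset (Finset (Fin n))} (hF : IsFam F) :
    ∃ X : Finset (Fin n), X.card = 4 ∧ ¬ Cov F X := by
  rcases F.eq_empty_or_nonempty with rfl | ⟨H, hH⟩
  · obtain ⟨X, -, hX⟩ := exists_subset_card_eq (s := (univ : Finset (Fin n))) (n := 4)
      (by rw [card_univ, Fintype.card_fin]; omega)
    refine ⟨X, hX, ?_⟩
    rintro ⟨K, hK, -⟩
    exact absurd hK (notMem_empty K)
  · obtain ⟨h4, h5⟩ := hF.1 H hH
    obtain ⟨T, hT, hT3⟩ := exists_subset_card_eq (s := H) (n := 3) (by omega)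
    obtain ⟨y, hy⟩ : ∃ y, y ∉ H := by
      by_contra hcon
      push Not at hcon
      rw [eq_univ_iff_forall.2 hcon, card_univ, Fintype.card_fin] at h5
      exact lt_irrefl n h5
    refine ⟨insert y T, ?_, ?_⟩
    · rw [card_insert_of_notMem (fun h => hy (hT h)), hT3]
    · rintro ⟨K, hK, hXK⟩
      have h6 : H = K := fam_eq hF hH hK hT ((subset_insert _ _).trans hXK) hT3.ge
      rw [h6] at hy
      exact hy (hXK (mem_insert_self _ _))

theorem exch {F : Finset (Finset (Fin n))} (hF : IsFam F) {X Y : Finset (Fin n)} (hX : X.card = 4)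
    (hY : Y.card = 4) (hYc : ¬ Cov F Y) {a : Fin n} (haX : a ∈ X) (haY : a ∉ Y) :
    ∃ b ∈ Y, b ∉ X ∧ ¬ Cov F (insert b (X.erase a)) := by
  by_contra hcon
  push Not at hcon
  have hT : (X.erase a).card = 3 := by rw [card_erase_of_mem haX, hX]
  obtain ⟨b₀, hb₀, hb₀'⟩ : ∃ b ∈ Y, b ∉ X := by
    by_contra h
    push Not at h
    have h1 : Y = X := eq_of_subset_of_card_le h (by rw [hX, hY])
    rw [h1] at haY
    exact haY haX
  obtain ⟨K₀, hK₀, h0⟩ := hcon b₀ hb₀ hb₀'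
  refine hYc ⟨K₀, hK₀, ?_⟩
  intro b hb
  by_cases hbX : b ∈ X
  · refine h0 (mem_insert_of_mem (mem_erase.2 ⟨?_, hbX⟩))
    rintro rfl
    exact haY hb
  · obtain ⟨K, hK, h1⟩ := hcon b hb hbX
    have h2 : K = K₀ := fam_eq hF hK hK₀ ((subset_insert _ _).trans h1)
      ((subset_insert _ _).trans h0) hT.ge
    rw [← h2]
    exact h1 (mem_insert_self _ _)

/-- the bases -/
def Bs (F : Finset (Finset (Fin n))) (B : Set (Fin n)) : Prop :=
  ∃ X : Finset (Fin n), (X : Set (Fin n)) = B ∧ X.card = 4 ∧ ¬ Cov F X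

theorem bs_coe {F : Finset (Finset (Fin n))} {X : Finset (Fin n)} :
    Bs F (X : Set (Fin n)) ↔ X.card = 4 ∧ ¬ Cov F X := by
  constructor
  · rintro ⟨Y, hY, h⟩
    rw [coe_inj] at hY
    rw [← hY]
    exact h
  · rintro h
    exact ⟨X, rfl, h⟩

theorem bs_exch {F : Finset (Finset (Fin n))} (hF : IsFam F) : Matroid.ExchangeProperty (Bs F) := by
  rintro _ _ ⟨X, rfl, hX, hXc⟩ ⟨Y, rfl, hY, hYc⟩ a ⟨haX, haY⟩
  rw [mem_coe] at haX haY
  obtain ⟨b, hb, hbX, hbc⟩ := exch hF hX hY hYc haX haY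
  refine ⟨b, ⟨mem_coe.2 hb, fun h => hbX (mem_coe.1 h)⟩, insert b (X.erase a), ?_, ?_, hbc⟩
  · rw [coe_insert, coe_erase]
  · rw [card_insert_of_notMem (fun h => hbX (mem_of_mem_erase h)), card_erase_of_mem haX, hX]

/-- the matroid of a family -/
noncomputable def MF (hn : 5 ≤ n) {F : Finset (Finset (Fin n))} (hF : IsFam F) : Matroid (Fin n) :=
  Matroid.ofIsBaseOfFinite (E := Set.univ) Set.finite_univ (Bs F)
    (by
      obtain ⟨X, hX⟩ := exists_uncov hn hF
      exact ⟨X, bs_coe.2 hX⟩)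
    (bs_exch hF) (fun _ _ => Set.subset_univ _)

theorem MF_E (hn : 5 ≤ n) {F : Finset (Finset (Fin n))} (hF : IsFam F) : (MF hn hF).E = Set.univ :=
  rfl

theorem MF_isBase (hn : 5 ≤ n) {F : Finset (Finset (Fin n))} (hF : IsFam F) (B : Set (Fin n)) :
    (MF hn hF).IsBase B ↔ Bs F B := by
  unfold MF
  rw [Matroid.ofIsBaseOfFinite_isBase]

theorem MF_eRank (hn : 5 ≤ n) {F : Finset (Finset (Fin n))} (hF : IsFam F) :
    (MF hn hF).eRank = 4 := by
  obtain ⟨X, hX⟩ := exists_uncov hn hF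
  have h1 : (MF hn hF).IsBase (X : Set (Fin n)) := (MF_isBase hn hF _).2 (bs_coe.2 hX)
  rw [← h1.encard_eq_eRank, Set.encard_coe_eq_coe_finsetCard, hX.1]
  rfl

theorem exists_sub {F F' : Finset (Finset (Fin n))} (hF : IsFam F) (hF' : IsFam F')
    (h : ∀ X : Finset (Fin n), X.card = 4 → (Cov F X ↔ Cov F' X)) {H : Finset (Fin n)}
    (hH : H ∈ F) : ∃ K ∈ F', H ⊆ K := by
  obtain ⟨h4, -⟩ := hF.1 H hH
  obtain ⟨T, hT, hT3⟩ := exists_subset_card_eq (s := H) (n := 3) (by omega)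
  have hcov : ∀ y ∈ H, y ∉ T → ∃ K ∈ F', insert y T ⊆ K := by
    intro y hy hyT
    refine (h _ ?_).1 ⟨H, hH, insert_subset hy hT⟩
    rw [card_insert_of_notMem hyT, hT3]
  obtain ⟨y₀, hy₀, hy₀T⟩ : ∃ y ∈ H, y ∉ T := by
    by_contra hcon
    push Not at hcon
    have := card_le_card (show H ⊆ T from hcon)
    omega
  obtain ⟨K₀, hK₀, h0⟩ := hcov y₀ hy₀ hy₀T
  refine ⟨K₀, hK₀, fun y hy => ?_⟩
  by_cases hyT : y ∈ T
  · exact h0 (mem_insert_of_mem hyT)
  · obtain ⟨K, hK, h1⟩ := hcov y hy hyT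
    have h2 : K = K₀ := fam_eq hF' hK hK₀ ((subset_insert _ _).trans h1)
      ((subset_insert _ _).trans h0) hT3.ge
    rw [← h2]
    exact h1 (mem_insert_self _ _)

theorem fam_sub {F F' : Finset (Finset (Fin n))} (hF : IsFam F) (hF' : IsFam F')
    (h : ∀ X : Finset (Fin n), X.card = 4 → (Cov F X ↔ Cov F' X)) : F ⊆ F' := by
  intro H hH
  obtain ⟨K, hK, h1⟩ := exists_sub hF hF' h hH
  obtain ⟨H', hH', h2⟩ := exists_sub hF' hF (fun X hX => (h X hX).symm) hK
  have h3 : H = H' := fam_eq hF hH hH' subset_rfl (h1.trans h2) (by have := (hF.1 H hH).1; omega)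
  have h4 : H = K := subset_antisymm h1 (by rw [h3]; exact h2)
  rw [h4]
  exact hK

end RpP

open RpP in
/-- every family gives a paving matroid -/
theorem fams_le (hn : 5 ≤ n) :
    (fams n).card ≤ Nat.card {M : Mat n // M.1.eRank = 4} := by
  classical
  have hfam : ∀ F : ↥(fams n), IsFam F.1 := fun F => by
    have h0 : F.1 ∈ fams n := F.2
    unfold fams at h0
    rw [Finset.mem_filter] at h0
    exact h0.2
  let g : ↥(fams n) → {M : Mat n // M.1.eRank = 4} := fun F =>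
    ⟨⟨MF hn (hfam F), MF_E hn (hfam F)⟩, MF_eRank hn (hfam F)⟩
  have hg : Function.Injective g := by
    intro F F' hFF
    have h1 : MF hn (hfam F) = MF hn (hfam F') := congrArg (fun M => M.1.1) hFF
    have h2 : ∀ X : Finset (Fin n), X.card = 4 → (Cov F.1 X ↔ Cov F'.1 X) := by
      intro X hX
      have h3 := (MF_isBase hn (hfam F) (X : Set (Fin n)))
      rw [h1, MF_isBase, bs_coe, bs_coe] at h3
      constructor
      · intro hc
        by_contra hc'
        exact (h3.1 ⟨hX, hc'⟩).2 hc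
      · intro hc
        by_contra hc'
        exact (h3.2 ⟨hX, hc'⟩).2 hc
    apply Subtype.ext
    exact subset_antisymm (fam_sub (hfam F) (hfam F') h2)
      (fam_sub (hfam F') (hfam F) fun X hX => (h2 X hX).symm)
  have h4 := Nat.card_le_card_of_injective g hg
  rwa [Nat.card_eq_fintype_card, Fintype.card_coe] at h4

end Pool.Agent.R4P
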