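import Pool.Agent.H38Pav.Main
import Pool.Agent.R4P.RpI
import Pool.Agent.R4P.RpO
import Pool.Agent.R4P.RpP

/-!
# Almost all matroids of rank four are paving (helper91)
-/

set_option autoImplicit false

namespace Pool.Agent.R4P

open Finset H38Pav

/-- almost all labelled matroids of rank four are paving -/
theorem final_np (A : ℕ) : ∃ N : ℕ, ∀ n : ℕ, N ≤ n →
    n ^ A * Nat.card {M : Mat n // M.1.eRank = 4 ∧ ¬ Paving M.1} ≤
      Nat.card {M : Mat n // M.1.eRank = 4} := by
  obtain ⟨N, hN⟩ := sum_small A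
  refine ⟨max N 5, fun n hn => ?_⟩
  exact (Nat.mul_le_mul_left _ (nonpaving_le n)).trans
    ((hN n ((le_max_left _ _).trans hn)).trans (fams_le ((le_max_right _ _).trans hn)))

theorem final (A : ℕ) : ∃ N : ℕ, ∀ n : ℕ, N ≤ n →
    n ^ A * Nat.card {M : Mat n // M.1.eRank = 4 ∧ HasMG M.1} ≤
      Nat.card {M : Mat n // M.1.eRank = 4} := by
  obtain ⟨N, hN⟩ := final_np A
  refine ⟨N, fun n hn => ?_⟩
  have h1 : Nat.card {M : Mat n // M.1.eRank = 4 ∧ HasMG M.1} ≤
      Nat.card {M : Mat n // M.1.eRank = 4 ∧ ¬ Paving M.1} := by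
    refine Nat.card_le_card_of_injective
      (fun M => ⟨M.1, M.2.1, not_paving_of_hasMG M.1.1 M.2.2⟩) ?_
    intro M M' h
    exact Subtype.ext (congrArg (fun x => x.1) h)
  exact (Nat.mul_le_mul_left _ h1).trans (hN n hn)

end Pool.Agent.R4P
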