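import Pool.Agent.R4P.Defs

/-!
MP_039b14_co, rank four: an element is made a loop.
-/

set_option autoImplicit false

namespace Pool.Agent.R4P

open Finset H38Pav

variable {n : ℕ}

/-- `b` is made a loop -/
noncomputable def lp (M : Matroid (Fin n)) (b : Fin n) : Matroid (Fin n) :=
  (M.restrict {b}ᶜ).restrict Set.univ

theorem lp_E (M : Matroid (Fin n)) (b : Fin n) : (lp M b).E = Set.univ := rfl

theorem lp_indep (M : Matroid (Fin n)) (b : Fin n) (I : Set (Fin n)) :
    (lp M b).Indep I ↔ M.Indep I ∧ b ∉ I := by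
  unfold lp
  rw [Matroid.restrict_indep_iff, Matroid.restrict_indep_iff]
  have h : I ⊆ ({b}ᶜ : Set (Fin n)) ↔ b ∉ I := Set.subset_compl_singleton_iff
  rw [h]
  exact and_iff_left (Set.subset_univ I)

theorem lp_eRank (M : Matroid (Fin n)) (hr : M.eRank = 4) {b : Fin n} {B : Set (Fin n)}
    (hB : M.IsBase B) (hb : b ∉ B) : (lp M b).eRank = 4 := by
  apply le_antisymm
  · obtain ⟨C, hC⟩ := (lp M b).exists_isBase
    rw [← hC.encard_eq_eRank, ← hr]
    exact ((lp_indep M b C).1 hC.indep).1.encard_le_eRank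
  · rw [← hr, ← hB.encard_eq_eRank]
    exact ((lp_indep M b B).2 ⟨hB.indep, hb⟩).encard_le_eRank

end Pool.Agent.R4P
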